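import Pool.Agent.Lib.MP_4e7250_co.SP.StmtB24

/-! Spiders (MP_4e7250_co): module BB, two long legs. -/

namespace SP24

open Finset

namespace BB39

lemma anti {f : ℕ → ℝ} (h : ∀ i, f (i + 1) ≤ f i) {a b : ℕ} (hab : a ≤ b) : f b ≤ f a :=
  antitone_nat_of_succ_le h hab

/-- the pair (i, j) together with the pair (j, i) -/
lemma cross {φ φ' γ γ' : ℕ → ℝ} (h1 : ∀ i, φ (i + 1) ≤ φ i) (h2 : ∀ i, φ' (i + 1) ≤ φ' i)
    (h3 : ∀ i, γ (i + 1) ≤ γ i) (h4 : ∀ i, γ' (i + 1) ≤ γ' i) (h5 : ∀ i, φ i ≤ φ' i)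
    (h6 : ∀ i, γ i ≤ γ' i) (a b : ℕ) :
    0 ≤ (φ a - φ' b) * (γ a - γ' b) + (φ b - φ' a) * (γ b - γ' a) := by
  have e1 : 0 ≤ ((φ a + φ' a) - (φ b + φ' b)) * ((γ a + γ' a) - (γ b + γ' b)) := by
    rcases le_total a b with h | h
    · have k1 := anti h1 h
      have k2 := anti h2 h
      have k3 := anti h3 h
      have k4 := anti h4 h
      exact mul_nonneg (by linarith) (by linarith)
    · have k1 := anti h1 h
      have k2 := anti h2 h
      have k3 := anti h3 h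
      have k4 := anti h4 h
      exact mul_nonneg_of_nonpos_of_nonpos (by linarith) (by linarith)
  have e2 : 0 ≤ ((φ' a - φ a) + (φ' b - φ b)) * ((γ' a - γ a) + (γ' b - γ b)) := by
    have k1 := h5 a
    have k2 := h5 b
    have k3 := h6 a
    have k4 := h6 b
    exact mul_nonneg (by linarith) (by linarith)
  nlinarith

/-- a double sum over two ranges, if the summand vanishes outside of a smaller square -/
lemma shrink {q a b : ℕ} (ha : q ≤ a) (hb : q ≤ b) {T : ℕ → ℕ → ℝ}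
    (hT : ∀ i j, q ≤ i ∨ q ≤ j → T i j = 0) :
    ∑ i ∈ range a, ∑ j ∈ range b, T i j = ∑ i ∈ range q, ∑ j ∈ range q, T i j := by
  have e1 : ∀ i, ∑ j ∈ range b, T i j = ∑ j ∈ range q, T i j := by
    intro i
    symm
    apply Finset.sum_subset (Finset.range_mono hb)
    intro j _ hj
    exact hT i j (Or.inr (by simpa using hj))
  simp only [e1]
  symm
  apply Finset.sum_subset (Finset.range_mono ha)
  intro i _ hi
  exact Finset.sum_eq_zero fun j _ => hT i j (Or.inl (by simpa using hi))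

end BB39

open BB39 in
/-- (BB) -/
theorem bb : StBB := by
  intro q a b φ φ' γ γ' ν ha hb h1 h2 h3 h4 h5 h6 hν hν0
  rw [shrink ha hb (T := fun i j =>
    ν (i + j + 2) * ((φ (i + 1) - φ' (j + 1)) * (γ (i + 1) - γ' (j + 1)))) (by
      intro i j hij
      rw [hν0 (i + j + 2) (by omega), zero_mul])]
  have hsym : ∑ i ∈ range q, ∑ j ∈ range q,
      ν (i + j + 2) * ((φ (i + 1) - φ' (j + 1)) * (γ (i + 1) - γ' (j + 1))) =
      ∑ i ∈ range q, ∑ j ∈ range q,
      ν (j + i + 2) * ((φ (j + 1) - φ' (i + 1)) * (γ (j + 1) - γ' (i + 1))) :=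
    Finset.sum_comm
  have hnn : 0 ≤ ∑ i ∈ range q, ∑ j ∈ range q,
      (ν (i + j + 2) * ((φ (i + 1) - φ' (j + 1)) * (γ (i + 1) - γ' (j + 1))) +
        ν (j + i + 2) * ((φ (j + 1) - φ' (i + 1)) * (γ (j + 1) - γ' (i + 1)))) := by
    refine Finset.sum_nonneg fun i _ => Finset.sum_nonneg fun j _ => ?_
    rw [add_comm j i, ← mul_add]
    exact mul_nonneg (hν _) (cross h1 h2 h3 h4 h5 h6 (i + 1) (j + 1))
  simp only [Finset.sum_add_distrib] at hnn
  rw [← hsym] at hnn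
  linarith

end SP24
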