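import Pool.Agent.Lib.MP_4e7250_co.SP.StmtB24

/-! Spiders (MP_4e7250_co): (BF) a leaf at the centre and a longer leg. -/

namespace SP24

open Finset

namespace BF19

lemma prod_ge {p r x y Z : ℝ} (hp : 0 ≤ p) (hr : 0 ≤ r) (hx : 0 ≤ x) (hy : 0 ≤ y)
    (hZ : 0 ≤ Z) (h1 : p * y ≤ Z) (h2 : x * r ≤ Z) : -Z ≤ (p - x) * (r - y) := by
  rcases le_total x p with hxp | hxp <;> rcases le_total y r with hyr | hyr
  · nlinarith [mul_nonneg (sub_nonneg.2 hxp) (sub_nonneg.2 hyr)]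
  · nlinarith [mul_nonneg hx (sub_nonneg.2 hyr), mul_nonneg hp hr]
  · nlinarith [mul_nonneg (sub_nonneg.2 hxp) hy, mul_nonneg hp hr]
  · nlinarith [mul_nonneg (sub_nonneg.2 hxp) (sub_nonneg.2 hyr)]

lemma anti {f : ℕ → ℝ} (h : ∀ i, f (i + 1) ≤ f i) {i j : ℕ} (hij : i ≤ j) : f j ≤ f i := by
  induction hij with
  | refl => exact le_rfl
  | step _ ih => exact (h _).trans ih

lemma mu_sum {l : ℝ} {ν μ : ℕ → ℝ} (hl : 4 ≤ l) (hμ : ∀ j, 0 ≤ μ j) (hν : ∀ d, 0 ≤ ν d)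
    (hrec : ∀ d, ν (d + 1) = μ d + μ (d + 2)) (h1 : ∀ d, 2 * l * ν (d + 2) ≤ 3 * ν d)
    (h2 : ∀ d, 2 * l * μ (d + 2) ≤ 3 * μ d) (b : ℕ) :
    ∑ j ∈ range b, μ (j + 2) ≤ 64 / 55 * (ν 2 + ν 3) := by
  have hstep : ∀ d, 8 * μ (d + 2) ≤ 3 * μ d := fun d => by
    nlinarith [h2 d, hμ (d + 2), mul_nonneg (sub_nonneg.2 hl) (hμ (d + 2))]
  have hν4 : ν 4 ≤ ν 2 := by
    nlinarith [h1 2, hν 4, hν 2, mul_nonneg (sub_nonneg.2 hl) (hν 4)]
  have h3 : ν 3 = μ 2 + μ 4 := hrec 2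
  have h4 : ν 4 = μ 3 + μ 5 := hrec 3
  have hA : ∑ j ∈ range b, μ (j + 2) ≤ ∑ j ∈ range (b + 4), μ (j + 2) :=
    sum_le_sum_of_subset_of_nonneg (range_mono (by omega)) fun _ _ _ => hμ _
  have hB : ∑ j ∈ range (b + 4), μ (j + 2) =
      ∑ j ∈ range b, μ (j + 6) + (μ 2 + μ 3 + μ 4 + μ 5) := by
    rw [sum_range_succ', sum_range_succ', sum_range_succ', sum_range_succ']
    simp only [add_assoc]
    norm_num
    ring
  have hC : ∑ j ∈ range b, μ (j + 6) ≤ ∑ j ∈ range b, 9 / 64 * μ (j + 2) :=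
    sum_le_sum fun j _ => by
      have e1 := hstep (j + 4)
      have e2 := hstep (j + 2)
      simp only [add_assoc] at e1 e2
      norm_num at e1 e2
      linarith
  rw [← mul_sum] at hC
  linarith

end BF19

theorem bf : StBF := by
  intro l b φ' γ' ν μ K p r Z hl hp hr hφ hγ hφa hγa hp1 hr1 hZ1 hZ2 hK hKμ hν hrec h1 h2
  have hμ : ∀ j, 0 ≤ μ j := fun j => (hK j).trans (hKμ j)
  have hZ : 0 ≤ Z := (mul_nonneg hp (hγ 2)).trans hZ1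
  rcases b with _ | b
  · have : 0 ≤ 64 / 55 * (ν 2 + ν 3) * Z :=
      mul_nonneg (mul_nonneg (by norm_num) (add_nonneg (hν 2) (hν 3))) hZ
    simpa using this
  rw [sum_range_succ']
  have h0 : 0 ≤ K (0 + 1) * ((p - φ' (0 + 1)) * (r - γ' (0 + 1))) :=
    mul_nonneg (hK _) (mul_nonneg_of_nonpos_of_nonpos (sub_nonpos.2 hp1) (sub_nonpos.2 hr1))
  have hS : ∑ j ∈ range b, -(μ (j + 2) * Z) ≤
      ∑ j ∈ range b, K (j + 1 + 1) * ((p - φ' (j + 1 + 1)) * (r - γ' (j + 1 + 1))) := by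
    refine sum_le_sum fun j _ => ?_
    have hx : φ' (j + 1 + 1) ≤ φ' 2 := BF19.anti hφa (by omega)
    have hy : γ' (j + 1 + 1) ≤ γ' 2 := BF19.anti hγa (by omega)
    have hpr := BF19.prod_ge hp hr (hφ (j + 1 + 1)) (hγ (j + 1 + 1)) hZ
      ((mul_le_mul_of_nonneg_left hy hp).trans hZ1) ((mul_le_mul_of_nonneg_right hx hr).trans hZ2)
    have e1 : K (j + 1 + 1) * (-Z) ≤
        K (j + 1 + 1) * ((p - φ' (j + 1 + 1)) * (r - γ' (j + 1 + 1))) :=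
      mul_le_mul_of_nonneg_left hpr (hK _)
    have e2 : K (j + 1 + 1) * Z ≤ μ (j + 2) * Z := mul_le_mul_of_nonneg_right (hKμ (j + 2)) hZ
    linarith
  have hM := mul_le_mul_of_nonneg_right (BF19.mu_sum hl hμ hν hrec h1 h2 b) hZ
  rw [sum_mul] at hM
  rw [sum_neg_distrib] at hS
  linarith

end SP24
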