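import Pool.Agent.Lib.MP_4e7250_co.SP.StmtB24

/-! Spiders (MP_4e7250_co): module BN. -/

namespace SP24

open Finset

namespace BN98

/-- geometric bound for a sum -/
lemma geo {x : ℕ → ℝ} {r : ℝ} (hr : r ≤ 3 / 8) (h0 : ∀ t, 0 ≤ x t) (h1 : ∀ t, x (t + 2) ≤ r * x t)
    (n : ℕ) : ∑ t ∈ range n, x t ≤ 8 / 5 * (x 0 + x 1) := by
  have e1 : ∑ t ∈ range n, x t ≤ ∑ t ∈ range (n + 2), x t := by
    rw [Finset.sum_range_succ, Finset.sum_range_succ]
    linarith [h0 n, h0 (n + 1)]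
  have e2 : ∑ t ∈ range (n + 2), x t = ∑ t ∈ range n, x (t + 2) + x 1 + x 0 := by
    rw [Finset.sum_range_succ', Finset.sum_range_succ']
  have e3 : ∑ t ∈ range n, x (t + 2) ≤ ∑ t ∈ range n, r * x t :=
    Finset.sum_le_sum (fun t _ => h1 t)
  rw [← Finset.mul_sum] at e3
  have e4 : 0 ≤ ∑ t ∈ range n, x t := Finset.sum_nonneg (fun t _ => h0 t)
  nlinarith [mul_le_mul_of_nonneg_right hr e4]

lemma geo1 {x : ℕ → ℝ} {r : ℝ} (hr : r ≤ 3 / 8) (h0 : ∀ t, 0 ≤ x t) (h1 : ∀ t, x (t + 1) ≤ r * x t)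
    (n : ℕ) : ∑ t ∈ range n, x t ≤ 8 / 5 * x 0 := by
  have e1 : ∑ t ∈ range n, x t ≤ ∑ t ∈ range (n + 1), x t := by
    rw [Finset.sum_range_succ]
    linarith [h0 n]
  have e2 : ∑ t ∈ range (n + 1), x t = ∑ t ∈ range n, x (t + 1) + x 0 := by
    rw [Finset.sum_range_succ']
  have e3 : ∑ t ∈ range n, x (t + 1) ≤ ∑ t ∈ range n, r * x t :=
    Finset.sum_le_sum (fun t _ => h1 t)
  rw [← Finset.mul_sum] at e3
  have e4 : 0 ≤ ∑ t ∈ range n, x t := Finset.sum_nonneg (fun t _ => h0 t)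
  nlinarith [mul_le_mul_of_nonneg_right hr e4]

lemma anti {x : ℕ → ℝ} (h : ∀ i, x (i + 1) ≤ x i) {i j : ℕ} (hij : i ≤ j) : x j ≤ x i :=
  antitone_nat_of_succ_le h hij

/-- a product of two differences of nonnegative numbers -/
lemma prod_lower {p q r s C : ℝ} (hp : 0 ≤ p) (hq : 0 ≤ q) (hr : 0 ≤ r) (hs : 0 ≤ s)
    (h1 : p * s ≤ C) (h2 : q * r ≤ C) : -C ≤ (p - q) * (r - s) := by
  rcases le_total p q with h | h
  · -- q r - p r ≤ q r
    have e1 : 0 ≤ (q - p) * s := mul_nonneg (by linarith) hs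
    have e2 : 0 ≤ p * r := mul_nonneg hp hr
    nlinarith
  · have e1 : 0 ≤ (p - q) * r := mul_nonneg (by linarith) hr
    have e2 : 0 ≤ q * s := mul_nonneg hq hs
    nlinarith

end BN98

open BN98 in
theorem bn : StBN := by
  intro l a b φ φ' γ γ' ν K μ hl ha hb hφ0 hγ0 hφ hφ' hγ hγ' hfe hge hν h2 h2' h3 h3' hK0 hKν h12
    hμ hdec
  obtain ⟨n, rfl⟩ : ∃ n, a = n + 2 := ⟨a - 2, by omega⟩
  obtain ⟨m, rfl⟩ : ∃ m, b = m + 2 := ⟨b - 2, by omega⟩
  have l0 : (0 : ℝ) < l := by linarith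
  -- nonnegativity
  have hφ'0 : ∀ i, 0 ≤ φ' i := fun i => (hφ0 i).trans (hfe i)
  have hγ'0 : ∀ i, 0 ≤ γ' i := fun i => (hγ0 i).trans (hge i)
  -- the constants
  set κ : ℝ := 3 / (2 * l) with hκ
  have κ0 : 0 ≤ κ := by positivity
  have κ38 : κ ≤ 3 / 8 := by
    rw [hκ, div_le_div_iff₀ (by positivity) (by norm_num)]
    linarith
  have hd : ∀ d, ν (d + 2) ≤ κ * ν d := by
    intro d
    have := hdec d
    rw [hκ, div_mul_eq_mul_div, le_div_iff₀ (by positivity)]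
    linarith
  set G : ℝ := φ' 0 * γ' 0 with hG
  have G0 : 0 ≤ G := mul_nonneg (hφ'0 0) (hγ'0 0)
  have f2 : φ' 2 ≤ 2 / l * φ' 0 := by
    rw [div_mul_eq_mul_div, le_div_iff₀ l0]
    linarith
  have g2 : γ' 2 ≤ 4 / l ^ 2 * γ' 0 := by
    rw [div_mul_eq_mul_div, le_div_iff₀ (by positivity)]
    linarith
  set c : ℝ := 8 / l ^ 3 * G with hc
  have c0 : 0 ≤ c := by positivity
  -- the terms
  set T : ℕ → ℕ → ℝ := fun i j => K i j * ((φ i - φ' j) * (γ i - γ' j)) with hT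
  have T1 : ∀ i j, j ≤ i → 0 ≤ T i j := by
    intro i j hij
    have e1 : φ i ≤ φ' j := (anti hφ hij).trans (hfe j)
    have e2 : γ i ≤ γ' j := (anti hγ hij).trans (hge j)
    exact mul_nonneg (hK0 i j) (mul_nonneg_of_nonpos_of_nonpos (by linarith) (by linarith))
  have T2 : ∀ j, 0 ≤ T 1 (j + 3) := by
    intro j
    have e1 : φ' (j + 3) ≤ φ 1 := (anti hφ' (by omega)).trans h3
    have e2 : γ' (j + 3) ≤ γ 1 := (anti hγ' (by omega)).trans h3'
    exact mul_nonneg (hK0 1 (j + 3)) (mul_nonneg (by linarith) (by linarith))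
  have T3 : ∀ i j, 2 ≤ i → i ≤ j → -(c * ν (i + j)) ≤ T i j := by
    intro i j hi hij
    have b1 : φ i ≤ φ' 2 := (anti hφ hi).trans (hfe 2)
    have b2 : γ i ≤ γ' 2 := (anti hγ hi).trans (hge 2)
    have b3 : φ' j ≤ φ' 2 := anti hφ' (by omega)
    have b4 : γ' j ≤ γ' 2 := anti hγ' (by omega)
    have key : φ' 2 * γ' 2 ≤ c := by
      calc φ' 2 * γ' 2 ≤ (2 / l * φ' 0) * (4 / l ^ 2 * γ' 0) :=
            mul_le_mul f2 g2 (hγ'0 2) (mul_nonneg (by positivity) (hφ'0 0))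
        _ = c := by rw [hc, hG]; field_simp; ring
    have e1 : φ i * γ' j ≤ c :=
      (mul_le_mul b1 b4 (hγ'0 j) (hφ'0 2)).trans key
    have e2 : φ' j * γ i ≤ c :=
      (mul_le_mul b3 b2 (hγ0 i) (hφ'0 2)).trans key
    have e3 := prod_lower (hφ0 i) (hφ'0 j) (hγ0 i) (hγ'0 j) e1 e2
    have e4 : K i j * (-c) ≤ T i j := mul_le_mul_of_nonneg_left e3 (hK0 i j)
    have e5 : K i j * c ≤ ν (i + j) * c := mul_le_mul_of_nonneg_right (hKν i j) c0
    linarith
  -- the pair (1,2), (2,1)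
  have T4 : -(3 / l ^ 2 * ν 3 * G) ≤ T 1 2 + T 2 1 := by
    set P : ℝ := (φ 1 - φ' 2) * (γ 1 - γ' 2) with hP
    set Q : ℝ := (φ 2 - φ' 1) * (γ 2 - γ' 1) with hQ
    have hsum : 0 ≤ P + Q := by
      -- cross inequality
      have x1 := hφ 1
      have x2 := hγ 1
      have x3 := hφ' 1
      have x4 := hγ' 1
      have y1 := hfe 1
      have y2 := hfe 2
      have z1 := hge 1
      have z2 := hge 2
      have e1 : 0 ≤ ((φ 1 + φ' 1) - (φ 2 + φ' 2)) * ((γ 1 + γ' 1) - (γ 2 + γ' 2)) :=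
        mul_nonneg (by linarith) (by linarith)
      have e2 : 0 ≤ ((φ' 1 - φ 1) + (φ' 2 - φ 2)) * ((γ' 1 - γ 1) + (γ' 2 - γ 2)) :=
        mul_nonneg (by linarith) (by linarith)
      rw [hP, hQ]
      nlinarith
    have Q0 : 0 ≤ Q := by
      have x1 := hφ 1
      have x2 := hγ 1
      exact mul_nonneg_of_nonpos_of_nonpos (by linarith [hfe 1]) (by linarith [hge 1])
    have hPl : -(2 / l * G) ≤ P := by
      apply prod_lower (hφ0 1) (hφ'0 2) (hγ0 1) (hγ'0 2)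
      · have e1 : φ 1 ≤ φ' 0 := (hfe 1).trans (hφ' 0)
        calc φ 1 * γ' 2 ≤ φ' 0 * (4 / l ^ 2 * γ' 0) :=
              mul_le_mul e1 g2 (hγ'0 2) (hφ'0 0)
          _ = 4 / l ^ 2 * G := by rw [hG]; ring
          _ ≤ 2 / l * G := by
              apply mul_le_mul_of_nonneg_right _ G0
              rw [div_le_div_iff₀ (by positivity) l0]
              nlinarith
      · have e1 : γ 1 ≤ γ' 0 := (hge 1).trans (hγ' 0)
        calc φ' 2 * γ 1 ≤ (2 / l * φ' 0) * γ' 0 :=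
              mul_le_mul f2 e1 (hγ0 1) (mul_nonneg (by positivity) (hφ'0 0))
          _ = 2 / l * G := by rw [hG]; ring
    have hT12 : T 1 2 = K 1 2 * P := rfl
    have hT21 : T 2 1 = K 2 1 * Q := rfl
    have hμκ : μ ≤ κ * ν 3 := by
      rw [hκ, div_mul_eq_mul_div, le_div_iff₀ (by positivity)]
      linarith
    have hfin : κ * (2 / l) = 3 / l ^ 2 := by
      rw [hκ]; field_simp
    have hpos : 0 ≤ 3 / l ^ 2 * ν 3 * G := by
      have := hν 3
      positivity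
    rcases le_total 0 P with h | h
    · have e1 : 0 ≤ K 1 2 * P := mul_nonneg (hK0 1 2) h
      have e2 : 0 ≤ K 2 1 * Q := mul_nonneg (hK0 2 1) Q0
      rw [hT12, hT21]
      linarith
    · have e1 : (K 2 1 + μ) * P ≤ K 1 2 * P := mul_le_mul_of_nonpos_right h12 h
      have e2 : 0 ≤ K 2 1 * (P + Q) := mul_nonneg (hK0 2 1) hsum
      have e3 : κ * ν 3 * P ≤ μ * P := mul_le_mul_of_nonpos_right hμκ h
      have e4 : κ * ν 3 * (-(2 / l * G)) ≤ κ * ν 3 * P :=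
        mul_le_mul_of_nonneg_left hPl (mul_nonneg κ0 (hν 3))
      have e5 : κ * ν 3 * (-(2 / l * G)) = -(3 / l ^ 2 * ν 3 * G) := by
        rw [← hfin]; ring
      rw [hT12, hT21]
      nlinarith
  -- the rows
  have row : ∀ i, 2 ≤ i → ∀ B, -(c * ∑ t ∈ range (B - i), ν (2 * i + 1 + t)) ≤
      ∑ j ∈ range B, T i (j + 1) := by
    intro i hi B
    induction B with
    | zero => simp
    | succ B ih =>
      rw [Finset.sum_range_succ]
      rcases Nat.lt_or_ge B i with h | h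
      · have e1 : B + 1 - i = 0 := by omega
        have e2 : B - i = 0 := by omega
        rw [e1]
        rw [e2] at ih
        have := T1 i (B + 1) (by omega)
        linarith
      · have e1 : B + 1 - i = (B - i) + 1 := by omega
        rw [e1, Finset.sum_range_succ]
        have e2 : 2 * i + 1 + (B - i) = i + (B + 1) := by omega
        rw [e2]
        have := T3 i (B + 1) hi (by omega)
        linarith
  have gν : ∀ d N, ∑ t ∈ range N, ν (d + t) ≤ 8 / 5 * (ν d + ν (d + 1)) := by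
    intro d N
    have := geo (x := fun t => ν (d + t)) κ38 (fun t => hν _) (fun t => by
      have := hd (d + t)
      simpa [add_assoc] using this) N
    simpa using this
  have row' : ∀ s, -(c * (8 / 5 * (ν (2 * s + 7) + ν (2 * s + 8)))) ≤
      ∑ j ∈ range (m + 2), T (s + 2 + 1) (j + 1) := by
    intro s
    have e1 := row (s + 2 + 1) (by omega) (m + 2)
    have e2 := gν (2 * (s + 2 + 1) + 1) (m + 2 - (s + 2 + 1))
    have e3 : 2 * (s + 2 + 1) + 1 = 2 * s + 7 := by ring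
    rw [e3] at e1 e2
    have e4 := mul_le_mul_of_nonneg_left e2 c0
    have e5 : 2 * s + 7 + 1 = 2 * s + 8 := by ring
    rw [e5] at e4
    linarith
  -- row one
  have r1 : T 1 2 ≤ ∑ j ∈ range (m + 2), T (0 + 1) (j + 1) := by
    rw [Finset.sum_range_succ', Finset.sum_range_succ']
    have e1 : 0 ≤ ∑ k ∈ range m, T (0 + 1) (k + 1 + 1 + 1) :=
      Finset.sum_nonneg (fun k _ => T2 k)
    have e2 := T1 1 1 le_rfl
    have e3 : T (0 + 1) (0 + 1) = T 1 1 := rfl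
    have e4 : T (0 + 1) (0 + 1 + 1) = T 1 2 := rfl
    linarith
  -- row two
  have r2 : T 2 1 - c * (8 / 5 * (ν 5 + ν 6)) ≤ ∑ j ∈ range (m + 2), T (0 + 1 + 1) (j + 1) := by
    rw [Finset.sum_range_succ', Finset.sum_range_succ']
    have e1 : ∑ k ∈ range m, -(c * ν (5 + k)) ≤ ∑ k ∈ range m, T (0 + 1 + 1) (k + 1 + 1 + 1) := by
      apply Finset.sum_le_sum
      intro k _
      have := T3 2 (k + 3) le_rfl (by omega)
      rw [show 2 + (k + 3) = 5 + k by ring] at this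
      exact this
    rw [Finset.sum_neg_distrib, ← Finset.mul_sum] at e1
    have e2 := T1 2 2 le_rfl
    have e3 : T (0 + 1 + 1) (0 + 1) = T 2 1 := rfl
    have e4 : T (0 + 1 + 1) (0 + 1 + 1) = T 2 2 := rfl
    have e5 := mul_le_mul_of_nonneg_left (gν 5 m) c0
    norm_num at e5
    linarith
  -- the sum of the rows
  have e1 : ∑ s ∈ range n, -(c * (8 / 5 * (ν (2 * s + 7) + ν (2 * s + 8)))) ≤
      ∑ s ∈ range n, ∑ j ∈ range (m + 2), T (s + 2 + 1) (j + 1) :=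
    Finset.sum_le_sum (fun s _ => row' s)
  have e2 : ∑ s ∈ range (n + 1), (ν (2 * s + 5) + ν (2 * s + 6)) ≤ 8 / 5 * (ν 5 + ν 6) := by
    have := geo1 (x := fun s => ν (2 * s + 5) + ν (2 * s + 6)) κ38
      (fun t => add_nonneg (hν _) (hν _)) (fun t => by
        have a1 := hd (2 * t + 5)
        have a2 := hd (2 * t + 6)
        have a3 : 2 * (t + 1) + 5 = 2 * t + 5 + 2 := by ring
        have a4 : 2 * (t + 1) + 6 = 2 * t + 6 + 2 := by ring
        simp only [a3, a4]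
        linarith) (n + 1)
    simpa using this
  rw [Finset.sum_range_succ'] at e2
  have e3 : ∑ s ∈ range n, -(c * (8 / 5 * (ν (2 * s + 7) + ν (2 * s + 8)))) =
      -(c * (8 / 5 * ∑ s ∈ range n, (ν (2 * (s + 1) + 5) + ν (2 * (s + 1) + 6)))) := by
    rw [Finset.sum_neg_distrib, ← Finset.mul_sum, ← Finset.mul_sum]
    rfl
  have e4 : ν 5 + ν 6 ≤ κ * (ν 2 + ν 3) := by
    have a1 := hd 3
    have a2 := hd 4
    have a3 := hd 2
    have a4 : κ * ν 4 ≤ κ * ν 2 := by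
      apply mul_le_mul_of_nonneg_left _ κ0
      nlinarith [hν 2]
    norm_num at a1 a2 a3
    linarith
  have e5 : c * (8 / 5 * (8 / 5 * (κ * (ν 2 + ν 3)))) =
      768 / (25 * l ^ 4) * (ν 2 + ν 3) * G := by
    rw [hc, hκ]
    field_simp
    ring
  have e6 : 3 / l ^ 2 * ν 3 * G ≤ 3 / l ^ 2 * (ν 2 + ν 3) * G := by
    have := hν 2
    apply mul_le_mul_of_nonneg_right _ G0
    apply mul_le_mul_of_nonneg_left _ (by positivity)
    linarith
  have e7 : ∑ i ∈ range (n + 2), ∑ j ∈ range (m + 2), T (i + 1) (j + 1) =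
      ∑ s ∈ range n, ∑ j ∈ range (m + 2), T (s + 2 + 1) (j + 1) +
      ∑ j ∈ range (m + 2), T (0 + 1 + 1) (j + 1) + ∑ j ∈ range (m + 2), T (0 + 1) (j + 1) := by
    rw [Finset.sum_range_succ', Finset.sum_range_succ']
  have e8 : ∑ i ∈ range (n + 2), ∑ j ∈ range (m + 2),
      K (i + 1) (j + 1) * ((φ (i + 1) - φ' (j + 1)) * (γ (i + 1) - γ' (j + 1))) =
      ∑ i ∈ range (n + 2), ∑ j ∈ range (m + 2), T (i + 1) (j + 1) := rfl
  rw [e8, e7]
  have e9 : c * (8 / 5 * (∑ s ∈ range n, (ν (2 * (s + 1) + 5) + ν (2 * (s + 1) + 6)) +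
      (ν (2 * 0 + 5) + ν (2 * 0 + 6)))) ≤ c * (8 / 5 * (8 / 5 * (κ * (ν 2 + ν 3)))) := by
    apply mul_le_mul_of_nonneg_left _ c0
    linarith
  have e10 : (3 / l ^ 2 + 768 / (25 * l ^ 4)) * (ν 2 + ν 3) * G =
      3 / l ^ 2 * (ν 2 + ν 3) * G + 768 / (25 * l ^ 4) * (ν 2 + ν 3) * G := by ring
  rw [e10, ← e5]
  rw [e3] at e1
  norm_num at e9 ⊢
  linarith

end SP24
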