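import Mathlib

/-! Spiders (MP_4e7250_co): definitions for the comparison hom(P_n, T) <= hom(T, T). -/

namespace SP24

open Finset

/-- The vertices of the spider with legs `len`: the centre `none`, and on the leg `P` the vertices
`some ⟨P, i⟩` at distance `i + 1` from the centre. -/
abbrev Vert {ι : Type} (len : ι → ℕ) : Type := Option (Σ P : ι, Fin (len P))

/-- Edges directed away from the centre. -/
def spRel {ι : Type} (len : ι → ℕ) : Vert len → Vert len → Prop
  | none, some ⟨_, j⟩ => j.val = 0
  | some ⟨P, i⟩, some ⟨Q, j⟩ => P = Q ∧ j.val = i.val + 1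
  | _, none => False

/-- The spider with legs `len`: paths with `len P` edges glued at the centre. -/
def spider {ι : Type} (len : ι → ℕ) : SimpleGraph (Vert len) := SimpleGraph.fromRel (spRel len)

open Classical in
/-- The adjacency operator. -/
noncomputable def Ad {V : Type} [Fintype V] (G : SimpleGraph V) (f : V → ℤ) (x : V) : ℤ :=
  ∑ y, if G.Adj x y then f y else 0

/-- The iterates of the adjacency operator. -/
noncomputable def It {V : Type} [Fintype V] (G : SimpleGraph V) (f : V → ℤ) : ℕ → V → ℤ
  | 0 => f
  | k + 1 => Ad G (It G f k)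

/-- The number of walks with `k` steps from `x`. -/
noncomputable def W {V : Type} [Fintype V] (G : SimpleGraph V) (k : ℕ) (x : V) : ℤ :=
  It G (fun _ => 1) k x

open Classical in
/-- The number of walks with `k` steps from `x` to `y`. -/
noncomputable def N {V : Type} [Fintype V] (G : SimpleGraph V) (k : ℕ) (x y : V) : ℤ :=
  It G (fun z => if z = y then 1 else 0) k x

/-- Coordinates: the value of `f` at distance `i` from the centre on the leg `P`, zero beyond
the end of the leg. -/
def co {ι : Type} {len : ι → ℕ} (f : Vert len → ℤ) (P : ι) : ℕ → ℤ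
  | 0 => f none
  | i + 1 => if h : i < len P then f (some ⟨P, ⟨i, h⟩⟩) else 0

/-- `F k` is a function on the spider in coordinates, and `F (k + 1)` is the adjacency operator
applied to `F k`. -/
structure Fam {ι : Type} [Fintype ι] (len : ι → ℕ) (F : ℕ → ι → ℕ → ℤ) : Prop where
  ctr : ∀ k P Q, F k P 0 = F k Q 0
  out : ∀ k P i, len P < i → F k P i = 0
  zero : ∀ k P, F (k + 1) P 0 = ∑ Q, F k Q 1
  step : ∀ k P i, i + 1 ≤ len P → F (k + 1) P (i + 1) = F k P i + F k P (i + 2)

/-- The family of the numbers of walks. -/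
structure WFam {ι : Type} [Fintype ι] (len : ι → ℕ) (F : ℕ → ι → ℕ → ℤ) : Prop
    extends Fam len F where
  ini : ∀ P i, i ≤ len P → F 0 P i = 1

/-- The family of the numbers of walks that end on the leg `A` or in the centre. -/
structure MFam {ι : Type} [Fintype ι] (len : ι → ℕ) (A : ι) (U : ℕ → ι → ℕ → ℤ) : Prop
    extends Fam len U where
  ini0 : ∀ P, U 0 P 0 = 1
  iniA : ∀ i, i ≤ len A → U 0 A i = 1
  iniP : ∀ P i, P ≠ A → U 0 P (i + 1) = 0

/-- Longer legs have larger values. -/
def HE {ι : Type} {len : ι → ℕ} (f : Vert len → ℤ) : Prop :=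
  ∀ P Q i, len P ≤ len Q → co f P i ≤ co f Q i

/-- Monotonicity towards the centre in steps of `d`. -/
def HM {ι : Type} {len : ι → ℕ} (d : ℕ) (f : Vert len → ℤ) : Prop :=
  ∀ P i, co f P (i + d) ≤ co f P i

end SP24
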