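import Pool.Agent.Lib.MP_4e7250_co.SP.Stmts24

/-! Spiders (MP_4e7250_co): coordinates (CO) and parity (PA). -/

namespace SP24

open Finset

section

variable {ι : Type} {len : ι → ℕ}

theorem adj_nn24 : ¬ (spider len).Adj none none := (spider len).loopless.irrefl none

theorem adj_ns24 (Q : ι) (j : Fin (len Q)) :
    (spider len).Adj none (some ⟨Q, j⟩) ↔ j.val = 0 := by
  unfold spider
  rw [SimpleGraph.fromRel_adj]
  constructor
  · rintro ⟨-, h | h⟩
    · exact h
    · exact h.elim
  · intro h
    exact ⟨by simp, Or.inl h⟩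

theorem adj_sn24 (Q : ι) (j : Fin (len Q)) :
    (spider len).Adj (some ⟨Q, j⟩) none ↔ j.val = 0 := by
  rw [SimpleGraph.adj_comm, adj_ns24]

theorem adj_ss24 (P Q : ι) (i : Fin (len P)) (j : Fin (len Q)) :
    (spider len).Adj (some ⟨P, i⟩) (some ⟨Q, j⟩) ↔
      P = Q ∧ (j.val = i.val + 1 ∨ i.val = j.val + 1) := by
  unfold spider
  rw [SimpleGraph.fromRel_adj]
  constructor
  · rintro ⟨-, h | h⟩
    · exact ⟨h.1, Or.inl h.2⟩
    · exact ⟨h.1.symm, Or.inr h.2⟩
  · rintro ⟨rfl, h⟩
    refine ⟨?_, ?_⟩
    · intro e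
      simp only [Option.some.injEq, Sigma.mk.injEq, heq_eq_eq, true_and] at e
      subst e
      omega
    · rcases h with h | h
      · exact Or.inl ⟨rfl, h⟩
      · exact Or.inr ⟨rfl, h⟩

theorem co_succ24 (g : Vert len → ℤ) (P : ι) (m : ℕ) :
    co g P (m + 1) = if h : m < len P then g (some ⟨P, ⟨m, h⟩⟩) else 0 := rfl

theorem sum_pt24 (g : Vert len → ℤ) (P : ι) (m : ℕ) :
    ∑ j : Fin (len P), (if j.val = m then g (some ⟨P, j⟩) else 0) = co g P (m + 1) := by
  rw [co_succ24]
  by_cases h : m < len P
  · rw [dif_pos h, Finset.sum_eq_single (⟨m, h⟩ : Fin (len P))]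
    · simp
    · intro b _ hb
      rw [if_neg]
      intro e
      exact hb (Fin.ext e)
    · intro h'
      exact absurd (Finset.mem_univ _) h'
  · rw [dif_neg h]
    refine Finset.sum_eq_zero (fun j _ => ?_)
    rw [if_neg]
    have := j.isLt
    omega

variable [Fintype ι]

theorem ad_none24 (g : Vert len → ℤ) : Ad (spider len) g none = ∑ Q, co g Q 1 := by
  classical
  unfold Ad
  rw [Fintype.sum_option, Fintype.sum_sigma, if_neg adj_nn24, zero_add]
  refine Finset.sum_congr rfl (fun Q _ => ?_)
  rw [← sum_pt24 g Q 0]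
  refine Finset.sum_congr rfl (fun j _ => ?_)
  exact if_congr (adj_ns24 Q j) rfl rfl

theorem ad_some24 (g : Vert len → ℤ) (P : ι) (i : Fin (len P)) :
    Ad (spider len) g (some ⟨P, i⟩) = co g P i.val + co g P (i.val + 2) := by
  classical
  unfold Ad
  rw [Fintype.sum_option, Fintype.sum_sigma]
  have h1 : ∀ Q : ι, Q ≠ P →
      (∑ j : Fin (len Q), if (spider len).Adj (some ⟨P, i⟩) (some ⟨Q, j⟩) then g (some ⟨Q, j⟩) else 0)
        = 0 := by
    intro Q hQ
    refine Finset.sum_eq_zero (fun j _ => ?_)
    rw [if_neg]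
    rw [adj_ss24]
    rintro ⟨e, -⟩
    exact hQ e.symm
  rw [Finset.sum_eq_single P (fun Q _ hQ => h1 Q hQ) (fun h => absurd (Finset.mem_univ P) h)]
  have h2 : ∀ j : Fin (len P),
      (if (spider len).Adj (some ⟨P, i⟩) (some ⟨P, j⟩) then g (some ⟨P, j⟩) else 0) =
      (if j.val = i.val + 1 then g (some ⟨P, j⟩) else 0) +
      (if i.val = j.val + 1 then g (some ⟨P, j⟩) else 0) := by
    intro j
    by_cases ha : j.val = i.val + 1
    · have hb : ¬ i.val = j.val + 1 := by omega
      rw [if_pos ha, if_neg hb, if_pos ((adj_ss24 P P i j).2 ⟨rfl, Or.inl ha⟩), add_zero]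
    · by_cases hb : i.val = j.val + 1
      · rw [if_neg ha, if_pos hb, if_pos ((adj_ss24 P P i j).2 ⟨rfl, Or.inr hb⟩), zero_add]
      · rw [if_neg ha, if_neg hb, if_neg, add_zero]
        rw [adj_ss24]
        rintro ⟨-, h | h⟩
        · exact ha h
        · exact hb h
  rw [Finset.sum_congr rfl (fun j _ => h2 j), Finset.sum_add_distrib, sum_pt24 g P (i.val + 1)]
  have h3 : (if (spider len).Adj (some ⟨P, i⟩) none then g none else 0) =
      (if i.val = 0 then g none else 0) := if_congr (adj_sn24 P i) rfl rfl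
  rw [h3]
  obtain ⟨i, hi⟩ := i
  rcases i with _ | i
  · have h4 : ∑ j : Fin (len P), (if 0 = j.val + 1 then g (some ⟨P, j⟩) else 0) = 0 :=
      Finset.sum_eq_zero (fun j _ => by rw [if_neg (by omega)])
    simp only [if_true]
    rw [h4, add_zero]
    rfl
  · have h4 : ∑ j : Fin (len P), (if i + 1 = j.val + 1 then g (some ⟨P, j⟩) else 0) =
        co g P (i + 1) := by
      rw [← sum_pt24 g P i]
      refine Finset.sum_congr rfl (fun j _ => ?_)
      refine if_congr ?_ rfl rfl
      omega
    simp only
    rw [h4, if_neg (by omega), zero_add, add_comm]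

end

theorem co_fam : StCO := by
  intro ι _ _ len hlen f
  refine ⟨fun k P Q => rfl, ?_, ?_, ?_⟩
  · intro k P i hi
    rcases i with _ | i
    · omega
    · show co (It (spider len) f k) P (i + 1) = 0
      rw [co_succ24, dif_neg (by omega)]
  · intro k P
    exact ad_none24 (It (spider len) f k)
  · intro k P i hi
    have h := ad_some24 (It (spider len) f k) P ⟨i, hi⟩
    have h2 : co (It (spider len) f (k + 1)) P (i + 1) =
        It (spider len) f (k + 1) (some ⟨P, ⟨i, hi⟩⟩) := by
      show (if h : i < len P then It (spider len) f (k + 1) (some ⟨P, ⟨i, h⟩⟩) else 0) = _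
      rw [dif_pos (show i < len P from hi)]
    show co (It (spider len) f (k + 1)) P (i + 1) = _
    rw [h2]
    exact h

/-- Adjacent vertices have distances to the centre of different parity. -/
theorem adj_dst24 {ι : Type} {len : ι → ℕ} (x y : Vert len) (h : (spider len).Adj x y) :
    (dst x + dst y) % 2 = 1 := by
  rcases x with _ | ⟨P, i⟩
  · rcases y with _ | ⟨Q, j⟩
    · exact absurd h adj_nn24
    · have := (adj_ns24 Q j).1 h
      simp only [dst]
      omega
  · rcases y with _ | ⟨Q, j⟩
    · have := (adj_sn24 P i).1 h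
      simp only [dst]
      omega
    · have := ((adj_ss24 P Q i j).1 h).2
      simp only [dst]
      omega

theorem pa : StPA := by
  intro ι _ _ len q x y h
  classical
  have key : ∀ q : ℕ, ∀ x : Vert len, (q + dst x + dst y) % 2 = 1 →
      It (spider len) (fun z => if z = y then (1 : ℤ) else 0) q x = 0 := by
    intro q
    induction q with
    | zero =>
      intro x h
      show (if x = y then (1 : ℤ) else 0) = 0
      rw [if_neg]
      rintro rfl
      omega
    | succ q ih =>
      intro x h
      show Ad (spider len) (It (spider len) (fun z => if z = y then (1 : ℤ) else 0) q) x = 0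
      unfold Ad
      refine Finset.sum_eq_zero (fun z _ => ?_)
      by_cases hz : (spider len).Adj x z
      · rw [if_pos hz]
        have := adj_dst24 x z hz
        exact ih z (by omega)
      · rw [if_neg hz]
  have := key q x h
  unfold N
  convert this

end SP24
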