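import Pool.Agent.Lib.MP_4e7250_co.SP.Stmts24

/-! Spiders (MP_4e7250_co), second part: all spiders. The statements of the modules. -/

namespace SP24

open Finset

/-- The family of the numbers of walks that start in the centre. -/
structure CFam {ι : Type} [Fintype ι] (len : ι → ℕ) (C : ℕ → ι → ℕ → ℤ) : Prop
    extends Fam len C where
  ini0 : ∀ P, C 0 P 0 = 1
  iniP : ∀ P i, C 0 P (i + 1) = 0

/-! ### Numbers of walks -/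

/-- (YY) the values at distance two from the centre. -/
def StYY : Prop := ∀ (ι : Type) [Fintype ι] [DecidableEq ι] (len : ι → ℕ)
    (F : ℕ → ι → ℕ → ℤ) (A : ι), (∀ P, 1 ≤ len P ∧ len P ≤ len A) → 4 ≤ Fintype.card ι →
  3 ≤ (univ.filter (fun P => 3 ≤ len P)).card → WFam len F →
  (∀ k, k = 1 ∨ 3 ≤ k → (Fintype.card ι : ℤ) * F k A 2 ≤ 2 * F k A 0) ∧
  ∀ k P Q, 1 ≤ k → 2 ≤ len P → F k Q 3 ≤ F k P 1

/-- (KC) walks from the centre. -/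
def StKC : Prop := ∀ (ι : Type) [Fintype ι] [DecidableEq ι] (len : ι → ℕ)
    (C : ℕ → ι → ℕ → ℤ) (A : ι) (q : ℕ), (∀ P, 1 ≤ len P ∧ len P ≤ len A) →
  4 ≤ Fintype.card ι → 3 ≤ (univ.filter (fun P => q ≤ len P)).card → CFam len C →
  (∀ k P i, 0 ≤ C k P i) ∧ (∀ k P i, C k P i ≤ C k A i) ∧
  (∀ k P, k ≤ q → q ≤ len P → ∀ i, C k P i = C k A i) ∧
  (∀ k i, k < i → C k A i = 0) ∧
  (∀ k i, k + 1 ≤ q → C (k + 1) A (i + 1) = C k A i + C k A (i + 2)) ∧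
  ∀ k i, k ≤ q → 2 * (Fintype.card ι : ℤ) * C k A (i + 2) ≤ 3 * C k A i

/-- The number of walks with `k` steps from the centre in coordinates. -/
noncomputable def cc {ι : Type} [Fintype ι] (len : ι → ℕ) (k : ℕ) (P : ι) (i : ℕ) : ℤ :=
  co (fun x : Vert len => N (spider len) k x none) P i

/-- The number of walks with `k` steps in coordinates. -/
noncomputable def kk {ι : Type} [Fintype ι] (len : ι → ℕ) (k : ℕ) (P : ι) (i : ℕ) (Q : ι)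
    (j : ℕ) : ℤ :=
  co (fun x : Vert len => co (fun y : Vert len => N (spider len) k x y) Q j) P i

/-- (KV) walks between two legs. -/
def StKV : Prop := ∀ (ι : Type) [Fintype ι] [DecidableEq ι] (len : ι → ℕ) (A : ι) (q : ℕ),
  (∀ P, 1 ≤ len P ∧ len P ≤ len A) → 4 ≤ Fintype.card ι → 1 ≤ q →
  3 ≤ (univ.filter (fun P => q ≤ len P)).card →
  CFam len (cc len) ∧
  (∀ P Q j, kk len q P 0 Q j = cc len q Q j) ∧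
  (∀ P Q i j, kk len q P i Q j = kk len q Q j P i) ∧
  (∀ P Q i j, 0 ≤ kk len q P i Q j) ∧
  (∀ P Q i j, P ≠ Q → kk len q P i Q j ≤ cc len q A (i + j)) ∧
  (∀ P Q i j, P ≠ Q → q ≤ len P → q ≤ len Q → kk len q P i Q j = cc len q A (i + j)) ∧
  (∀ P Q, P ≠ Q → 2 ≤ len P → 2 ≤ len Q →
    kk len q P 1 Q 2 ≤ kk len q P 2 Q 1 + cc len (q - 1) A 4) ∧
  ∀ P Q j, P ≠ Q → len P = 1 → kk len q P 1 Q j = cc len (q - 1) Q j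

/-! ### Blocks: sequences of real numbers -/

/-- (BB) two long legs. -/
def StBB : Prop := ∀ (q a b : ℕ) (φ φ' γ γ' ν : ℕ → ℝ), q ≤ a → q ≤ b →
  (∀ i, φ (i + 1) ≤ φ i) → (∀ i, φ' (i + 1) ≤ φ' i) → (∀ i, γ (i + 1) ≤ γ i) →
  (∀ i, γ' (i + 1) ≤ γ' i) → (∀ i, φ i ≤ φ' i) → (∀ i, γ i ≤ γ' i) → (∀ d, 0 ≤ ν d) →
  (∀ d, q < d → ν d = 0) →
  0 ≤ ∑ i ∈ range a, ∑ j ∈ range b,
    ν (i + j + 2) * ((φ (i + 1) - φ' (j + 1)) * (γ (i + 1) - γ' (j + 1)))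

/-- (BN) a short leg (`a`) with at least two edges and a longer leg (`b`). -/
def StBN : Prop := ∀ (l : ℝ) (a b : ℕ) (φ φ' γ γ' ν : ℕ → ℝ) (K : ℕ → ℕ → ℝ) (μ : ℝ),
  4 ≤ l → 2 ≤ a → 2 ≤ b →
  (∀ i, 0 ≤ φ i) → (∀ i, 0 ≤ γ i) →
  (∀ i, φ (i + 1) ≤ φ i) → (∀ i, φ' (i + 1) ≤ φ' i) → (∀ i, γ (i + 1) ≤ γ i) →
  (∀ i, γ' (i + 1) ≤ γ' i) → (∀ i, φ i ≤ φ' i) → (∀ i, γ i ≤ γ' i) → (∀ d, 0 ≤ ν d) →
  l * φ' 2 ≤ 2 * φ' 0 → l ^ 2 * γ' 2 ≤ 4 * γ' 0 → φ' 3 ≤ φ 1 → γ' 3 ≤ γ 1 →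
  (∀ i j, 0 ≤ K i j) → (∀ i j, K i j ≤ ν (i + j)) → K 1 2 ≤ K 2 1 + μ →
  2 * l * μ ≤ 3 * ν 3 → (∀ d, 2 * l * ν (d + 2) ≤ 3 * ν d) →
  -((3 / l ^ 2 + 768 / (25 * l ^ 4)) * (ν 2 + ν 3) * (φ' 0 * γ' 0)) ≤
    ∑ i ∈ range a, ∑ j ∈ range b,
      K (i + 1) (j + 1) * ((φ (i + 1) - φ' (j + 1)) * (γ (i + 1) - γ' (j + 1)))

/-- (BF) a leaf at the centre and a longer leg (`b`). -/
def StBF : Prop := ∀ (l : ℝ) (b : ℕ) (φ' γ' ν μ K : ℕ → ℝ) (p r Z : ℝ), 4 ≤ l →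
  0 ≤ p → 0 ≤ r → (∀ i, 0 ≤ φ' i) → (∀ i, 0 ≤ γ' i) → (∀ i, φ' (i + 1) ≤ φ' i) →
  (∀ i, γ' (i + 1) ≤ γ' i) → p ≤ φ' 1 → r ≤ γ' 1 → p * γ' 2 ≤ Z → φ' 2 * r ≤ Z →
  (∀ j, 0 ≤ K j) → (∀ j, K j ≤ μ j) → (∀ d, 0 ≤ ν d) → (∀ d, ν (d + 1) = μ d + μ (d + 2)) →
  (∀ d, 2 * l * ν (d + 2) ≤ 3 * ν d) → (∀ d, 2 * l * μ (d + 2) ≤ 3 * μ d) →
  -(64 / 55 * (ν 2 + ν 3) * Z) ≤
    ∑ j ∈ range b, K (j + 1) * ((p - φ' (j + 1)) * (r - γ' (j + 1)))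

/-! ### The pair sum -/

/-- (P2) the pair sum is nonnegative, for `q` at most the lengths of three legs. -/
def StP2 : Prop := ∀ (ι : Type) [Fintype ι] [DecidableEq ι] (len : ι → ℕ) (A : ι) (q : ℕ),
  (∀ P, 1 ≤ len P ∧ len P ≤ len A) → 4 ≤ Fintype.card ι → 3 ≤ q →
  3 ≤ (univ.filter (fun P => q ≤ len P)).card → ∀ f g : Vert len → ℤ,
  (∀ x, 0 ≤ f x) → (∀ x, 0 ≤ g x) → HE f → HE g → HM 1 f → HM 1 g →
  (Fintype.card ι : ℤ) * co f A 2 ≤ 2 * f none →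
  (Fintype.card ι : ℤ) ^ 2 * co g A 2 ≤ 4 * g none →
  (∀ P, 2 ≤ len P → co f A 3 ≤ co f P 1) → (∀ P, 2 ≤ len P → co g A 3 ≤ co g P 1) →
  ((univ.filter (fun P => len P = 1)).card : ℤ) * (Fintype.card ι : ℤ) ^ 2 * co g A 2 ≤
    4 * g none →
  (∀ P, len P = 1 → ((univ.filter (fun P => len P = 1)).card : ℤ) * (Fintype.card ι : ℤ) *
    co g P 1 ≤ g none) →
  0 ≤ ∑ x, ∑ y, N (spider len) q x y * ((f x - f y) * (g x - g y))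

/-- (GP) the factor `g` in the chain. -/
def StGP : Prop := ∀ (ι : Type) [Fintype ι] [DecidableEq ι] (len : ι → ℕ)
    (F : ℕ → ι → ℕ → ℤ) (A : ι), (∀ P, 1 ≤ len P ∧ len P ≤ len A) → 4 ≤ Fintype.card ι →
  3 ≤ (univ.filter (fun P => 3 ≤ len P)).card → WFam len F →
  (∀ k P i, 0 ≤ F k P i) → (∀ k P i, F k P (i + 1) ≤ F k P i) →
  (∀ k P Q i, len P ≤ len Q → F k P i ≤ F k Q i) →
  (∀ k, k = 1 ∨ 3 ≤ k → (Fintype.card ι : ℤ) * F k A 2 ≤ 2 * F k A 0) →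
  (∀ k P Q, 1 ≤ k → 2 ≤ len P → F k Q 3 ≤ F k P 1) →
  ∀ (b : ℕ) (J : Finset ι), 3 ≤ b → J.Nonempty → (∀ P, len P = 1 → P ∈ J) →
  (Fintype.card ι : ℤ) ^ 2 * (F b A 2 * ∏ R ∈ J, F (len R) A 2) ≤
    4 * (F b A 0 * ∏ R ∈ J, F (len R) A 0) ∧
  (∀ P, 2 ≤ len P → F b A 3 * ∏ R ∈ J, F (len R) A 3 ≤ F b P 1 * ∏ R ∈ J, F (len R) P 1) ∧
  ((univ.filter (fun P => len P = 1)).card : ℤ) * (Fintype.card ι : ℤ) ^ 2 *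
    (F b A 2 * ∏ R ∈ J, F (len R) A 2) ≤ 4 * (F b A 0 * ∏ R ∈ J, F (len R) A 0) ∧
  ∀ P, len P = 1 → ((univ.filter (fun P => len P = 1)).card : ℤ) * (Fintype.card ι : ℤ) *
    (F b P 1 * ∏ R ∈ J, F (len R) P 1) ≤ F b A 0 * ∏ R ∈ J, F (len R) A 0

/-! ### Trees -/

/-- (TS) a tree with at most one vertex with at least three neighbours is a spider. -/
def StTS : Prop := ∀ (V : Type) [Fintype V] (T : SimpleGraph V), T.IsTree →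
  (∀ u v : V, 3 ≤ {x | T.Adj u x}.ncard → 3 ≤ {x | T.Adj v x}.ncard → u = v) →
  ∃ (m : ℕ) (len : Fin m → ℕ), (∀ P, 1 ≤ len P) ∧ Nonempty (spider len ≃g T)

end SP24
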