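import Pool.Agent.Lib.MP_4e7250_co.SP.Fin_24
import Pool.Agent.Lib.MP_4e7250_co.SP.StmtB24

/-! Spiders (MP_4e7250_co): the chain for all spiders. -/

namespace SP24

open Finset

variable {ι : Type} [Fintype ι] [DecidableEq ι] {len : ι → ℕ}

omit [Fintype ι] in
theorem co_prod24 (f : Vert len → ℤ) (h : ι → Vert len → ℤ) (t : Finset ι) (P : ι) (i : ℕ) :
    co (fun x => f x * ∏ R ∈ t, h R x) P i = co f P i * ∏ R ∈ t, co (h R) P i := by
  induction t using Finset.induction_on with
  | empty => simp
  | insert Q t hQ ih =>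
    have h2 : (fun x => f x * ∏ R ∈ insert Q t, h R x) =
        fun x => h Q x * (f x * ∏ R ∈ t, h R x) := by
      funext x
      rw [Finset.prod_insert hQ]
      ring
    rw [h2, co_mul24, ih, Finset.prod_insert hQ]
    ring

/-- The chain, if all numbers of walks decrease along the legs: the longest leg first. -/
theorem chainB24 (hSA : StSA) (hPF : StPF) (hCO : StCO) (hPS : StPS) (hME : StME) (hP2 : StP2)
    (hGP : StGP) (hYY : StYY) (A B : ι) (hAB : A ≠ B) (hlen : ∀ P, 1 ≤ len P ∧ len P ≤ len A)
    (hcard : 4 ≤ Fintype.card ι) (hn : ∀ k, Nice (W (spider len) k))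
    (hm : ∀ k, HM 1 (W (spider len) k)) (n : ℕ) :
    ∀ J : Finset ι, J.card = n → A ∉ J → B ∉ J → (∀ R, R ∉ J → ∀ S ∈ J, len S ≤ len R) →
    ∀ p, len A ≤ p →
    ∑ x, W (spider len) (p + len B + ∑ P ∈ J, len P) x ≤
      ∑ x, W (spider len) p x *
        (W (spider len) (len B) x * ∏ P ∈ J, W (spider len) (len P) x) := by
  have hl : ∀ P, 1 ≤ len P := fun P => (hlen P).1
  have hW := wfam24 hCO hl
  induction n with
  | zero =>
    intro J hJ _ _ _ p _
    rw [Finset.card_eq_zero] at hJ
    subst hJ
    simp only [Finset.sum_empty, add_zero, Finset.prod_empty, mul_one]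
    exact (sumWW24 hSA (spider len) p (len B)).ge
  | succ n ih =>
    intro J hJ hAJ hBJ hJinv p hp
    have hJne : J.Nonempty := Finset.card_pos.1 (by omega)
    obtain ⟨Q, hQJ, hQmax⟩ := Finset.exists_max_image J len hJne
    have hQ' : Q ∉ J.erase Q := Finset.notMem_erase Q J
    have h1 := ih (J.erase Q) (by rw [Finset.card_erase_of_mem hQJ, hJ]; rfl)
      (fun h => hAJ (Finset.mem_of_mem_erase h)) (fun h => hBJ (Finset.mem_of_mem_erase h))
      (by
        intro R hR S hS
        by_cases hRQ : R = Q
        · subst hRQ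
          exact hQmax S (Finset.mem_of_mem_erase hS)
        · exact hJinv R (fun h => hR (Finset.mem_erase.2 ⟨hRQ, h⟩)) S
            (Finset.mem_of_mem_erase hS))
      (p + len Q) (by omega)
    have h3 : ∑ x, W (spider len) p x * (W (spider len) (len B) x *
        ∏ P ∈ J, W (spider len) (len P) x) =
        ∑ x, W (spider len) p x * (W (spider len) (len Q) x *
          (W (spider len) (len B) x * ∏ P ∈ J.erase Q, W (spider len) (len P) x)) := by
      refine Finset.sum_congr rfl (fun x _ => ?_)
      rw [← Finset.mul_prod_erase J _ hQJ]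
      ring
    have h4 : p + len B + ∑ P ∈ J, len P = p + len Q + len B + ∑ P ∈ J.erase Q, len P := by
      rw [← Finset.add_sum_erase J _ hQJ]
      ring
    rw [h3, h4]
    refine h1.trans ?_
    by_cases hq : (∀ P, len Q ≤ len P) ∨ len Q ≤ 2
    · exact step24 hPF hPS hl p (len Q) hq
        (fun x => W (spider len) (len B) x * ∏ P ∈ J.erase Q, W (spider len) (len P) x) (hn p)
        (nice_prod24 hn (len B) (J.erase Q)) (fun _ => ⟨hm p, hm_prod24 hn hm (len B) (J.erase Q)⟩)
    · -- a short leg exists
      rw [not_or] at hq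
      obtain ⟨hq1, hq2⟩ := hq
      obtain ⟨P0, hP0⟩ := not_forall.1 hq1
      have hP0J : P0 ∈ J := by
        by_contra h
        exact hP0 (hJinv P0 h Q hQJ)
      have hP0Q : P0 ≠ Q := by
        rintro rfl
        exact hP0 le_rfl
      have hne : (J.erase Q).Nonempty := ⟨P0, Finset.mem_erase.2 ⟨hP0Q, hP0J⟩⟩
      have hQB : len Q ≤ len B := hJinv B hBJ Q hQJ
      have hQA : len Q ≤ len A := hJinv A hAJ Q hQJ
      have hAQ : A ≠ Q := fun h => hAJ (h ▸ hQJ)
      have hBQ : B ≠ Q := fun h => hBJ (h ▸ hQJ)
      have hfilt : 3 ≤ (univ.filter (fun P => len Q ≤ len P)).card := by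
        have hsub : ({A, B, Q} : Finset ι) ⊆ univ.filter (fun P => len Q ≤ len P) := by
          intro R hR
          rw [Finset.mem_insert, Finset.mem_insert, Finset.mem_singleton] at hR
          rw [Finset.mem_filter]
          rcases hR with rfl | rfl | rfl
          · exact ⟨Finset.mem_univ _, hQA⟩
          · exact ⟨Finset.mem_univ _, hQB⟩
          · exact ⟨Finset.mem_univ _, le_rfl⟩
        have h5 := Finset.card_le_card hsub
        have h6 : ({A, B, Q} : Finset ι).card = 3 := by
          rw [Finset.card_eq_three]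
          exact ⟨A, B, Q, hAB, hAQ, hBQ, rfl⟩
        omega
      have hfilt3 : 3 ≤ (univ.filter (fun P => 3 ≤ len P)).card := by
        refine hfilt.trans (Finset.card_le_card ?_)
        intro R hR
        rw [Finset.mem_filter] at hR ⊢
        exact ⟨hR.1, by omega⟩
      obtain ⟨y1, y2⟩ := hYY ι len _ A hlen hcard hfilt3 hW
      have hleaf : ∀ P, len P = 1 → P ∈ J.erase Q := by
        intro P hP
        have hPJ : P ∈ J := by
          by_contra h
          have := hJinv P h Q hQJ
          omega
        refine Finset.mem_erase.2 ⟨?_, hPJ⟩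
        rintro rfl
        omega
      obtain ⟨g1, g2, g3, g4⟩ := hGP ι len _ A hlen hcard hfilt3 hW
        (fun k P i => co_nonneg24 (hn k).1 P i) (fun k P i => hm k P i)
        (fun k P R i h => (hn k).2.1 P R i h) y1 y2 (len B) (J.erase Q) (by omega) hne hleaf
      have hcp : ∀ P i, co (fun x => W (spider len) (len B) x *
          ∏ P ∈ J.erase Q, W (spider len) (len P) x) P i =
          co (W (spider len) (len B)) P i * ∏ R ∈ J.erase Q, co (W (spider len) (len R)) P i :=
        fun P i => co_prod24 (W (spider len) (len B)) (fun R => W (spider len) (len R))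
          (J.erase Q) P i
      have hg := nice_prod24 hn (len B) (J.erase Q)
      have hgm := hm_prod24 hn hm (len B) (J.erase Q)
      have hP := hP2 ι len A (len Q) hlen hcard (by omega) hfilt (W (spider len) p)
        (fun x => W (spider len) (len B) x * ∏ P ∈ J.erase Q, W (spider len) (len P) x)
        (hn p).1 hg.1 (hn p).2.1 hg.2.1 (hm p) hgm (y1 p (Or.inr (by omega)))
        (by rw [hcp]; exact g1) (fun P hP => y2 p P A (by omega) hP)
        (fun P hP => by rw [hcp, hcp]; exact g2 P hP)
        (by rw [hcp]; exact g3) (fun P hP => by rw [hcp]; exact g4 P hP)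
      have hpf := hPF (Vert len) (spider len) p (len Q)
        (fun x => W (spider len) (len B) x * ∏ P ∈ J.erase Q, W (spider len) (len P) x)
      have h5 : ∑ x, W (spider len) p x * (W (spider len) (len Q) x *
          (W (spider len) (len B) x * ∏ P ∈ J.erase Q, W (spider len) (len P) x)) =
          ∑ x, W (spider len) p x * W (spider len) (len Q) x *
          (W (spider len) (len B) x * ∏ P ∈ J.erase Q, W (spider len) (len P) x) :=
        Finset.sum_congr rfl (fun x _ => by ring)
      rw [h5]
      linarith

/-- The inequality for the sums of the numbers of walks, all spiders. -/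
theorem walksB24 (hSA : StSA) (hKN : StKN) (hPF : StPF) (hCO : StCO) (hPS : StPS) (hME : StME)
    (hM2 : StM2) (hM1 : StM1) (hID : StID) (hMU : StMU) (hXI : StXI) (hGG : StGG) (hVV : StVV)
    (hP2 : StP2) (hGP : StGP) (hYY : StYY) (hl : ∀ P, 1 ≤ len P) :
    ∑ x, W (spider len) (∑ P, len P) x ≤ ∑ x, ∏ P, W (spider len) (len P) x := by
  rcases Nat.lt_or_ge (Fintype.card ι) 3 with hlt | hcard
  · -- at most two legs
    have h1 : Fintype.card ι = 0 ∨ Fintype.card ι = 1 ∨ Fintype.card ι = 2 := by omega
    rcases h1 with h1 | h1 | h1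
    · have h2 : (univ : Finset ι) = ∅ := by
        rw [← Finset.card_eq_zero, Finset.card_univ, h1]
      simp only [h2, Finset.sum_empty, Finset.prod_empty]
      exact le_rfl
    · rw [← Finset.card_univ] at h1
      obtain ⟨P, hP⟩ := Finset.card_eq_one.1 h1
      simp only [hP, Finset.sum_singleton, Finset.prod_singleton]
      exact le_rfl
    · rw [← Finset.card_univ] at h1
      obtain ⟨P, Q, hPQ, hu⟩ := Finset.card_eq_two.1 h1
      rw [hu, Finset.sum_pair hPQ, Finset.sum_congr rfl (fun x _ => Finset.prod_pair hPQ)]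
      exact (sumWW24 hSA (spider len) (len P) (len Q)).ge
  · obtain ⟨P0⟩ : Nonempty ι := Fintype.card_pos_iff.1 (by omega)
    obtain ⟨A, -, hA⟩ := Finset.exists_max_image (univ : Finset ι) len ⟨P0, Finset.mem_univ P0⟩
    have hlen : ∀ P, 1 ≤ len P ∧ len P ≤ len A := fun P => ⟨hl P, hA P (Finset.mem_univ P)⟩
    have hne : (univ.erase A).Nonempty := by
      rw [← Finset.card_pos, Finset.card_erase_of_mem (Finset.mem_univ A), Finset.card_univ]
      omega
    obtain ⟨B, hBm, hBmax⟩ := Finset.exists_max_image (univ.erase A) len hne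
    have hBA : B ≠ A := (Finset.mem_erase.1 hBm).1
    have hB : ∀ P, P ≠ A → len P ≤ len B :=
      fun P hP => hBmax P (Finset.mem_erase.2 ⟨hP, Finset.mem_univ P⟩)
    by_cases hc : (∀ P Q, P ≠ A → P ≠ B → Q ≠ A → Q ≠ B → len P = len Q) ∨
        ∀ P, P ≠ A → P ≠ B → len P ≤ 2
    · exact walks24 hSA hKN hPF hCO hPS hME hM2 hM1 hID hMU hXI hGG hVV A B hBA.symm hlen hB
        hcard hc
    · rw [not_or] at hc
      obtain ⟨hc1, hc2⟩ := hc
      -- a third leg with at least three edges
      obtain ⟨C, hC⟩ : ∃ C, C ≠ A ∧ C ≠ B ∧ 3 ≤ len C := by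
        by_contra h
        apply hc2
        intro P hPA hPB
        by_contra h2
        exact h ⟨P, hPA, hPB, by omega⟩
      obtain ⟨hCA, hCB, hC3⟩ := hC
      -- at least four legs
      have hcard4 : 4 ≤ Fintype.card ι := by
        by_contra h
        have h3 : Fintype.card ι = 3 := by omega
        apply hc1
        have hu : (univ : Finset ι) = {A, B, C} := by
          symm
          apply Finset.eq_of_subset_of_card_le (Finset.subset_univ _)
          rw [Finset.card_univ, h3]
          have h6 : ({A, B, C} : Finset ι).card = 3 := by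
            rw [Finset.card_eq_three]
            exact ⟨A, B, C, hBA.symm, hCA.symm, hCB.symm, rfl⟩
          rw [h6]
        have key : ∀ R : ι, R ≠ A → R ≠ B → R = C := by
          intro R hRA hRB
          have hR : R ∈ (univ : Finset ι) := Finset.mem_univ R
          rw [hu, Finset.mem_insert, Finset.mem_insert, Finset.mem_singleton] at hR
          rcases hR with h | h | h
          · exact absurd h hRA
          · exact absurd h hRB
          · exact h
        intro P Q hPA hPB hQA hQB
        rw [key P hPA hPB, key Q hQA hQB]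
      have hCB' : len C ≤ len B := hB C hCA
      have hfc : 2 ≤ ((univ.erase A).filter (fun P => 2 ≤ len P)).card := by
        have hsub : ({B, C} : Finset ι) ⊆ (univ.erase A).filter (fun P => 2 ≤ len P) := by
          intro R hR
          rw [Finset.mem_insert, Finset.mem_singleton] at hR
          rw [Finset.mem_filter, Finset.mem_erase]
          rcases hR with rfl | rfl
          · exact ⟨⟨hBA, Finset.mem_univ _⟩, by omega⟩
          · exact ⟨⟨hCA, Finset.mem_univ _⟩, by omega⟩
        have := Finset.card_le_card hsub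
        rwa [Finset.card_pair (Ne.symm hCB)] at this
      have hm : ∀ k, HM 1 (W (spider len) k) := fun k =>
        hm24 hCO hM1 A hlen k (fun j _ => ctr24 hCO hID hMU hXI A hlen hfc j) k le_rfl
      have hn := nice24 hCO hME hM2 hl hcard
      set s : Finset ι := (univ.erase A).erase B with hs
      have hsm : ∀ P, P ∈ s ↔ P ≠ B ∧ P ≠ A := by
        intro P
        simp [hs]
      have hsum : ∑ P, len P = len A + len B + ∑ P ∈ s, len P := by
        rw [← Finset.add_sum_erase univ _ (mem_univ A), ← Finset.add_sum_erase _ _ hBm]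
        ring
      have hprod : ∀ x, ∏ P, W (spider len) (len P) x = W (spider len) (len A) x *
          (W (spider len) (len B) x * ∏ P ∈ s, W (spider len) (len P) x) := by
        intro x
        rw [← Finset.mul_prod_erase univ _ (mem_univ A), ← Finset.mul_prod_erase _ _ hBm]
      rw [hsum, Finset.sum_congr rfl (fun x _ => hprod x)]
      refine chainB24 hSA hPF hCO hPS hME hP2 hGP hYY A B hBA.symm hlen hcard4 hn hm s.card s rfl
        (fun h => ((hsm A).1 h).2 rfl) (fun h => ((hsm B).1 h).1 rfl) ?_ (len A) le_rfl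
      intro R hR S hS
      obtain ⟨-, hSA'⟩ := (hsm S).1 hS
      by_cases hRA : R = A
      · rw [hRA]
        exact (hlen S).2
      · have hRB : R = B := by
          by_contra h
          exact hR ((hsm R).2 ⟨h, hRA⟩)
        rw [hRB]
        exact hB S hSA'

/-- The theorem for all spiders. -/
theorem spidersB24 (hHP : StHP) (hHS : StHS) (hSA : StSA) (hKN : StKN) (hPF : StPF)
    (hCO : StCO) (hPS : StPS) (hME : StME)
    (hM2 : StM2) (hM1 : StM1) (hID : StID) (hMU : StMU) (hXI : StXI) (hGG : StGG) (hVV : StVV)
    (hP2 : StP2) (hGP : StGP) (hYY : StYY) (hl : ∀ P, 1 ≤ len P) :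
    Nat.card (SimpleGraph.pathGraph (∑ P, len P + 1) →g spider len) ≤
      Nat.card (spider len →g spider len) := by
  have h1 := hHP (Vert len) (spider len) (∑ P, len P)
  have h2 := hHS ι len (Vert len) (spider len)
  have h3 := walksB24 hSA hKN hPF hCO hPS hME hM2 hM1 hID hMU hXI hGG hVV hP2 hGP hYY hl
  have h4 : (Nat.card (SimpleGraph.pathGraph (∑ P, len P + 1) →g spider len) : ℤ) ≤
      (Nat.card (spider len →g spider len) : ℤ) := by
    rw [h1, h2]
    exact h3
  exact_mod_cast h4

end SP24
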