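import Pool.Agent.Lib.MP_4e7250_co.SP.Stmts24

/-! Spiders (MP_4e7250_co): assembly from the modules. -/

namespace SP24

open Finset

section Coord

variable {ι : Type} {len : ι → ℕ}

theorem co_mul24 (f g : Vert len → ℤ) (P : ι) (i : ℕ) :
    co (fun x => f x * g x) P i = co f P i * co g P i := by
  rcases i with _ | i
  · rfl
  · unfold co
    by_cases h : i < len P
    · simp [h]
    · simp [h]

theorem co_nonneg24 {f : Vert len → ℤ} (hf : ∀ x, 0 ≤ f x) (P : ι) (i : ℕ) : 0 ≤ co f P i := by
  rcases i with _ | i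
  · exact hf none
  · unfold co
    by_cases h : i < len P
    · simpa [h] using hf _
    · simp [h]

theorem nonneg_of_co24 {f : Vert len → ℤ} (h : ∀ P i, 0 ≤ co f P i) (P0 : ι) (x : Vert len) :
    0 ≤ f x := by
  rcases x with _ | ⟨P, i⟩
  · exact h P0 0
  · have := h P (i.val + 1)
    unfold co at this
    simpa [i.isLt] using this

theorem HE_mul24 {f g : Vert len → ℤ} (hf : ∀ x, 0 ≤ f x) (hg : ∀ x, 0 ≤ g x) (h1 : HE f)
    (h2 : HE g) : HE (fun x => f x * g x) := by
  intro P Q i hPQ
  rw [co_mul24, co_mul24]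
  exact mul_le_mul (h1 P Q i hPQ) (h2 P Q i hPQ) (co_nonneg24 hg P i) (co_nonneg24 hf Q i)

theorem HM_mul24 {f g : Vert len → ℤ} (d : ℕ) (hf : ∀ x, 0 ≤ f x) (hg : ∀ x, 0 ≤ g x)
    (h1 : HM d f) (h2 : HM d g) : HM d (fun x => f x * g x) := by
  intro P i
  rw [co_mul24, co_mul24]
  exact mul_le_mul (h1 P i) (h2 P i) (co_nonneg24 hg P _) (co_nonneg24 hf P i)

end Coord

/-- Nonnegative, increasing in the length of the leg, decreasing in steps of two. -/
def Nice {ι : Type} {len : ι → ℕ} (f : Vert len → ℤ) : Prop :=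
  (∀ x, 0 ≤ f x) ∧ HE f ∧ HM 2 f

theorem Nice.mul24 {ι : Type} {len : ι → ℕ} {f g : Vert len → ℤ} (hf : Nice f) (hg : Nice g) :
    Nice (fun x => f x * g x) :=
  ⟨fun x => mul_nonneg (hf.1 x) (hg.1 x), HE_mul24 hf.1 hg.1 hf.2.1 hg.2.1,
    HM_mul24 2 hf.1 hg.1 hf.2.2 hg.2.2⟩

section Main

variable {ι : Type} [Fintype ι] [DecidableEq ι] {len : ι → ℕ}

theorem wfam24 (hCO : StCO) (hlen : ∀ P, 1 ≤ len P) :
    WFam len (fun k => co (W (spider len) k)) := by
  refine ⟨hCO ι len hlen (fun _ => 1), ?_⟩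
  intro P i hi
  rcases i with _ | i
  · rfl
  · unfold co
    simp only [W, It]
    rw [dif_pos (by omega)]

/-- The indicator of the leg `A` and the centre. -/
def ind24 (A : ι) : Vert len → ℤ
  | none => 1
  | some ⟨P, _⟩ => if P = A then 1 else 0

theorem mfam24 (hCO : StCO) (hlen : ∀ P, 1 ≤ len P) (A : ι) :
    MFam len A (fun k => co (It (spider len) (ind24 A) k)) := by
  refine ⟨hCO ι len hlen (ind24 A), fun P => rfl, ?_, ?_⟩
  · intro i hi
    rcases i with _ | i
    · rfl
    · show co (ind24 A) A (i + 1) = 1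
      unfold co
      simp only [ind24]
      rw [dif_pos (by omega)]
      simp
  · intro P i hP
    show co (ind24 A) P (i + 1) = 0
    unfold co
    simp only [ind24]
    split_ifs <;> simp_all

/-- One step of the chain. -/
theorem step24 (hPF : StPF) (hPS : StPS) (hlen : ∀ P, 1 ≤ len P) (p q : ℕ)
    (hq : (∀ P, q ≤ len P) ∨ q ≤ 2) (R : Vert len → ℤ)
    (hf : Nice (W (spider len) p)) (hR : Nice R)
    (h1 : q % 2 = 1 → HM 1 (W (spider len) p) ∧ HM 1 R) :
    ∑ x, W (spider len) (p + q) x * R x ≤ ∑ x, W (spider len) p x * (W (spider len) q x * R x) := by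
  have h := hPF (Vert len) (spider len) p q R
  have h2 := hPS ι len hlen q hq (W (spider len) p) R hf.2.1 hR.2.1 hf.2.2 hR.2.2 h1
  have h3 : ∑ x, W (spider len) p x * (W (spider len) q x * R x) =
      ∑ x, W (spider len) p x * W (spider len) q x * R x :=
    Finset.sum_congr rfl (fun x _ => by ring)
  rw [h3]
  linarith

theorem sumWW24 {V : Type} [Fintype V] (hSA : StSA) (G : SimpleGraph V) (p q : ℕ) :
    ∑ x, W G p x * W G q x = ∑ x, W G (p + q) x := by
  have hadd : ∀ (f : V → ℤ) (m : ℕ), It G (It G f m) p = It G f (p + m) := by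
    intro f m
    induction p with
    | zero => simp [It]
    | succ p ih =>
      show Ad G (It G (It G f m) p) = It G f (p + 1 + m)
      rw [ih, show p + 1 + m = (p + m) + 1 from by ring]
      rfl
  have h := hSA V G (fun _ => 1) (fun x => It G (fun _ => 1) q x) p
  have h1 : ∑ x, W G p x * W G q x = ∑ x, It G (fun _ => 1) p x * It G (fun _ => 1) q x := rfl
  rw [h1, h]
  refine Finset.sum_congr rfl (fun x _ => ?_)
  rw [one_mul]
  have := congrFun (hadd (fun _ => 1) q) x
  exact this

/-- Stars and brooms, any graph: all legs except one of length one. -/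
theorem univ24 {V : Type} [Fintype V] (hKN : StKN) (hPF : StPF) (G : SimpleGraph V) (p : ℕ)
    (r : ℕ) : ∑ x, W G (p + r) x ≤ ∑ x, W G p x * W G 1 x ^ r := by
  have hnn : ∀ x, 0 ≤ W G 1 x := by
    intro x
    have h := (hKN V G 1).2.2 (fun _ => 1) x
    show 0 ≤ It G (fun _ => 1) 1 x
    rw [h]
    exact Finset.sum_nonneg (fun y _ => mul_nonneg ((hKN V G 1).2.1 x y) zero_le_one)
  induction r generalizing p with
  | zero => simp
  | succ r ih =>
    have h1 := ih (p + 1)
    have h2 := hPF V G 1 p (fun x => W G 1 x ^ r)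
    have h3 : 0 ≤ ∑ x, ∑ y, N G p x y * ((W G 1 x - W G 1 y) * (W G 1 x ^ r - W G 1 y ^ r)) := by
      refine Finset.sum_nonneg (fun x _ => Finset.sum_nonneg (fun y _ => ?_))
      refine mul_nonneg ((hKN V G p).2.1 x y) ?_
      rcases le_total (W G 1 x) (W G 1 y) with h | h
      · exact mul_nonneg_of_nonpos_of_nonpos (sub_nonpos.2 h)
          (sub_nonpos.2 (pow_le_pow_left₀ (hnn x) h r))
      · exact mul_nonneg (sub_nonneg.2 h) (sub_nonneg.2 (pow_le_pow_left₀ (hnn y) h r))
    have h4 : ∑ x, W G p x * W G 1 x ^ (r + 1) =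
        ∑ x, W G 1 x * W G p x * (fun x => W G 1 x ^ r) x :=
      Finset.sum_congr rfl (fun x _ => by simp only; ring)
    have h5 : p + (r + 1) = p + 1 + r := by ring
    rw [h4, h5]
    rw [show 1 + p = p + 1 from add_comm _ _] at h2
    have h6 : ∑ x, W G (p + 1) x * (fun x => W G 1 x ^ r) x =
        ∑ x, W G (p + 1) x * W G 1 x ^ r := rfl
    rw [h6] at h2
    linarith

theorem nice24 (hCO : StCO) (hME : StME) (hM2 : StM2) (hlen : ∀ P, 1 ≤ len P)
    (hc : 3 ≤ Fintype.card ι) (k : ℕ) : Nice (W (spider len) k) := by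
  have hW := wfam24 hCO hlen
  obtain ⟨P0⟩ : Nonempty ι := Fintype.card_pos_iff.1 (by omega)
  refine ⟨nonneg_of_co24 (fun P i => (hME ι len _ hW).1 k P i) P0, ?_, ?_⟩
  · intro P Q i h
    exact (hME ι len _ hW).2 k P Q i h
  · intro P i
    exact hM2 ι len _ hlen hc hW k P i

theorem nice_prod24 (hn : ∀ k, Nice (W (spider len) k)) (b : ℕ) (t : Finset ι) :
    Nice (fun x => W (spider len) b x * ∏ P ∈ t, W (spider len) (len P) x) := by
  induction t using Finset.induction_on with
  | empty => simpa using hn b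
  | insert Q t hQ ih =>
    have h := Nice.mul24 (hn (len Q)) ih
    have h2 : (fun x => W (spider len) b x * ∏ P ∈ insert Q t, W (spider len) (len P) x) =
        fun x => W (spider len) (len Q) x *
          (W (spider len) b x * ∏ P ∈ t, W (spider len) (len P) x) := by
      funext x
      rw [Finset.prod_insert hQ]
      ring
    rw [h2]
    exact h

theorem hm_prod24 (hn : ∀ k, Nice (W (spider len) k)) (hm : ∀ k, HM 1 (W (spider len) k))
    (b : ℕ) (t : Finset ι) :
    HM 1 (fun x => W (spider len) b x * ∏ P ∈ t, W (spider len) (len P) x) := by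
  induction t using Finset.induction_on with
  | empty => simpa using hm b
  | insert Q t hQ ih =>
    have h := HM_mul24 1 (hn (len Q)).1 (nice_prod24 hn b t).1 (hm (len Q)) ih
    have h2 : (fun x => W (spider len) b x * ∏ P ∈ insert Q t, W (spider len) (len P) x) =
        fun x => W (spider len) (len Q) x *
          (W (spider len) b x * ∏ P ∈ t, W (spider len) (len P) x) := by
      funext x
      rw [Finset.prod_insert hQ]
      ring
    rw [h2]
    exact h

/-- The chain, if all numbers of walks decrease along the legs. -/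
theorem chain24 (hSA : StSA) (hPF : StPF) (hPS : StPS) (hlen : ∀ P, 1 ≤ len P)
    (hn : ∀ k, Nice (W (spider len) k)) (hm : ∀ k, HM 1 (W (spider len) k)) (b : ℕ)
    (t : Finset ι) (ht : ∀ Q ∈ t, (∀ P, len Q ≤ len P) ∨ len Q ≤ 2) (p : ℕ) :
    ∑ x, W (spider len) (p + b + ∑ P ∈ t, len P) x ≤
      ∑ x, W (spider len) p x * (W (spider len) b x * ∏ P ∈ t, W (spider len) (len P) x) := by
  induction t using Finset.induction_on generalizing p with
  | empty =>
    simp only [Finset.sum_empty, add_zero, Finset.prod_empty, mul_one]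
    exact (sumWW24 hSA (spider len) p b).ge
  | insert Q t hQ ih =>
    have h1 := ih (fun P hP => ht P (Finset.mem_insert_of_mem hP)) (p + len Q)
    have h2 := step24 hPF hPS hlen p (len Q) (ht Q (Finset.mem_insert_self Q t))
      (fun x => W (spider len) b x * ∏ P ∈ t, W (spider len) (len P) x) (hn p)
      (nice_prod24 hn b t) (fun _ => ⟨hm p, hm_prod24 hn hm b t⟩)
    have h3 : ∑ x, W (spider len) p x * (W (spider len) b x *
        ∏ P ∈ insert Q t, W (spider len) (len P) x) =
        ∑ x, W (spider len) p x * (W (spider len) (len Q) x *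
          (W (spider len) b x * ∏ P ∈ t, W (spider len) (len P) x)) := by
      refine Finset.sum_congr rfl (fun x _ => ?_)
      rw [Finset.prod_insert hQ]
      ring
    have h4 : p + b + ∑ P ∈ insert Q t, len P = p + len Q + b + ∑ P ∈ t, len P := by
      rw [Finset.sum_insert hQ]
      ring
    rw [h3, h4]
    exact h1.trans h2

/-- The inequality at the centre from the inequality for the family `U`. -/
theorem ctr24 (hCO : StCO) (hID : StID) (hMU : StMU) (hXI : StXI) (A : ι)
    (hlen : ∀ P, 1 ≤ len P ∧ len P ≤ len A)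
    (h2 : 2 ≤ ((univ.erase A).filter (fun P => 2 ≤ len P)).card) (k : ℕ) :
    co (W (spider len) k) A 0 ≤ ∑ P ∈ univ.erase A, co (W (spider len) k) P 1 := by
  have hl : ∀ P, 1 ≤ len P := fun P => (hlen P).1
  have hW := wfam24 hCO hl
  have hU := mfam24 hCO hl A
  have e1 := hID ι len _ _ A hl hW hU k
  have e2 := hXI ι len _ A hlen hU h2 k
  have e3 := (hMU ι len _ _ A hlen hW hU).2.2 k A (len A)
  have e4 := (Finset.add_sum_erase univ
    (fun P => co (It (spider len) (ind24 A) k) P (len P)) (mem_univ A))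
  linarith

theorem hm24 (hCO : StCO) (hM1 : StM1) (A : ι) (hlen : ∀ P, 1 ≤ len P ∧ len P ≤ len A) (K : ℕ)
    (hc : ∀ k, k < K → co (W (spider len) k) A 0 ≤
      ∑ P ∈ univ.erase A, co (W (spider len) k) P 1) :
    ∀ k, k ≤ K → HM 1 (W (spider len) k) := by
  intro k hk P i
  exact hM1 ι len _ A K hlen (wfam24 hCO (fun P => (hlen P).1)) hc k hk P i

/-- The inequality for the sums of the numbers of walks. -/
theorem walks24 (hSA : StSA) (hKN : StKN) (hPF : StPF) (hCO : StCO) (hPS : StPS) (hME : StME)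
    (hM2 : StM2) (hM1 : StM1) (hID : StID) (hMU : StMU) (hXI : StXI) (hGG : StGG) (hVV : StVV)
    (A B : ι) (hAB : A ≠ B) (hlen : ∀ P, 1 ≤ len P ∧ len P ≤ len A)
    (hB : ∀ P, P ≠ A → len P ≤ len B) (hcard : 3 ≤ Fintype.card ι)
    (hc : (∀ P Q, P ≠ A → P ≠ B → Q ≠ A → Q ≠ B → len P = len Q) ∨
      ∀ P, P ≠ A → P ≠ B → len P ≤ 2) :
    ∑ x, W (spider len) (∑ P, len P) x ≤ ∑ x, ∏ P, W (spider len) (len P) x := by
  have hl : ∀ P, 1 ≤ len P := fun P => (hlen P).1
  have hn := nice24 hCO hME hM2 hl hcard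
  have hBm : B ∈ univ.erase A := Finset.mem_erase.2 ⟨hAB.symm, mem_univ B⟩
  set s : Finset ι := (univ.erase A).erase B with hs
  have hsm : ∀ P, P ∈ s ↔ P ≠ B ∧ P ≠ A := by
    intro P
    simp [hs]
  have hsum : ∑ P, len P = len A + len B + ∑ P ∈ s, len P := by
    rw [← Finset.add_sum_erase univ _ (mem_univ A), ← Finset.add_sum_erase _ _ hBm]
    ring
  have hprod : ∀ x, ∏ P, W (spider len) (len P) x =
      W (spider len) (len A) x * (W (spider len) (len B) x * ∏ P ∈ s, W (spider len) (len P) x) := by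
    intro x
    rw [← Finset.mul_prod_erase univ _ (mem_univ A), ← Finset.mul_prod_erase _ _ hBm]
  have hscard : s.card + 2 = Fintype.card ι := by
    have h1 := Finset.card_erase_of_mem (mem_univ A)
    have h2 := Finset.card_erase_of_mem hBm
    rw [Finset.card_univ] at h1
    rw [← hs] at h2
    omega
  rw [hsum, Finset.sum_congr rfl (fun x _ => hprod x)]
  have hts : ∀ Q ∈ s, (∀ P, len Q ≤ len P) ∨ len Q ≤ 2 := by
    intro Q hQ
    obtain ⟨hQB, hQA⟩ := (hsm Q).1 hQ
    rcases hc with hc | hc
    · left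
      intro P
      by_cases hPA : P = A
      · subst hPA
        exact (hlen Q).2
      · by_cases hPB : P = B
        · subst hPB
          exact hB Q hQA
        · exact (hc Q P hQA hQB hPA hPB).le
    · right
      exact hc Q hQA hQB
  have hBA : len B ≤ len A := (hlen B).2
  rcases Nat.lt_or_ge (len B) 2 with hb1 | hb2
  · -- all legs except `A` have length one
    have h1 : ∀ P, P ≠ A → len P = 1 := fun P hP => by
      have := hB P hP
      have := (hlen P).1
      omega
    have h3 : len B = 1 := h1 B hAB.symm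
    have h4 : ∑ P ∈ s, len P = s.card := by
      rw [Finset.sum_congr rfl (fun P hP => h1 P ((hsm P).1 hP).2)]
      simp
    have h5 := univ24 hKN hPF (spider len) (len A) (s.card + 1)
    have h6 : ∀ x, W (spider len) (len A) x * (W (spider len) (len B) x *
        ∏ P ∈ s, W (spider len) (len P) x) =
        W (spider len) (len A) x * W (spider len) 1 x ^ (s.card + 1) := by
      intro x
      rw [Finset.prod_congr rfl (fun P hP => by rw [h1 P ((hsm P).1 hP).2]), Finset.prod_const, h3]
      ring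
    rw [Finset.sum_congr rfl (fun x _ => h6 x), h4, h3,
      show len A + 1 + s.card = len A + (s.card + 1) from by ring]
    exact h5
  by_cases hex : ∃ P ∈ s, 2 ≤ len P
  · obtain ⟨P, hP, hP2⟩ := hex
    obtain ⟨hPB, hPA⟩ := (hsm P).1 hP
    have hfc : 2 ≤ ((univ.erase A).filter (fun P => 2 ≤ len P)).card := by
      have hsub : ({B, P} : Finset ι) ⊆ (univ.erase A).filter (fun P => 2 ≤ len P) := by
        intro Q hQ
        rw [Finset.mem_insert, Finset.mem_singleton] at hQ
        rcases hQ with rfl | rfl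
        · simp [hAB.symm, hb2]
        · simp [hPA, hP2]
      have := Finset.card_le_card hsub
      rwa [Finset.card_pair (Ne.symm hPB)] at this
    have hm : ∀ k, HM 1 (W (spider len) k) := fun k =>
      hm24 hCO hM1 A hlen k (fun j _ => ctr24 hCO hID hMU hXI A hlen hfc j) k le_rfl
    exact chain24 hSA hPF hPS hl hn hm (len B) s hts (len A)
  · have h1 : ∀ P, P ≠ A → P ≠ B → len P = 1 := by
      intro P hA hB
      have h2 : ¬ 2 ≤ len P := fun h => hex ⟨P, (hsm P).2 ⟨hB, hA⟩, h⟩
      have := (hlen P).1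
      omega
    rcases Nat.lt_or_ge (Fintype.card ι) 4 with h3 | h4
    · have hc3 : Fintype.card ι = 3 := by omega
      have hs1 : s.card = 1 := by omega
      obtain ⟨C, hC⟩ := Finset.card_eq_one.1 hs1
      have hCs : C ∈ s := by rw [hC]; exact Finset.mem_singleton_self C
      obtain ⟨hCB, hCA⟩ := (hsm C).1 hCs
      have hm : ∀ k, k ≤ len A → HM 1 (W (spider len) k) :=
        hm24 hCO hM1 A hlen (len A) (fun j hj => hVV ι len _ A B hAB hb2 hBA h1 hc3
          (wfam24 hCO hl) j (by omega))
      rw [hC]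
      simp only [Finset.sum_singleton, Finset.prod_singleton]
      have h5 := step24 hPF hPS hl (len A) (len C) (hts C hCs) (W (spider len) (len B))
        (hn _) (hn _) (fun _ => ⟨hm _ le_rfl, hm _ hBA⟩)
      have h6 := sumWW24 hSA (spider len) (len A + len C) (len B)
      have h7 : len A + len B + len C = len A + len C + len B := by ring
      rw [h7, ← h6]
      refine h5.trans (le_of_eq ?_)
      exact Finset.sum_congr rfl (fun x _ => by ring)
    · have hm : ∀ k, HM 1 (W (spider len) k) := fun k =>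
        hm24 hCO hM1 A hlen k (fun j _ => hGG ι len _ A B hAB hb2 hBA h1 h4
          (wfam24 hCO hl) j) k le_rfl
      exact chain24 hSA hPF hPS hl hn hm (len B) s hts (len A)

/-- The theorem for spiders. -/
theorem spiders24 (hHP : StHP) (hHS : StHS) (hSA : StSA) (hKN : StKN) (hPF : StPF) (hCO : StCO)
    (hPS : StPS) (hME : StME)
    (hM2 : StM2) (hM1 : StM1) (hID : StID) (hMU : StMU) (hXI : StXI) (hGG : StGG) (hVV : StVV)
    (A B : ι) (hAB : A ≠ B) (hlen : ∀ P, 1 ≤ len P ∧ len P ≤ len A)
    (hB : ∀ P, P ≠ A → len P ≤ len B) (hcard : 3 ≤ Fintype.card ι)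
    (hc : (∀ P Q, P ≠ A → P ≠ B → Q ≠ A → Q ≠ B → len P = len Q) ∨
      ∀ P, P ≠ A → P ≠ B → len P ≤ 2) :
    Nat.card (SimpleGraph.pathGraph (∑ P, len P + 1) →g spider len) ≤
      Nat.card (spider len →g spider len) := by
  have h1 := hHP (Vert len) (spider len) (∑ P, len P)
  have h2 := hHS ι len (Vert len) (spider len)
  have h3 := walks24 hSA hKN hPF hCO hPS hME hM2 hM1 hID hMU hXI hGG hVV A B hAB hlen hB hcard hc
  have h4 : (Nat.card (SimpleGraph.pathGraph (∑ P, len P + 1) →g spider len) : ℤ) ≤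
      (Nat.card (spider len →g spider len) : ℤ) := by
    rw [h1, h2]
    exact h3
  exact_mod_cast h4

end Main

theorem card_vert24 {ι : Type} [Fintype ι] (len : ι → ℕ) :
    Fintype.card (Vert len) = ∑ P, len P + 1 := by
  simp [Vert]

/-- Homomorphisms into isomorphic graphs. -/
theorem card_hom24 {U V V' : Type} (H : SimpleGraph U) {G : SimpleGraph V} {G' : SimpleGraph V'}
    (e : G ≃g G') : Nat.card (H →g G) = Nat.card (H →g G') := by
  refine Nat.card_congr ⟨fun f => e.toHom.comp f, fun f => e.symm.toHom.comp f, ?_, ?_⟩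
  · intro f
    ext x
    exact e.symm_apply_apply (f x)
  · intro f
    ext x
    exact e.apply_symm_apply (f x)

/-- Homomorphisms from isomorphic graphs. -/
theorem hom_card24 {U V V' : Type} (H : SimpleGraph U) {G : SimpleGraph V} {G' : SimpleGraph V'}
    (e : G ≃g G') : Nat.card (G →g H) = Nat.card (G' →g H) := by
  refine Nat.card_congr ⟨fun f => f.comp e.symm.toHom, fun f => f.comp e.toHom, ?_, ?_⟩
  · intro f
    ext x
    exact congrArg f (e.symm_apply_apply x)
  · intro f
    ext x
    exact congrArg f (e.apply_symm_apply x)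

end SP24
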