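import Pool.Agent.Lib.MP_4e7250_co.SP.Stmts24

/-! Spiders (MP_4e7250_co): module GG. -/

namespace SP24

open Finset

namespace GG39

variable {ι : Type} [Fintype ι] [DecidableEq ι] {len : ι → ℕ} {F : ℕ → ι → ℕ → ℤ}

lemma F0 (hF : WFam len F) (P : ι) (i : ℕ) : F 0 P i = if i ≤ len P then 1 else 0 := by
  split_ifs with h
  · exact hF.ini P i h
  · exact hF.out 0 P i (by omega)

lemma F1c (hF : WFam len F) (hlen : ∀ P, 1 ≤ len P) (P : ι) :
    F 1 P 0 = Fintype.card ι := by
  rw [hF.zero 0 P]
  have : ∀ Q ∈ (univ : Finset ι), F 0 Q 1 = 1 := fun Q _ => hF.ini Q 1 (hlen Q)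
  rw [Finset.sum_congr rfl this]
  simp

lemma F1s (hF : WFam len F) (P : ι) (i : ℕ) (h : i + 1 ≤ len P) :
    F 1 P (i + 1) = if i + 2 ≤ len P then 2 else 1 := by
  rw [hF.step 0 P i h, F0 hF, F0 hF, if_pos (by omega : i ≤ len P)]
  split_ifs <;> norm_num

/-- (G) -/
lemma GG (hF : WFam len F) (A B : ι) (hAB : A ≠ B) (hB : 2 ≤ len B) (hA : 2 ≤ len A)
    (hlen : ∀ P, 1 ≤ len P) (hcard : 4 ≤ Fintype.card ι) :
    ∀ k P i, ((Fintype.card ι : ℤ) - 1) * F (k + 1) P i ≤
      ((Fintype.card ι : ℤ) - 2) * F (k + 2) P i := by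
  have hm : (4 : ℤ) ≤ Fintype.card ι := by exact_mod_cast hcard
  intro k
  induction k with
  | zero =>
    intro P i
    rcases i with _ | i
    · -- centre
      have h1 := F1c hF hlen P
      have h2 : (Fintype.card ι : ℤ) + 2 ≤ F 2 P 0 := by
        rw [hF.zero 1 P]
        have h3 : ∀ Q ∈ (univ : Finset ι),
            ((1 : ℤ) + (if Q = A then 1 else 0) + (if Q = B then 1 else 0)) ≤ F 1 Q 1 := by
          intro Q _
          rw [F1s hF Q 0 (by have := hlen Q; omega)]
          by_cases hQA : Q = A
          · have hQB : Q ≠ B := fun h => hAB (hQA ▸ h)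
            rw [if_pos hQA, if_neg hQB, if_pos (by rw [hQA]; omega)]
            norm_num
          · by_cases hQB : Q = B
            · rw [if_neg hQA, if_pos hQB, if_pos (by rw [hQB]; omega)]
              norm_num
            · rw [if_neg hQA, if_neg hQB]
              split_ifs <;> norm_num
        refine le_trans (le_of_eq ?_) (Finset.sum_le_sum h3)
        rw [Finset.sum_add_distrib, Finset.sum_add_distrib]
        simp
        ring
      rw [show (0 : ℕ) + 1 = 1 from rfl, show (0 : ℕ) + 2 = 2 from rfl, h1]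
      nlinarith
    · by_cases hi : i + 1 ≤ len P
      · rw [show (0 : ℕ) + 1 = 1 from rfl, show (0 : ℕ) + 2 = 2 from rfl, hF.step 1 P i hi,
          F1s hF P i hi]
        rcases i with _ | i
        · have h1 := F1c hF hlen P
          have h2 : 0 ≤ F 1 P (0 + 2) := by
            by_cases h : 2 ≤ len P
            · rw [show (0 : ℕ) + 2 = 1 + 1 from rfl, F1s hF P 1 h]
              split_ifs <;> norm_num
            · rw [hF.out 1 P (0 + 2) (by omega)]
          rw [h1]
          split_ifs <;> nlinarith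
        · have h1 : F 1 P (i + 1) = 2 := by
            rw [F1s hF P i (by omega), if_pos (by omega)]
          rw [h1]
          split_ifs with h3
          · have h2 : 1 ≤ F 1 P (i + 1 + 2) := by
              rw [show i + 1 + 2 = (i + 2) + 1 from rfl, F1s hF P (i + 2) (by omega)]
              split_ifs <;> norm_num
            nlinarith
          · have h2 : F 1 P (i + 1 + 2) = 0 := hF.out 1 P _ (by omega)
            rw [h2]
            nlinarith
      · rw [hF.out _ P (i + 1) (by omega), hF.out _ P (i + 1) (by omega)]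
        simp
  | succ k ih =>
    intro P i
    rcases i with _ | i
    · rw [hF.zero (k + 1) P, hF.zero (k + 2) P, Finset.mul_sum, Finset.mul_sum]
      exact Finset.sum_le_sum (fun Q _ => ih Q 1)
    · by_cases hi : i + 1 ≤ len P
      · rw [hF.step (k + 1) P i hi, hF.step (k + 2) P i hi, mul_add, mul_add]
        exact add_le_add (ih P i) (ih P (i + 2))
      · rw [hF.out _ P (i + 1) (by omega), hF.out _ P (i + 1) (by omega)]
        simp

/-- the sum over the legs `≠ A` at distance one -/
lemma sumA (hF : WFam len F) (A B : ι) (hAB : A ≠ B)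
    (hone : ∀ P, P ≠ A → P ≠ B → len P = 1) (k : ℕ) :
    ∑ P ∈ univ.erase A, F (k + 1) P 1 =
      F (k + 1) B 1 + ((Fintype.card ι : ℤ) - 2) * F k A 0 := by
  have hB : B ∈ univ.erase A := Finset.mem_erase.2 ⟨hAB.symm, Finset.mem_univ _⟩
  rw [← Finset.add_sum_erase _ _ hB]
  congr 1
  have h1 : ∀ P ∈ (univ.erase A).erase B, F (k + 1) P 1 = F k A 0 := by
    intro P hP
    rw [Finset.mem_erase, Finset.mem_erase] at hP
    have h2 := hone P hP.2.1 hP.1
    rw [show (1 : ℕ) = 0 + 1 from rfl, hF.step k P 0 (by omega), hF.out k P (0 + 2) (by omega),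
      add_zero, hF.ctr k P A]
  rw [Finset.sum_congr rfl h1, Finset.sum_const, Finset.card_erase_of_mem hB,
    Finset.card_erase_of_mem (Finset.mem_univ _), Finset.card_univ, nsmul_eq_mul]
  have h3 : 1 < Fintype.card ι := Fintype.one_lt_card_iff.2 ⟨A, B, hAB⟩
  congr 1
  have h4 : Fintype.card ι - 1 - 1 + 2 = Fintype.card ι := by omega
  have h5 : ((Fintype.card ι - 1 - 1 : ℕ) : ℤ) + 2 = Fintype.card ι := by exact_mod_cast h4
  linarith

end GG39

open GG39 in
/-- (GG) -/
theorem gg (h1 : StME) (h2 : StM1) : StGG := by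
  intro ι _ _ len F A B hAB hB hBA hone hcard hF
  have hlen : ∀ P, 1 ≤ len P := by
    intro P
    by_cases hPA : P = A
    · rw [hPA]; omega
    · by_cases hPB : P = B
      · rw [hPB]; omega
      · rw [hone P hPA hPB]
  have hlen2 : ∀ P, 1 ≤ len P ∧ len P ≤ len A := by
    intro P
    refine ⟨hlen P, ?_⟩
    by_cases hPA : P = A
    · rw [hPA]
    · by_cases hPB : P = B
      · rw [hPB]; exact hBA
      · rw [hone P hPA hPB]; omega
  have hm : (4 : ℤ) ≤ Fintype.card ι := by exact_mod_cast hcard
  have hpos := (h1 ι len F hF).1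
  have hG := GG hF A B hAB hB (by omega) hlen hcard
  intro k
  induction k using Nat.strong_induction_on with
  | _ k ih =>
    rcases k with _ | k
    · -- time 0
      rw [hF.ini A 0 (Nat.zero_le _)]
      have hBm : B ∈ univ.erase A := Finset.mem_erase.2 ⟨hAB.symm, Finset.mem_univ _⟩
      calc (1 : ℤ) = F 0 B 1 := (hF.ini B 1 (hlen B)).symm
        _ ≤ ∑ P ∈ univ.erase A, F 0 P 1 :=
          Finset.single_le_sum (fun P _ => hpos 0 P 1) hBm
    · have hM : ∀ j, j ≤ k + 1 → ∀ P i, F j P (i + 1) ≤ F j P i :=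
        h2 ι len F A (k + 1) hlen2 hF (fun j hj => ih j hj)
      rw [sumA hF A B hAB hone k]
      -- the value at the centre
      have hc : F (k + 1) A 0 = F k A 1 + ∑ P ∈ univ.erase A, F k P 1 := by
        rw [hF.zero k A]
        exact (Finset.add_sum_erase _ (fun Q => F k Q 1) (Finset.mem_univ A)).symm
      have hB1 : F (k + 1) B 1 = F k A 0 + F k B 2 := by
        rw [show (1 : ℕ) = 0 + 1 from rfl, hF.step k B 0 (by omega), hF.ctr k B A]
      rw [hc, hB1]
      rcases k with _ | k
      · -- time 1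
        have e1 : F 0 A 1 = 1 := hF.ini A 1 (by omega)
        have e2 : F 0 A 0 = 1 := hF.ini A 0 (by omega)
        have e3 : F 0 B 2 = 1 := hF.ini B 2 hB
        have e4 : ∑ P ∈ univ.erase A, F 0 P 1 = (Fintype.card ι : ℤ) - 1 := by
          have : ∀ P ∈ univ.erase A, F 0 P 1 = 1 := fun P _ => hF.ini P 1 (hlen P)
          rw [Finset.sum_congr rfl this]
          simp only [Finset.sum_const, Finset.card_erase_of_mem (Finset.mem_univ A),
            Finset.card_univ, nsmul_eq_mul, mul_one]
          have h3 : 1 ≤ Fintype.card ι := by omega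
          push_cast [Nat.cast_sub h3]
          ring
        rw [e1, e2, e3, e4]
        linarith
      · rw [sumA hF A B hAB hone k]
        have hMA := hM (k + 1) (by omega) A 0
        have hMB := hM k (by omega) B 1
        have hB1' : F (k + 1) B 1 = F k A 0 + F k B 2 := by
          rw [show (1 : ℕ) = 0 + 1 from rfl, hF.step k B 0 (by omega), hF.ctr k B A]
        have hB2 : F (k + 1) B 2 = F k B 1 + F k B 3 := hF.step k B 1 hB
        have hp3 := hpos k B 3
        rcases k with _ | k
        · -- time 2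
          have e2 : F 0 A 0 = 1 := hF.ini A 0 (by omega)
          have e5 : F 1 A 0 = Fintype.card ι := F1c hF hlen A
          simp only [Nat.zero_add] at hMA hMB hB1' hB2 hp3 ⊢
          rw [e2] at hB1' ⊢
          rw [e5] at hMA ⊢
          rw [hB1', hB2]
          nlinarith
        · have hGc := hG k A 0
          nlinarith
end SP24
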