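import Pool.Agent.Lib.MP_4e7250_co.SP.StmtB24

/-! Spiders (MP_4e7250_co): module GP, the factor `g` in the chain. -/

namespace SP24

open Finset

namespace GP39

lemma pow1 {l : ℤ} (hl : 4 ≤ l) (m : ℕ) : ((m : ℤ) + 1) * 2 ^ m ≤ l ^ m := by
  have h1 : ((m : ℤ) + 1) ≤ 2 ^ m := by
    have := Nat.lt_two_pow_self (n := m)
    exact_mod_cast this
  have h2 : (4 : ℤ) ^ m ≤ l ^ m := pow_le_pow_left₀ (by norm_num) hl m
  have h3 : (4 : ℤ) ^ m = 2 ^ m * 2 ^ m := by rw [← mul_pow]; norm_num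
  have h4 : (0 : ℤ) < 2 ^ m := by positivity
  nlinarith

lemma pow2 {l : ℤ} (hl : 4 ≤ l) (m : ℕ) : ((m : ℤ) + 1) ≤ l ^ m := by
  have h1 := pow1 hl m
  have h2 : (1 : ℤ) ≤ 2 ^ m := one_le_pow₀ (by norm_num)
  have h3 : (0 : ℤ) ≤ (m : ℤ) + 1 := by positivity
  nlinarith

variable {ι : Type} [Fintype ι] [DecidableEq ι] {len : ι → ℕ} {F : ℕ → ι → ℕ → ℤ}

lemma f0_le (hF : WFam len F) (P : ι) (i : ℕ) : F 0 P i ≤ 1 := by
  by_cases h : i ≤ len P
  · exact (hF.ini P i h).le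
  · rw [hF.out 0 P i (by omega)]; norm_num

lemma f1_le (hF : WFam len F) (P : ι) (i : ℕ) : F 1 P (i + 1) ≤ 2 := by
  by_cases h : i + 1 ≤ len P
  · have e := hF.step 0 P i h
    rw [zero_add] at e
    rw [e]
    have := f0_le hF P i
    have := f0_le hF P (i + 2)
    linarith
  · rw [hF.out 1 P (i + 1) (by omega)]; norm_num

lemma f22_le (hF : WFam len F) (P : ι) : F 2 P 2 ≤ 4 := by
  by_cases h : 1 + 1 ≤ len P
  · have e := hF.step 1 P 1 h
    norm_num at e
    rw [e]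
    have := f1_le hF P 0
    have := f1_le hF P 2
    linarith
  · rw [hF.out 2 P 2 (by omega)]; norm_num

lemma f10 (hF : WFam len F) (hlen : ∀ P, 1 ≤ len P) (P : ι) : F 1 P 0 = (Fintype.card ι : ℤ) := by
  have e := hF.zero 0 P
  rw [zero_add] at e
  rw [e, Finset.sum_congr rfl fun Q _ => hF.ini Q 1 (hlen Q)]
  simp

lemma f20 (hF : WFam len F) (hlen : ∀ P, 2 ≤ len P) (P : ι) :
    F 2 P 0 = 2 * (Fintype.card ι : ℤ) := by
  have e := hF.zero 1 P
  norm_num at e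
  rw [e, Finset.sum_congr rfl fun Q _ => show F 1 Q 1 = 2 by
    have e := hF.step 0 Q 0 (by have := hlen Q; omega)
    norm_num at e
    rw [e, hF.ini Q 0 (by omega), hF.ini Q 2 (hlen Q)]
    norm_num]
  simp
  ring

/-- the value at the end of a leaf at the centre -/
lemma f11 (hF : WFam len F) {P : ι} (hP : len P = 1) : F 1 P 1 = 1 := by
  have e := hF.step 0 P 0 (by omega)
  norm_num at e
  rw [e, hF.ini P 0 (by omega), hF.out 0 P 2 (by omega)]
  norm_num

end GP39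

open GP39 in
/-- (GP) -/
theorem gp : StGP := by
  intro ι _ _ len F A hA hcard _ hF hnn hm1 _ hY1 hY2 b J hb hJ hJl
  have hlen : ∀ P, 1 ≤ len P := fun P => (hA P).1
  have hl4 : (4 : ℤ) ≤ (Fintype.card ι : ℤ) := by exact_mod_cast hcard
  have f10' := f10 hF hlen
  have f12 := f1_le hF A 1
  norm_num at f12
  obtain ⟨L, hL⟩ : ∃ L : Finset ι, L = univ.filter (fun P => len P = 1) := ⟨_, rfl⟩
  have hLmem : ∀ P, P ∈ L ↔ len P = 1 := fun P => by rw [hL]; simp
  have hLJ : L ⊆ J := fun P hP => hJl P ((hLmem P).mp hP)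
  rw [← hL]
  obtain ⟨l, hl⟩ : ∃ l : ℤ, l = (Fintype.card ι : ℤ) := ⟨_, rfl⟩
  rw [← hl] at hl4 ⊢
  have h0 : ∀ k, F k A 2 ≤ F k A 0 := fun k => (hm1 k A 1).trans (hm1 k A 0)
  have hb2 : l * F b A 2 ≤ 2 * F b A 0 := by rw [hl]; exact hY1 b (Or.inr hb)
  -- products over all of `J`
  have hp2 : 0 ≤ ∏ R ∈ J, F (len R) A 2 := Finset.prod_nonneg fun R _ => hnn _ _ _
  have hp0 : 0 ≤ ∏ R ∈ J, F (len R) A 0 := Finset.prod_nonneg fun R _ => hnn _ _ _
  -- third statement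
  have h3 : (L.card : ℤ) * l ^ 2 * (F b A 2 * ∏ R ∈ J, F (len R) A 2) ≤
      4 * (F b A 0 * ∏ R ∈ J, F (len R) A 0) := by
    rcases Nat.eq_zero_or_pos L.card with h | h
    · rw [h]
      have := mul_nonneg (hnn b A 0) hp0
      simp only [Nat.cast_zero, zero_mul]
      linarith
    · obtain ⟨m, hm⟩ : ∃ m, L.card = m + 1 := ⟨L.card - 1, by omega⟩
      rw [← Finset.prod_sdiff hLJ, ← Finset.prod_sdiff (f := fun R => F (len R) A 0) hLJ,
        Finset.prod_congr (s₁ := L) rfl fun R hR => show F (len R) A 2 = F 1 A 2 by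
          rw [(hLmem R).mp hR],
        Finset.prod_congr (s₁ := L) rfl fun R hR => show F (len R) A 0 = l by
          rw [(hLmem R).mp hR, f10', hl],
        Finset.prod_const, Finset.prod_const, hm]
      have q2 : 0 ≤ ∏ R ∈ J \ L, F (len R) A 2 := Finset.prod_nonneg fun R _ => hnn _ _ _
      have q0 : ∏ R ∈ J \ L, F (len R) A 2 ≤ ∏ R ∈ J \ L, F (len R) A 0 :=
        Finset.prod_le_prod (fun R _ => hnn _ _ _) fun R _ => h0 _
      generalize ∏ R ∈ J \ L, F (len R) A 2 = p at q2 q0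
      generalize ∏ R ∈ J \ L, F (len R) A 0 = r at q0
      have hx : F 1 A 2 ^ (m + 1) ≤ 2 ^ (m + 1) := pow_le_pow_left₀ (hnn _ _ _) f12 _
      have hx0 : 0 ≤ F 1 A 2 ^ (m + 1) := pow_nonneg (hnn _ _ _) _
      have e1 : p * F 1 A 2 ^ (m + 1) ≤ r * 2 ^ (m + 1) := mul_le_mul q0 hx hx0 (q2.trans q0)
      have e2 : (l * F b A 2) * (p * F 1 A 2 ^ (m + 1)) ≤ (2 * F b A 0) * (r * 2 ^ (m + 1)) :=
        mul_le_mul hb2 e1 (mul_nonneg q2 hx0) (by have := hnn b A 0; linarith)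
      have e3 := pow1 hl4 m
      have e4 : 0 ≤ F b A 0 * r := mul_nonneg (hnn _ _ _) (q2.trans q0)
      have e5 : (0 : ℤ) ≤ ((m : ℤ) + 1) * l := by positivity
      calc ((m + 1 : ℕ) : ℤ) * l ^ 2 * (F b A 2 * (p * F 1 A 2 ^ (m + 1)))
          = (((m : ℤ) + 1) * l) * ((l * F b A 2) * (p * F 1 A 2 ^ (m + 1))) := by
            push_cast; ring
        _ ≤ (((m : ℤ) + 1) * l) * ((2 * F b A 0) * (r * 2 ^ (m + 1))) :=
            mul_le_mul_of_nonneg_left e2 e5
        _ = 4 * l * (F b A 0 * r) * (((m : ℤ) + 1) * 2 ^ m) := by ring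
        _ ≤ 4 * l * (F b A 0 * r) * l ^ m :=
            mul_le_mul_of_nonneg_left e3 (mul_nonneg (by linarith) e4)
        _ = 4 * (F b A 0 * (r * l ^ (m + 1))) := by ring
  refine ⟨?_, ?_, h3, ?_⟩
  · -- first statement
    rcases Nat.eq_zero_or_pos L.card with h | h
    · -- no leaf at the centre
      have hlen2 : ∀ P, 2 ≤ len P := by
        intro P
        have h1 := hlen P
        have h2 : P ∉ L := by
          rw [Finset.card_eq_zero.mp h]
          simp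
        rw [hLmem] at h2
        omega
      obtain ⟨R₀, hR₀⟩ := hJ
      have hR : l * F (len R₀) A 2 ≤ 2 * F (len R₀) A 0 := by
        by_cases h2 : len R₀ = 2
        · rw [h2, f20 hF hlen2 A, ← hl]
          have := f22_le hF A
          nlinarith
        · rw [hl]
          exact hY1 _ (Or.inr (by have := hlen2 R₀; omega))
      rw [← Finset.mul_prod_erase J _ hR₀,
        ← Finset.mul_prod_erase J (fun R => F (len R) A 0) hR₀]
      have q2 : 0 ≤ ∏ R ∈ J.erase R₀, F (len R) A 2 := Finset.prod_nonneg fun R _ => hnn _ _ _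
      have q0 : ∏ R ∈ J.erase R₀, F (len R) A 2 ≤ ∏ R ∈ J.erase R₀, F (len R) A 0 :=
        Finset.prod_le_prod (fun R _ => hnn _ _ _) fun R _ => h0 _
      generalize ∏ R ∈ J.erase R₀, F (len R) A 2 = p at q2 q0
      generalize ∏ R ∈ J.erase R₀, F (len R) A 0 = r at q0
      have n1 := hnn b A 0
      have n2 := hnn (len R₀) A 0
      have n3 := hnn (len R₀) A 2
      have n4 : 0 ≤ l * F (len R₀) A 2 := mul_nonneg (by linarith) n3
      have e1 : (l * F b A 2) * (l * F (len R₀) A 2) ≤ (2 * F b A 0) * (2 * F (len R₀) A 0) :=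
        mul_le_mul hb2 hR n4 (by linarith)
      have n5 : 0 ≤ (2 * F b A 0) * (2 * F (len R₀) A 0) :=
        mul_nonneg (by linarith) (by linarith)
      calc l ^ 2 * (F b A 2 * (F (len R₀) A 2 * p))
          = ((l * F b A 2) * (l * F (len R₀) A 2)) * p := by ring
        _ ≤ ((2 * F b A 0) * (2 * F (len R₀) A 0)) * r := mul_le_mul e1 q0 q2 n5
        _ = 4 * (F b A 0 * (F (len R₀) A 0 * r)) := by ring
    · refine le_trans ?_ h3
      have h1 : (1 : ℤ) ≤ L.card := by exact_mod_cast h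
      have h2 : 0 ≤ l ^ 2 * (F b A 2 * ∏ R ∈ J, F (len R) A 2) :=
        mul_nonneg (sq_nonneg _) (mul_nonneg (hnn _ _ _) hp2)
      nlinarith
  · -- second statement
    intro P hP
    refine mul_le_mul (hY2 b P A (by omega) hP) ?_ (Finset.prod_nonneg fun R _ => hnn _ _ _)
      (hnn _ _ _)
    exact Finset.prod_le_prod (fun R _ => hnn _ _ _) fun R _ => hY2 _ P A (hlen R) hP
  · -- fourth statement
    intro P hP
    have hPL : P ∈ L := (hLmem P).mpr hP
    have h : 0 < L.card := Finset.card_pos.mpr ⟨P, hPL⟩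
    obtain ⟨m, hm⟩ : ∃ m, L.card = m + 1 := ⟨L.card - 1, by omega⟩
    rw [← Finset.prod_sdiff hLJ, ← Finset.prod_sdiff (f := fun R => F (len R) A 0) hLJ,
      Finset.prod_congr (s₁ := L) rfl fun R hR => show F (len R) P 1 = 1 by
        rw [(hLmem R).mp hR, f11 hF hP],
      Finset.prod_congr (s₁ := L) rfl fun R hR => show F (len R) A 0 = l by
        rw [(hLmem R).mp hR, f10', hl],
      Finset.prod_const, Finset.prod_const, hm]
    have k0 : ∀ k, F k P 1 ≤ F k A 0 := fun k => by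
      rw [hF.ctr k A P]
      exact hm1 k P 0
    have q2 : 0 ≤ ∏ R ∈ J \ L, F (len R) P 1 := Finset.prod_nonneg fun R _ => hnn _ _ _
    have q0 : ∏ R ∈ J \ L, F (len R) P 1 ≤ ∏ R ∈ J \ L, F (len R) A 0 :=
      Finset.prod_le_prod (fun R _ => hnn _ _ _) fun R _ => k0 _
    generalize ∏ R ∈ J \ L, F (len R) P 1 = p at q2 q0
    generalize ∏ R ∈ J \ L, F (len R) A 0 = r at q0
    have e1 : F b P 1 * p ≤ F b A 0 * r := mul_le_mul (k0 b) q0 q2 (hnn _ _ _)
    have e2 : 0 ≤ F b A 0 * r := mul_nonneg (hnn _ _ _) (q2.trans q0)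
    have e3 := pow2 hl4 m
    have e5 : (0 : ℤ) ≤ ((m : ℤ) + 1) * l := by positivity
    calc ((m + 1 : ℕ) : ℤ) * l * (F b P 1 * (p * 1 ^ (m + 1)))
        = (((m : ℤ) + 1) * l) * (F b P 1 * p) := by push_cast; rw [one_pow]; ring
      _ ≤ (((m : ℤ) + 1) * l) * (F b A 0 * r) := mul_le_mul_of_nonneg_left e1 e5
      _ = l * (F b A 0 * r) * ((m : ℤ) + 1) := by ring
      _ ≤ l * (F b A 0 * r) * l ^ m :=
          mul_le_mul_of_nonneg_left e3 (mul_nonneg (by linarith) e2)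
      _ = F b A 0 * (r * l ^ (m + 1)) := by ring

end SP24
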