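import Pool.Agent.Lib.MP_4e7250_co.SP.Stmts24
import Pool.Agent.Lib.MP_4e7250_co.Path

/-! Spiders (MP_4e7250_co): homomorphisms from a path and from a spider are sums of numbers of
walks. -/

namespace SP24.H90

open Finset Pool.Agent.Lib.MP_4e7250_co.PathAux

theorem W_card {V : Type} [Fintype V] (G : SimpleGraph V) (k : ℕ) (x : V) :
    W G k x = (Nat.card (Wk G k x) : ℤ) := by
  classical
  induction k generalizing x with
  | zero =>
    rw [card_zero]
    rfl
  | succ k ih =>
    rw [Nat.card_congr (stepEquiv G k x), Nat.card_sigma]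
    push_cast
    show Ad G (It G (fun _ => 1) k) x = _
    unfold Ad
    have h : ∀ y, (if G.Adj x y then It G (fun _ => 1) k y else 0) =
        if G.Adj x y then (Nat.card (Wk G k y) : ℤ) else 0 := by
      intro y
      rw [← ih y]
      rfl
    rw [Finset.sum_congr rfl fun y _ => h y, ← Finset.sum_filter]
    rw [Finset.sum_subtype (p := fun y => G.Adj x y) (univ.filter fun y => G.Adj x y)
      (fun y => by simp) (fun y => (Nat.card (Wk G k y) : ℤ))]

/-- The map on the spider given by walks along the legs. -/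
def glue {ι : Type} {len : ι → ℕ} {V : Type} {G : SimpleGraph V} (x : V)
    (w : ∀ P, Wk G (len P) x) : Vert len → V
  | none => x
  | some ⟨P, i⟩ => (w P).1 i.succ

theorem glue_rel {ι : Type} {len : ι → ℕ} {V : Type} {G : SimpleGraph V} (x : V)
    (w : ∀ P, Wk G (len P) x) : ∀ a b, spRel len a b → G.Adj (glue x w a) (glue x w b)
  | none, none, h => h.elim
  | none, some ⟨P, j⟩, h => by
    have hj : j.val = 0 := h
    have h1 := (w P).2.2 j
    have h2 : j.castSucc = 0 := by ext; simpa using hj
    rw [h2, (w P).2.1] at h1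
    exact h1
  | some ⟨P, i⟩, none, h => h.elim
  | some ⟨P, i⟩, some ⟨Q, j⟩, h => by
    obtain ⟨rfl, hj⟩ : P = Q ∧ j.val = i.val + 1 := h
    have h1 := (w P).2.2 j
    have h2 : j.castSucc = i.succ := by ext; simpa using hj
    rw [h2] at h1
    exact h1

/-- A homomorphism from the spider is a family of walks along the legs. -/
def spEquiv {ι : Type} (len : ι → ℕ) {V : Type} (G : SimpleGraph V) :
    (spider len →g G) ≃ Σ x : V, ∀ P, Wk G (len P) x where
  toFun f := ⟨f none, fun P => ⟨Fin.cases (f none) (fun j => f (some ⟨P, j⟩)), rfl, fun i => by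
    rcases i with ⟨i, hi⟩
    rcases i with _ | i
    · show G.Adj (f none) (f (some ⟨P, ⟨0, hi⟩⟩))
      refine f.map_rel ?_
      exact ⟨by simp, Or.inl rfl⟩
    · show G.Adj (f (some ⟨P, ⟨i, _⟩⟩)) (f (some ⟨P, ⟨i + 1, hi⟩⟩))
      refine f.map_rel ?_
      refine ⟨?_, Or.inl ⟨rfl, rfl⟩⟩
      intro h
      simp at h⟩⟩
  invFun p := ⟨glue p.1 p.2, fun {a b} h => by
    rcases h.2 with h | h
    · exact glue_rel p.1 p.2 a b h
    · exact (glue_rel p.1 p.2 b a h).symm⟩
  left_inv f := by
    ext a
    rcases a with _ | ⟨P, i⟩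
    · rfl
    · rfl
  right_inv p := by
    obtain ⟨x, w⟩ := p
    have : (fun P => (⟨Fin.cases x (fun j => (w P).1 j.succ), rfl, fun i => by
      have h1 := (w P).2.2 i
      have h2 : (Fin.cases x (fun j => (w P).1 j.succ) : Fin (len P + 1) → V) = (w P).1 := by
        funext j
        refine Fin.cases ?_ (fun j => ?_) j
        · exact (w P).2.1.symm
        · rfl
      rw [h2]
      exact h1⟩ : Wk G (len P) x)) = w := by
      funext P
      apply Subtype.ext
      funext j
      refine Fin.cases ?_ (fun j => ?_) j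
      · exact (w P).2.1.symm
      · rfl
    exact congrArg (Sigma.mk x) this

end SP24.H90

namespace SP24

open Finset Pool.Agent.Lib.MP_4e7250_co.PathAux

theorem hp : StHP := by
  intro V _ G k
  rw [Nat.card_congr ((homEquiv G k).trans (fibEquiv G k)), Nat.card_sigma]
  push_cast
  exact Finset.sum_congr rfl fun x _ => (H90.W_card G k x).symm

theorem hs : StHS := by
  intro ι _ _ len V _ G
  rw [Nat.card_congr (H90.spEquiv len G), Nat.card_sigma]
  push_cast
  refine Finset.sum_congr rfl fun x _ => ?_
  rw [Nat.card_pi]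
  push_cast
  exact Finset.prod_congr rfl fun P _ => (H90.W_card G (len P) x).symm

end SP24
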