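import Pool.Agent.Lib.MP_4e7250_co.SP.Stmts24

/-! Spiders (MP_4e7250_co), module ID: the identity at the centre. -/

namespace SP24

open Finset

namespace ID88

/-- The bilinear form in coordinates (the centre is read off on the leg `A`). -/
def B {ι : Type} [Fintype ι] (len : ι → ℕ) (A : ι) (f g : ι → ℕ → ℤ) : ℤ :=
  f A 0 * g A 0 + ∑ P, ∑ i ∈ range (len P), f P (i + 1) * g P (i + 1)

lemma seq (L : ℕ) (x y : ℕ → ℤ) (hx : x (L + 1) = 0) (hy : y (L + 1) = 0) :
    x 1 * y 0 + ∑ m ∈ range L, (x m + x (m + 2)) * y (m + 1) =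
      y 1 * x 0 + ∑ m ∈ range L, x (m + 1) * (y m + y (m + 2)) := by
  have h1 : ∀ n : ℕ, ∑ m ∈ range n, ((x m + x (m + 2)) * y (m + 1) - x (m + 1) * (y m + y (m + 2)))
      = (x 0 * y 1 - x 1 * y 0) - (x n * y (n + 1) - x (n + 1) * y n) := by
    intro n
    induction n with
    | zero => simp
    | succ n ih =>
      rw [sum_range_succ, ih]
      ring
  have h2 := h1 L
  rw [sum_sub_distrib, hx, hy] at h2
  linarith

/-- One step of self-adjointness. -/
lemma adj_step {ι : Type} [Fintype ι] (len : ι → ℕ) (A : ι) (F U : ℕ → ι → ℕ → ℤ)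
    (hF : Fam len F) (hU : Fam len U) (i j : ℕ) :
    B len A (F (i + 1)) (U j) = B len A (F i) (U (j + 1)) := by
  unfold B
  rw [hF.zero, hU.zero]
  have e1 : ∑ P, ∑ m ∈ range (len P), F (i + 1) P (m + 1) * U j P (m + 1) =
      ∑ P, ∑ m ∈ range (len P), (F i P m + F i P (m + 2)) * U j P (m + 1) := by
    refine sum_congr rfl fun P _ => sum_congr rfl fun m hm => ?_
    rw [hF.step i P m (by have := mem_range.1 hm; omega)]
  have e2 : ∑ P, ∑ m ∈ range (len P), F i P (m + 1) * U (j + 1) P (m + 1) =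
      ∑ P, ∑ m ∈ range (len P), F i P (m + 1) * (U j P m + U j P (m + 2)) := by
    refine sum_congr rfl fun P _ => sum_congr rfl fun m hm => ?_
    rw [hU.step j P m (by have := mem_range.1 hm; omega)]
  rw [e1, e2, sum_mul, mul_sum, ← sum_add_distrib, ← sum_add_distrib]
  refine sum_congr rfl fun P _ => ?_
  have h := seq (len P) (F i P) (U j P) (hF.out i P _ (by omega)) (hU.out j P _ (by omega))
  rw [hF.ctr i A P, hU.ctr j A P]
  linarith

lemma adj_all {ι : Type} [Fintype ι] (len : ι → ℕ) (A : ι) (F U : ℕ → ι → ℕ → ℤ)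
    (hF : Fam len F) (hU : Fam len U) (k : ℕ) :
    B len A (F k) (U 0) = B len A (F 0) (U k) := by
  have h : ∀ i, i ≤ k → B len A (F (k - i)) (U i) = B len A (F k) (U 0) := by
    intro i
    induction i with
    | zero => intro _; rfl
    | succ i ih =>
      intro hi
      rw [← ih (by omega)]
      have h1 := adj_step len A F U hF hU (k - (i + 1)) i
      have h2 : k - (i + 1) + 1 = k - i := by omega
      rw [h2] at h1
      exact h1.symm
  have := h k le_rfl
  rw [Nat.sub_self] at this
  exact this.symm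

/-- The sum over one leg of the neighbours. -/
lemma leg (L : ℕ) (_ : 1 ≤ L) (x : ℕ → ℤ) (hx : x (L + 1) = 0) :
    ∑ m ∈ range L, (x m + x (m + 2)) = 2 * ∑ m ∈ range L, x (m + 1) + x 0 - x 1 - x L := by
  have h1 : ∀ n : ℕ, ∑ m ∈ range n, (x m + x (m + 2)) =
      2 * ∑ m ∈ range n, x (m + 1) + x 0 - x 1 - x n + x (n + 1) := by
    intro n
    induction n with
    | zero => simp
    | succ n ih =>
      rw [sum_range_succ, sum_range_succ, ih]
      ring
  rw [h1 L, hx]
  ring

end ID88

open ID88 in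
theorem id24 : StID := by
  intro ι _ _ len F U A hlen hF hU k
  -- the form with `U 0` is the sum over the leg `A` and the centre
  have hB1 : ∀ k, B len A (F k) (U 0) = F k A 0 + ∑ i ∈ range (len A), F k A (i + 1) := by
    intro k
    unfold B
    rw [hU.ini0, mul_one, ← add_sum_erase univ _ (mem_univ A)]
    have h1 : ∑ P ∈ univ.erase A, ∑ i ∈ range (len P), F k P (i + 1) * U 0 P (i + 1) = 0 := by
      refine sum_eq_zero fun P hP => sum_eq_zero fun i _ => ?_
      rw [hU.iniP P i (ne_of_mem_erase hP), mul_zero]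
    rw [h1, add_zero]
    congr 1
    refine sum_congr rfl fun i hi => ?_
    rw [hU.iniA (i + 1) (by have := mem_range.1 hi; omega), mul_one]
  have hB2 : ∀ k, B len A (F 0) (U k) = U k A 0 + ∑ P, ∑ i ∈ range (len P), U k P (i + 1) := by
    intro k
    unfold B
    rw [hF.ini A 0 (Nat.zero_le _), one_mul]
    congr 1
    refine sum_congr rfl fun P _ => sum_congr rfl fun i hi => ?_
    rw [hF.ini P (i + 1) (by have := mem_range.1 hi; omega), one_mul]
  have hS : ∀ k, F k A 0 + ∑ i ∈ range (len A), F k A (i + 1) =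
      U k A 0 + ∑ P, ∑ i ∈ range (len P), U k P (i + 1) := by
    intro k
    rw [← hB1, ← hB2]
    exact adj_all len A F U hF.toFam hU.toFam k
  -- the next values
  have hF1 : F (k + 1) A 0 + ∑ i ∈ range (len A), F (k + 1) A (i + 1) =
      2 * (F k A 0 + ∑ i ∈ range (len A), F k A (i + 1)) +
        (∑ P ∈ univ.erase A, F k P 1 - F k A 0) - F k A (len A) := by
    rw [hF.zero, ← add_sum_erase univ _ (mem_univ A)]
    have e : ∑ i ∈ range (len A), F (k + 1) A (i + 1) =
        ∑ i ∈ range (len A), (F k A i + F k A (i + 2)) :=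
      sum_congr rfl fun i hi => hF.step k A i (by have := mem_range.1 hi; omega)
    rw [e, leg (len A) (hlen A) (F k A) (hF.out k A _ (by omega))]
    ring
  have hU1 : U (k + 1) A 0 + ∑ P, ∑ i ∈ range (len P), U (k + 1) P (i + 1) =
      2 * (U k A 0 + ∑ P, ∑ i ∈ range (len P), U k P (i + 1)) +
        ((Fintype.card ι : ℤ) - 2) * U k A 0 - ∑ P, U k P (len P) := by
    rw [hU.zero]
    have e : ∑ P, ∑ i ∈ range (len P), U (k + 1) P (i + 1) =
        ∑ P, (2 * ∑ m ∈ range (len P), U k P (m + 1) + U k A 0 - U k P 1 - U k P (len P)) := by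
      refine sum_congr rfl fun P _ => ?_
      rw [hU.ctr k A P, ← leg (len P) (hlen P) (U k P) (hU.out k P _ (by omega))]
      exact sum_congr rfl fun i hi => hU.step k P i (by have := mem_range.1 hi; omega)
    rw [e, sum_sub_distrib, sum_sub_distrib, sum_add_distrib, ← mul_sum, sum_const, card_univ,
      nsmul_eq_mul]
    ring
  have h0 := hS k
  have h1 := hS (k + 1)
  rw [hF1, hU1, h0] at h1
  linarith

end SP24
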