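import Pool.Agent.Lib.MP_4e7250_co.SP.StmtB24

/-! Spiders (MP_4e7250_co): walks from the centre (KC). -/

namespace SP24

open Finset

section

variable {ι : Type} [Fintype ι] {len : ι → ℕ} {C : ℕ → ι → ℕ → ℤ}

theorem cf_nonneg36 (hC : CFam len C) : ∀ k P i, 0 ≤ C k P i := by
  intro k
  induction k with
  | zero =>
    intro P i
    rcases i with _ | i
    · rw [hC.ini0]; norm_num
    · rw [hC.iniP]
  | succ k ih =>
    intro P i
    rcases i with _ | i
    · rw [hC.zero]
      exact Finset.sum_nonneg fun Q _ => ih Q 1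
    · by_cases h : i + 1 ≤ len P
      · rw [hC.step k P i h]
        exact add_nonneg (ih P i) (ih P (i + 2))
      · rw [hC.out (k + 1) P (i + 1) (by omega)]

theorem cf_le36 (hC : CFam len C) (A : ι) (hA : ∀ P, 1 ≤ len P ∧ len P ≤ len A) :
    ∀ k P i, C k P i ≤ C k A i := by
  intro k
  induction k with
  | zero =>
    intro P i
    rcases i with _ | i
    · rw [hC.ini0, hC.ini0]
    · rw [hC.iniP, hC.iniP]
  | succ k ih =>
    intro P i
    rcases i with _ | i
    · exact (hC.ctr (k + 1) P A).le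
    · by_cases h : i + 1 ≤ len P
      · rw [hC.step k P i h, hC.step k A i (h.trans (hA P).2)]
        exact add_le_add (ih P i) (ih P (i + 2))
      · rw [hC.out (k + 1) P (i + 1) (by omega)]
        exact cf_nonneg36 hC _ _ _

theorem cf_far36 (hC : CFam len C) (A : ι) : ∀ k i, k < i → C k A i = 0 := by
  intro k
  induction k with
  | zero =>
    intro i hi
    rcases i with _ | i
    · omega
    · exact hC.iniP A i
  | succ k ih =>
    intro i hi
    rcases i with _ | i
    · omega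
    · by_cases h : i + 1 ≤ len A
      · rw [hC.step k A i h, ih i (by omega), ih (i + 2) (by omega), add_zero]
      · exact hC.out (k + 1) A (i + 1) (by omega)

theorem cf_eq36 (hC : CFam len C) (A : ι) (hA : ∀ P, 1 ≤ len P ∧ len P ≤ len A) (q : ℕ) :
    ∀ k P, k ≤ q → q ≤ len P → ∀ i, C k P i = C k A i := by
  intro k
  induction k with
  | zero =>
    intro P _ _ i
    rcases i with _ | i
    · rw [hC.ini0, hC.ini0]
    · rw [hC.iniP, hC.iniP]
  | succ k ih =>
    intro P hk hP i
    rcases i with _ | i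
    · exact hC.ctr (k + 1) P A
    · by_cases h : i + 1 ≤ len P
      · rw [hC.step k P i h, hC.step k A i (h.trans (hA P).2), ih P (by omega) hP i,
          ih P (by omega) hP (i + 2)]
      · rw [hC.out (k + 1) P (i + 1) (by omega), cf_far36 hC A (k + 1) (i + 1) (by omega)]

theorem cf_step36 (hC : CFam len C) (A : ι) (q : ℕ) (hq : q ≤ len A) :
    ∀ k i, k + 1 ≤ q → C (k + 1) A (i + 1) = C k A i + C k A (i + 2) := by
  intro k i hk
  by_cases h : i + 1 ≤ len A
  · exact hC.step k A i h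
  · rw [hC.out (k + 1) A (i + 1) (by omega), cf_far36 hC A k i (by omega),
      cf_far36 hC A k (i + 2) (by omega), add_zero]

theorem cf_ctr36 (hC : CFam len C) (A : ι) (hA : ∀ P, 1 ≤ len P ∧ len P ≤ len A) (q : ℕ)
    (h3 : 3 ≤ (univ.filter (fun P => q ≤ len P)).card) (k : ℕ) (hk : k + 1 ≤ q) :
    3 * C (k + 1) A 1 + ((Fintype.card ι : ℤ) - 3) * C k A 0 ≤ C (k + 2) A 0 := by
  classical
  rw [hC.zero (k + 1) A]
  have hx : C k A 0 ≤ C (k + 1) A 1 := by
    rw [hC.step k A 0 (hA A).1]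
    linarith [cf_nonneg36 hC k A (0 + 2)]
  set F := univ.filter (fun P => q ≤ len P) with hF
  have e : ∑ Q, C (k + 1) Q 1 = ∑ Q ∈ F, C (k + 1) Q 1 + ∑ Q ∈ Fᶜ, C (k + 1) Q 1 :=
    (Finset.sum_add_sum_compl F _).symm
  have e1 : ∑ Q ∈ F, C (k + 1) Q 1 = F.card * C (k + 1) A 1 := by
    rw [Finset.sum_congr rfl (fun Q hQ => cf_eq36 hC A hA q (k + 1) Q hk
      ((Finset.mem_filter.1 hQ).2) 1), Finset.sum_const, nsmul_eq_mul]
  have e2 : (Fᶜ.card : ℤ) * C k A 0 ≤ ∑ Q ∈ Fᶜ, C (k + 1) Q 1 := by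
    rw [← nsmul_eq_mul, ← Finset.sum_const]
    refine Finset.sum_le_sum fun Q _ => ?_
    rw [hC.step k Q 0 (hA Q).1, ← hC.ctr k Q A]
    linarith [cf_nonneg36 hC k Q (0 + 2)]
  have e3 : (F.card : ℤ) + Fᶜ.card = Fintype.card ι := by
    exact_mod_cast Finset.card_add_card_compl F
  have e4 : (3 : ℤ) ≤ F.card := by exact_mod_cast h3
  rw [e, e1]
  have e5 : (Fᶜ.card : ℤ) = Fintype.card ι - F.card := by linarith
  rw [e5] at e2
  nlinarith [mul_nonneg (sub_nonneg.2 e4) (sub_nonneg.2 hx)]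

theorem cf_decay36 (hC : CFam len C) (A : ι) (hA : ∀ P, 1 ≤ len P ∧ len P ≤ len A) (q : ℕ)
    (h4 : 4 ≤ Fintype.card ι) (h3 : 3 ≤ (univ.filter (fun P => q ≤ len P)).card)
    (hq : q ≤ len A) :
    ∀ k i, k ≤ q → 2 * (Fintype.card ι : ℤ) * C k A (i + 2) ≤ 3 * C k A i := by
  have h4' : (4 : ℤ) ≤ Fintype.card ι := by exact_mod_cast h4
  intro k
  induction k using Nat.strong_induction_on with
  | _ k ih =>
    intro i hk
    rcases k with _ | k
    · rw [hC.iniP A (i + 1), mul_zero]
      exact mul_nonneg (by norm_num) (cf_nonneg36 hC _ _ _)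
    rcases i with _ | i
    · rcases k with _ | k
      · rw [cf_step36 hC A q hq 0 1 hk, hC.iniP A 0, hC.iniP A 2]
        have := cf_nonneg36 hC 1 A 0
        simp only [add_zero, mul_zero]
        linarith
      · have h1 := cf_ctr36 hC A hA q h3 k (by omega)
        have h2 := ih (k + 1) (by omega) 1 (by omega)
        have h5 := ih k (by omega) 0 (by omega)
        have h6 : C (k + 1) A 1 = C k A 0 + C k A 2 := cf_step36 hC A q hq k 0 (by omega)
        have h7 : C (k + 1 + 1) A 2 = C (k + 1) A 1 + C (k + 1) A 3 :=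
          cf_step36 hC A q hq (k + 1) 1 (by omega)
        have hy := cf_nonneg36 hC k A 0
        simp only [zero_add] at h5
        have h2' : 2 * (Fintype.card ι : ℤ) * C (k + 1) A 3 ≤ 3 * C (k + 1) A 1 := h2
        have h8 : 2 * (Fintype.card ι : ℤ) * C (k + 1) A 1 ≤
            (2 * (Fintype.card ι : ℤ) + 3) * C k A 0 := by
          rw [h6]; linarith
        have h9 : 2 * C (k + 1) A 1 ≤ 3 * C k A 0 := by
          by_contra hcon
          push Not at hcon
          nlinarith [mul_lt_mul_of_pos_left hcon (show (0 : ℤ) < Fintype.card ι by linarith),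
            mul_nonneg (show (0 : ℤ) ≤ (Fintype.card ι : ℤ) - 3 by linarith) hy]
        show 2 * (Fintype.card ι : ℤ) * C (k + 1 + 1) A 2 ≤ 3 * C (k + 1 + 1) A 0
        rw [h7]
        nlinarith [mul_le_mul_of_nonneg_left h9 (show (0 : ℤ) ≤ (Fintype.card ι : ℤ) - 3 by linarith)]
    · rw [cf_step36 hC A q hq k (i + 2) hk, cf_step36 hC A q hq k i hk]
      have h1 := ih k (by omega) i (by omega)
      have h2 := ih k (by omega) (i + 2) (by omega)
      rw [mul_add, mul_add]
      exact add_le_add h1 h2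

end

theorem kc : StKC := by
  intro ι _ _ len C A q hA h4 h3 hC
  have hq : q ≤ len A := by
    obtain ⟨P, hP⟩ := Finset.card_pos.1 (lt_of_lt_of_le (by norm_num) h3)
    exact ((Finset.mem_filter.1 hP).2).trans (hA P).2
  exact ⟨cf_nonneg36 hC, cf_le36 hC A hA, cf_eq36 hC A hA q, cf_far36 hC A,
    cf_step36 hC A q hq, cf_decay36 hC A hA q h4 h3 hq⟩

end SP24
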