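import Pool.Agent.Lib.MP_4e7250_co.SP.Stmts24

/-! Spiders (MP_4e7250_co): module KR. -/

namespace SP24

open Finset

namespace KR39

variable {ι : Type} [Fintype ι] [DecidableEq ι] {len : ι → ℕ} {F F' : ℕ → ι → ℕ → ℤ}

/-- finite speed of propagation -/
lemma prop (hF : Fam len F) (Q : ι) (J : ℕ) (hJ : 1 ≤ J)
    (h0 : ∀ R i, F 0 R i = if R = Q ∧ i = J then 1 else 0) :
    ∀ t, (∀ R, R ≠ Q → ∀ i, t < i + J → F t R i = 0) ∧
      (∀ i, t + i < J → F t Q i = 0) ∧ (∀ i, t + J < i → F t Q i = 0) := by
  intro t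
  induction t with
  | zero =>
    refine ⟨fun R hR i _ => ?_, fun i hi => ?_, fun i hi => ?_⟩
    · rw [h0, if_neg (fun h => hR h.1)]
    · rw [h0, if_neg (fun h => by omega)]
    · rw [h0, if_neg (fun h => by omega)]
  | succ t ih =>
    obtain ⟨ih1, ih2, ih3⟩ := ih
    have hc : ∀ R, t + 1 < J → F (t + 1) R 0 = 0 := by
      intro R ht
      rw [hF.zero t R]
      apply Finset.sum_eq_zero
      intro R' _
      by_cases hR' : R' = Q
      · rw [hR']; exact ih2 1 (by omega)
      · exact ih1 R' hR' 1 (by omega)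
    refine ⟨fun R hR i hi => ?_, fun i hi => ?_, fun i hi => ?_⟩
    · rcases i with _ | i
      · exact hc R (by omega)
      · by_cases hi2 : i + 1 ≤ len R
        · rw [hF.step t R i hi2, ih1 R hR i (by omega), ih1 R hR (i + 2) (by omega), add_zero]
        · exact hF.out _ R _ (by omega)
    · rcases i with _ | i
      · exact hc Q (by omega)
      · by_cases hi2 : i + 1 ≤ len Q
        · rw [hF.step t Q i hi2, ih2 i (by omega), ih2 (i + 2) (by omega), add_zero]
        · exact hF.out _ Q _ (by omega)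
    · rcases i with _ | i
      · omega
      · by_cases hi2 : i + 1 ≤ len Q
        · rw [hF.step t Q i hi2, ih3 i (by omega), ih3 (i + 2) (by omega), add_zero]
        · exact hF.out _ Q _ (by omega)

/-- exchange of two legs -/
lemma swap (hF : Fam len F) (hF' : Fam len F') (P Q : ι) (J m : ℕ)
    (hJ : 1 ≤ J) (hJm : J ≤ m) (hm : ∀ R, m ≤ len R)
    (h0 : ∀ R i, F 0 R i = if R = Q ∧ i = J then 1 else 0)
    (h0' : ∀ R i, F' 0 R i = if R = P ∧ i = J then 1 else 0) :
    ∀ t, t ≤ m → (∀ R, R ≠ Q → ∀ i, F t R i = F' t (Equiv.swap P Q R) i) ∧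
      (∀ i, t + i + J ≤ 2 * m + 1 → F t Q i = F' t P i) := by
  have hsw : ∀ R, R ≠ Q → Equiv.swap P Q R ≠ P := by
    intro R hR h
    apply hR
    have := congrArg (Equiv.swap P Q) h
    rw [Equiv.swap_apply_self, Equiv.swap_apply_left] at this
    exact this
  intro t
  induction t with
  | zero =>
    intro _
    refine ⟨fun R hR i => ?_, fun i _ => ?_⟩
    · rw [h0, h0', if_neg (fun h => hR h.1), if_neg (fun h => hsw R hR h.1)]
    · rw [h0, h0']
      simp
  | succ t ih =>
    intro ht
    obtain ⟨ih1, ih2⟩ := ih (by omega)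
    have hp := prop hF Q J hJ h0 (t + 1)
    have hp' := prop hF' P J hJ h0' (t + 1)
    have hc : ∀ R R', F (t + 1) R 0 = F' (t + 1) R' 0 := by
      intro R R'
      rw [hF.zero t R, hF'.zero t R', ← Equiv.sum_comp (Equiv.swap P Q) (fun Q' => F' t Q' 1)]
      refine Finset.sum_congr rfl (fun R'' _ => ?_)
      by_cases h : R'' = Q
      · rw [h, Equiv.swap_apply_right]
        exact ih2 1 (by omega)
      · exact ih1 R'' h 1
    refine ⟨fun R hR i => ?_, fun i hi => ?_⟩
    · rcases i with _ | i
      · exact hc _ _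
      · by_cases h1 : i + 1 ≤ len R
        · by_cases h2 : i + 1 ≤ len (Equiv.swap P Q R)
          · rw [hF.step t R i h1, hF'.step t _ i h2, ih1 R hR i, ih1 R hR (i + 2)]
          · rw [hF'.out (t + 1) _ (i + 1) (by omega)]
            refine hp.1 R hR (i + 1) ?_
            have := hm (Equiv.swap P Q R)
            omega
        · rw [hF.out (t + 1) R (i + 1) (by omega)]
          refine (hp'.1 _ (hsw R hR) (i + 1) ?_).symm
          have := hm R
          omega
    · rcases i with _ | i
      · exact hc _ _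
      · by_cases h1 : i + 1 ≤ m
        · have hQ := hm Q
          have hP := hm P
          rw [hF.step t Q i (by omega), hF'.step t P i (by omega), ih2 i (by omega),
            ih2 (i + 2) (by omega)]
        · rw [hp.2.2 (i + 1) (by omega), hp'.2.2 (i + 1) (by omega)]

lemma ini (Q : ι) (j : Fin (len Q)) (R : ι) (i : ℕ) (g : Vert len → ℤ)
    (hg : ∀ z, g z = if z = some ⟨Q, j⟩ then 1 else 0) :
    co g R i = if R = Q ∧ i = j.val + 1 then 1 else 0 := by
  rcases i with _ | i
  · simp only [co, hg]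
    rw [if_neg (by simp), if_neg (by omega)]
  · simp only [co]
    by_cases h : i < len R
    · rw [dif_pos h, hg]
      by_cases hR : R = Q
      · subst hR
        by_cases hi : i = j.val
        · subst hi
          simp
        · rw [if_neg, if_neg]
          · omega
          · intro h2
            apply hi
            have h3 := Option.some.inj h2
            have h4 := eq_of_heq (Sigma.mk.inj h3).2
            rw [← h4]
      · rw [if_neg, if_neg]
        · exact fun h2 => hR h2.1
        · intro h2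
          exact hR (Sigma.mk.inj (Option.some.inj h2)).1
    · rw [dif_neg h, if_neg]
      rintro ⟨rfl, h2⟩
      exact h (by have := j.isLt; omega)

end KR39

open KR39 in
/-- (KR) -/
theorem kr (h1 : StKN) (h2 : StCO) : StKR := by
  intro ι _ _ len hlen q hq P Q hPQ i j
  classical
  -- the family of the kernel
  have fam : ∀ (R : ι) (y : Fin (len R)), ∃ F : ℕ → ι → ℕ → ℤ, Fam len F ∧
      (∀ R' i', F 0 R' i' = if R' = R ∧ i' = y.val + 1 then 1 else 0) ∧
      ∀ t (R' : ι) (i' : Fin (len R')),
        F t R' (i'.val + 1) = N (spider len) t (some ⟨R', i'⟩) (some ⟨R, y⟩) := by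
    intro R y
    refine ⟨fun k => co (It (spider len) (fun z => if z = some ⟨R, y⟩ then 1 else 0) k),
      h2 ι len hlen _, fun R' i' => ?_, fun t R' i' => ?_⟩
    · simp only [It]
      exact ini R y R' i' _ (fun z => rfl)
    · simp only [co, N]
      rw [dif_pos i'.isLt]
      congr
      funext z
      by_cases hz : z = some ⟨R, y⟩
      · rw [if_pos hz, if_pos hz]
      · rw [if_neg hz, if_neg hz]
  obtain ⟨F, hF, hF0, hFN⟩ := fam Q j
  have key1 : q < i.val + j.val + 2 → N (spider len) q (some ⟨P, i⟩) (some ⟨Q, j⟩) = 0 := by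
    intro hlt
    rw [← hFN]
    exact (prop hF Q (j.val + 1) (by omega) hF0 q).1 P hPQ (i.val + 1) (by omega)
  refine ⟨key1, fun hi hj => ?_⟩
  rcases hq with hq | hq
  · -- long legs
    obtain ⟨F', hF', hF0', hFN'⟩ := fam P ⟨j.val, hj⟩
    by_cases hsmall : q < i.val + j.val + 2
    · rw [key1 hsmall]
      obtain ⟨F2, hF2, hF02, hFN2⟩ := fam Q ⟨i.val, hi⟩
      rw [← hFN2]
      exact ((prop hF2 Q (i.val + 1) (by omega) hF02 q).1 P hPQ (j.val + 1) (by omega)).symm
    · have hs := (swap hF hF' P Q (j.val + 1) q (by omega) (by omega) hq hF0 hF0' q le_rfl).1 P hPQ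
        (i.val + 1)
      rw [Equiv.swap_apply_left] at hs
      rw [← hFN q P i, hs, hFN' q Q ⟨i.val, hi⟩]
      exact (h1 _ (spider len) q).1 _ _
  · -- q ≤ 2
    by_cases hsmall : q < i.val + j.val + 2
    · rw [key1 hsmall]
      obtain ⟨F2, hF2, hF02, hFN2⟩ := fam Q ⟨i.val, hi⟩
      rw [← hFN2]
      exact ((prop hF2 Q (i.val + 1) (by omega) hF02 q).1 P hPQ (j.val + 1) (by omega)).symm
    · have hi0 : i.val = 0 := by omega
      have hj0 : j.val = 0 := by omega
      have e1 : i = ⟨j.val, hj⟩ := Fin.ext (by simp [hi0, hj0])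
      have e2 : j = ⟨i.val, hi⟩ := Fin.ext (by simp [hi0, hj0])
      rw [← e1, ← e2]

end SP24
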