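import Pool.Agent.Lib.MP_4e7250_co.SP.Stmts24

/-! Spiders (MP_4e7250_co): walks in any graph (SA, KN, PF). -/

namespace SP24

open Finset

section

variable {V : Type} [Fintype V] (G : SimpleGraph V)

theorem ad_sa24 (f g : V → ℤ) : ∑ x, Ad G f x * g x = ∑ x, f x * Ad G g x := by
  classical
  unfold Ad
  simp_rw [Finset.sum_mul, Finset.mul_sum]
  rw [Finset.sum_comm]
  refine Finset.sum_congr rfl (fun x _ => Finset.sum_congr rfl (fun y _ => ?_))
  by_cases h : G.Adj x y
  · have h' := h.symm
    simp [h, h']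
  · have h' : ¬ G.Adj y x := fun e => h e.symm
    simp [h, h']

theorem it_ad24 (f : V → ℤ) (k : ℕ) : It G (Ad G f) k = Ad G (It G f k) := by
  induction k with
  | zero => rfl
  | succ k ih =>
    show Ad G (It G (Ad G f) k) = Ad G (Ad G (It G f k))
    rw [ih]

theorem it_add24 (f : V → ℤ) (p m : ℕ) : It G (It G f m) p = It G f (p + m) := by
  induction p with
  | zero => simp [It]
  | succ p ih =>
    show Ad G (It G (It G f m) p) = It G f (p + 1 + m)
    rw [ih, show p + 1 + m = (p + m) + 1 from by ring]
    rfl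

theorem it_nonneg24 (f : V → ℤ) (hf : ∀ x, 0 ≤ f x) (k : ℕ) : ∀ x, 0 ≤ It G f k x := by
  classical
  induction k with
  | zero => exact hf
  | succ k ih =>
    intro x
    show 0 ≤ Ad G (It G f k) x
    unfold Ad
    refine Finset.sum_nonneg (fun y _ => ?_)
    split_ifs
    · exact ih y
    · exact le_rfl

end

theorem sa : StSA := by
  intro V _ G f g k
  induction k generalizing g with
  | zero => rfl
  | succ k ih =>
    have h1 : ∑ x, It G f (k + 1) x * g x = ∑ x, Ad G (It G f k) x * g x := rfl
    rw [h1, ad_sa24, ih (Ad G g), it_ad24]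
    rfl

theorem kn : StKN := by
  intro V _ G k
  classical
  have hsum : ∀ (f : V → ℤ) (x : V), f x = ∑ z, (if z = x then (1 : ℤ) else 0) * f z := by
    intro f x
    simp
  have hd : ∀ y x : V, N G k x y = It G (fun z => if z = y then 1 else 0) k x := by
    intro y x
    unfold N
    congr!
  have hsym : ∀ x y, N G k x y = N G k y x := by
    intro x y
    rw [hd y x, hd x y, hsum (It G (fun z => if z = y then 1 else 0) k) x, ← sa V G _ _ k,
      hsum (It G (fun z => if z = x then 1 else 0) k) y]
    exact Finset.sum_congr rfl (fun z _ => mul_comm _ _)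
  refine ⟨hsym, ?_, ?_⟩
  · intro x y
    rw [hd y x]
    refine it_nonneg24 G _ (fun z => ?_) k x
    split_ifs <;> norm_num
  · intro f x
    rw [hsum (It G f k) x, ← sa V G _ f k]
    refine Finset.sum_congr rfl (fun z _ => ?_)
    rw [hsym x z, hd x z]

theorem pf : StPF := by
  intro V _ G p q R
  obtain ⟨hsym, -, hk⟩ := kn V G q
  have h1 : ∀ x, W G q x = ∑ y, N G q x y := by
    intro x
    have := hk (fun _ => 1) x
    simp only [mul_one] at this
    exact this
  have h2 : ∀ x, W G (p + q) x = ∑ y, N G q x y * W G p y := by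
    intro x
    rw [← hk (W G p) x]
    have := congrFun (it_add24 G (fun _ => 1) q p) x
    rw [show p + q = q + p from add_comm _ _]
    exact this.symm
  have hA : ∑ x, ∑ y, N G q x y * (W G p x * R x) = ∑ x, W G p x * W G q x * R x := by
    refine Finset.sum_congr rfl (fun x _ => ?_)
    rw [← Finset.sum_mul, ← h1 x]
    ring
  have hB : ∑ x, ∑ y, N G q x y * (W G p y * R y) = ∑ x, W G p x * W G q x * R x := by
    rw [Finset.sum_comm, ← hA]
    refine Finset.sum_congr rfl (fun x _ => Finset.sum_congr rfl (fun y _ => ?_))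
    rw [hsym]
  have hC : ∑ x, ∑ y, N G q x y * (W G p y * R x) = ∑ x, W G (p + q) x * R x := by
    refine Finset.sum_congr rfl (fun x _ => ?_)
    rw [h2 x, Finset.sum_mul]
    exact Finset.sum_congr rfl (fun y _ => by ring)
  have hD : ∑ x, ∑ y, N G q x y * (W G p x * R y) = ∑ x, W G (p + q) x * R x := by
    rw [Finset.sum_comm, ← hC]
    refine Finset.sum_congr rfl (fun x _ => Finset.sum_congr rfl (fun y _ => ?_))
    rw [hsym]
  have hE : ∑ x, ∑ y, N G q x y * ((W G p x - W G p y) * (R x - R y)) =
      ∑ x, ∑ y, N G q x y * (W G p x * R x) + ∑ x, ∑ y, N G q x y * (W G p y * R y) -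
        ∑ x, ∑ y, N G q x y * (W G p y * R x) - ∑ x, ∑ y, N G q x y * (W G p x * R y) := by
    simp only [← Finset.sum_add_distrib, ← Finset.sum_sub_distrib]
    refine Finset.sum_congr rfl (fun x _ => Finset.sum_congr rfl (fun y _ => by ring))
  rw [hE, hA, hB, hC, hD]
  ring

end SP24
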