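import Pool.Agent.Lib.MP_4e7250_co.SP.KC_36
import Pool.Agent.Lib.MP_4e7250_co.SP.CO_24
import Pool.Agent.Lib.MP_4e7250_co.SP.SA_24

/-! Spiders (MP_4e7250_co): walks between two legs (KV). -/

namespace SP24

open Finset

section

variable {ι : Type} [Fintype ι] [DecidableEq ι] {len : ι → ℕ}

theorem n_fam36 (hlen : ∀ P, 1 ≤ len P) (y : Vert len) :
    Fam len (fun k => co (fun x => N (spider len) k x y)) := by
  classical
  have h := co_fam ι len hlen (fun z => if z = y then 1 else 0)
  convert h using 3 with k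
  funext x
  unfold N
  congr!

theorem zero_fam36 : Fam len (fun _ _ _ => (0 : ℤ)) :=
  ⟨fun _ _ _ => rfl, fun _ _ _ _ => rfl, fun _ _ => by simp, fun _ _ _ _ => by simp⟩

theorem co_zero36 (P : ι) (i : ℕ) : co (fun _ : Vert len => (0 : ℤ)) P i = 0 := by
  rcases i with _ | i
  · rfl
  · rw [co_succ24]; split_ifs <;> rfl

theorem kk_fam36 (hlen : ∀ P, 1 ≤ len P) (Q : ι) (j : ℕ) :
    Fam len (fun k P i => kk len k P i Q j) := by
  rcases j with _ | j
  · exact n_fam36 hlen none
  · by_cases h : j < len Q
    · have e : (fun k P i => kk len k P i Q (j + 1)) =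
          fun k => co (fun x => N (spider len) k x (some ⟨Q, ⟨j, h⟩⟩)) := by
        funext k P i
        unfold kk
        congr 1
        funext x
        rw [co_succ24, dif_pos h]
      rw [e]
      exact n_fam36 hlen _
    · have e : (fun k P i => kk len k P i Q (j + 1)) = fun _ _ _ => (0 : ℤ) := by
        funext k P i
        unfold kk
        rw [← co_zero36 (len := len) P i]
        congr 1
        funext x
        rw [co_succ24, dif_neg h]
      rw [e]
      exact zero_fam36

theorem kk_symm36 (k : ℕ) (P Q : ι) (i j : ℕ) : kk len k P i Q j = kk len k Q j P i := by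
  have hs := (kn (Vert len) (spider len) k).1
  unfold kk
  rcases i with _ | i
  · rcases j with _ | j
    · rfl
    · show co (fun y => N (spider len) k none y) Q (j + 1) =
        co (fun x => N (spider len) k x none) Q (j + 1)
      congr 1
      funext y
      exact hs _ _
  · rcases j with _ | j
    · show co (fun x => N (spider len) k x none) P (i + 1) =
        co (fun y => N (spider len) k none y) P (i + 1)
      congr 1
      funext y
      exact hs _ _
    · simp only [co_succ24]
      by_cases h : i < len P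
      · by_cases h' : j < len Q
        · simp only [h, h', dif_pos]
          exact hs _ _
        · simp only [h, h', dif_pos, dif_neg, not_false_eq_true]
      · by_cases h' : j < len Q
        · simp only [h, h', dif_pos, dif_neg, not_false_eq_true]
        · simp only [h, h', dif_neg, not_false_eq_true]

theorem kk_nonneg36 (k : ℕ) (P Q : ι) (i j : ℕ) : 0 ≤ kk len k P i Q j := by
  have hs := (kn (Vert len) (spider len) k).2.1
  have hc : ∀ (f : Vert len → ℤ) (P : ι) (i : ℕ), (∀ x, 0 ≤ f x) → 0 ≤ co f P i := by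
    intro f P i hf
    rcases i with _ | i
    · exact hf _
    · rw [co_succ24]
      split_ifs
      · exact hf _
      · exact le_rfl
  exact hc _ _ _ fun x => hc _ _ _ fun y => hs x y

theorem cc_cfam36 (hlen : ∀ P, 1 ≤ len P) : CFam len (cc len) := by
  have h := n_fam36 hlen none
  refine ⟨h, fun P => ?_, fun P i => ?_⟩
  · show N (spider len) 0 none none = 1
    unfold N
    simp [It]
  · show co (fun x => N (spider len) 0 x none) P (i + 1) = 0
    rw [co_succ24]
    split_ifs
    · unfold N
      simp [It]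
    · rfl

theorem kk_zero36 (k : ℕ) (P Q : ι) (j : ℕ) : kk len k P 0 Q j = cc len k Q j := by
  rw [kk_symm36]
  rfl

theorem kk_ini36 {P Q : ι} (hPQ : P ≠ Q) (i j : ℕ) :
    kk len 0 P i Q (j + 1) = 0 := by
  unfold kk
  have e : ∀ x : Vert len, co (fun y => N (spider len) 0 x y) Q (j + 1) =
      if h : j < len Q then (if x = some ⟨Q, ⟨j, h⟩⟩ then 1 else 0) else 0 := by
    intro x
    rw [co_succ24]
    by_cases h : j < len Q
    · simp only [h, dif_pos]
      unfold N
      simp only [It]
      congr!
    · simp only [h, dif_neg, not_false_eq_true]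
  rcases i with _ | i
  · show co (fun y => N (spider len) 0 none y) Q (j + 1) = 0
    rw [e]
    split_ifs
    · rename_i h1 h2
      simp at h2
    · rfl
    · rfl
  · rw [co_succ24]
    split_ifs with h
    · rw [e]
      split_ifs with h1 h2
      · exact absurd (Sigma.mk.inj (Option.some.inj h2)).1 hPQ
      · rfl
      · rfl
    · rfl

theorem kk_le36 (A : ι) (q : ℕ) (hA : ∀ P, 1 ≤ len P ∧ len P ≤ len A) (hq : q ≤ len A) :
    ∀ k, k ≤ q → ∀ P Q i j, P ≠ Q → kk len k P i Q j ≤ cc len k A (i + j) := by
  have hC := cc_cfam36 (len := len) fun P => (hA P).1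
  intro k
  induction k with
  | zero =>
    intro _ P Q i j hPQ
    rcases j with _ | j
    · rw [kk_symm36, kk_zero36, add_zero]
      exact cf_le36 hC A hA 0 P i
    · rw [kk_ini36 hPQ]
      exact cf_nonneg36 hC _ _ _
  | succ k ih =>
    intro hk P Q i j hPQ
    rcases j with _ | j
    · rw [kk_symm36, kk_zero36, add_zero]
      exact cf_le36 hC A hA _ P i
    · rw [kk_symm36]
      by_cases h : j + 1 ≤ len Q
      · have h1 := (kk_fam36 (len := len) (fun P => (hA P).1) P i).step k Q j h
        rw [h1, kk_symm36, kk_symm36 k Q P (j + 2) i,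
          show i + (j + 1) = (i + j) + 1 from by ring, cf_step36 hC A q hq k (i + j) hk]
        exact add_le_add (ih (by omega) P Q i j hPQ) (ih (by omega) P Q i (j + 2) hPQ)
      · have h1 := (kk_fam36 (len := len) (fun P => (hA P).1) P i).out (k + 1) Q (j + 1) (by omega)
        rw [h1]
        exact cf_nonneg36 hC _ _ _

theorem kk_eq36 (A : ι) (q : ℕ) (hA : ∀ P, 1 ≤ len P ∧ len P ≤ len A) (hq : q ≤ len A) :
    ∀ k, k ≤ q → ∀ P Q i j, P ≠ Q → q ≤ len P → q ≤ len Q →
      kk len k P i Q j = cc len k A (i + j) := by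
  have hC := cc_cfam36 (len := len) fun P => (hA P).1
  intro k
  induction k with
  | zero =>
    intro _ P Q i j hPQ hP hQ
    rcases j with _ | j
    · rw [kk_symm36, kk_zero36, add_zero]
      exact cf_eq36 hC A hA q 0 P (by omega) hP i
    · rw [kk_ini36 hPQ]
      exact (cf_far36 hC A 0 (i + (j + 1)) (by omega)).symm
  | succ k ih =>
    intro hk P Q i j hPQ hP hQ
    rcases j with _ | j
    · rw [kk_symm36, kk_zero36, add_zero]
      exact cf_eq36 hC A hA q (k + 1) P (by omega) hP i
    · rw [kk_symm36]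
      by_cases h : j + 1 ≤ len Q
      · have h1 := (kk_fam36 (len := len) (fun P => (hA P).1) P i).step k Q j h
        rw [h1, kk_symm36, kk_symm36 k Q P (j + 2) i,
          show i + (j + 1) = (i + j) + 1 from by ring, cf_step36 hC A q hq k (i + j) hk,
          ih (by omega) P Q i j hPQ hP hQ, ih (by omega) P Q i (j + 2) hPQ hP hQ]
        rfl
      · have h1 := (kk_fam36 (len := len) (fun P => (hA P).1) P i).out (k + 1) Q (j + 1) (by omega)
        rw [h1]
        exact (cf_far36 hC A (k + 1) (i + (j + 1)) (by omega)).symm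

end

theorem kv : StKV := by
  intro ι _ _ len A q hA h4 h1q h3
  have hlen : ∀ P, 1 ≤ len P := fun P => (hA P).1
  have hq : q ≤ len A := by
    obtain ⟨P, hP⟩ := Finset.card_pos.1 (lt_of_lt_of_le (by norm_num) h3)
    exact ((Finset.mem_filter.1 hP).2).trans (hA P).2
  refine ⟨cc_cfam36 hlen, kk_zero36 q, fun P Q i j => kk_symm36 q P Q i j,
    fun P Q i j => kk_nonneg36 q P Q i j, fun P Q i j h => kk_le36 A q hA hq q le_rfl P Q i j h,
    fun P Q i j h hP hQ => kk_eq36 A q hA hq q le_rfl P Q i j h hP hQ, ?_, ?_⟩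
  · intro P Q hPQ hP hQ
    obtain ⟨k, rfl⟩ : ∃ k, q = k + 1 := ⟨q - 1, by omega⟩
    have e1 : kk len (k + 1) P 1 Q 2 = kk len k P 1 Q 1 + kk len k P 1 Q 3 := by
      rw [kk_symm36]
      have := (kk_fam36 (len := len) hlen P 1).step k Q 1 (by omega)
      rw [this, kk_symm36, kk_symm36 k Q P 3 1]
    have e2 : kk len (k + 1) P 2 Q 1 = kk len k P 1 Q 1 + kk len k P 3 Q 1 :=
      (kk_fam36 (len := len) hlen Q 1).step k P 1 (by omega)
    have e3 : kk len k P 1 Q 3 ≤ cc len k A 4 := kk_le36 A (k + 1) hA hq k (by omega) P Q 1 3 hPQ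
    have e4 : 0 ≤ kk len k P 3 Q 1 := kk_nonneg36 k P Q 3 1
    rw [e1, e2, Nat.add_sub_cancel]
    linarith
  · intro P Q j hPQ hP
    obtain ⟨k, rfl⟩ : ∃ k, q = k + 1 := ⟨q - 1, by omega⟩
    have e1 : kk len (k + 1) P 1 Q j = kk len k P 0 Q j + kk len k P 2 Q j :=
      (kk_fam36 (len := len) hlen Q j).step k P 0 (by omega)
    have e2 : kk len k P 2 Q j = 0 :=
      (kk_fam36 (len := len) hlen Q j).out k P 2 (by omega)
    rw [e1, e2, add_zero, kk_zero36, Nat.add_sub_cancel]

end SP24
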