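import Pool.Agent.Lib.MP_4e7250_co.SP.Stmts24

/-! Spiders (MP_4e7250_co): monotonicity of the numbers of walks (ME, M2, M1). -/

namespace SP24

open Finset

theorem me : StME := by
  intro ι _ len F hF
  have hnn : ∀ k P i, 0 ≤ F k P i := by
    intro k
    induction k with
    | zero =>
      intro P i
      rcases Nat.lt_or_ge (len P) i with h | h
      · rw [hF.out 0 P i h]
      · rw [hF.ini P i h]; norm_num
    | succ k ih =>
      intro P i
      rcases i with _ | i
      · rw [hF.zero]
        exact Finset.sum_nonneg (fun Q _ => ih Q 1)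
      · rcases Nat.lt_or_ge (len P) (i + 1) with h | h
        · rw [hF.out _ P _ h]
        · rw [hF.step k P i h]
          exact add_nonneg (ih P i) (ih P (i + 2))
  refine ⟨hnn, ?_⟩
  intro k
  induction k with
  | zero =>
    intro P Q i hPQ
    rcases Nat.lt_or_ge (len P) i with h | h
    · rw [hF.out 0 P i h]; exact hnn 0 Q i
    · rw [hF.ini P i h, hF.ini Q i (h.trans hPQ)]
  | succ k ih =>
    intro P Q i hPQ
    rcases i with _ | i
    · rw [hF.zero, hF.zero]
    · rcases Nat.lt_or_ge (len P) (i + 1) with h | h
      · rw [hF.out _ P _ h]; exact hnn _ Q _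
      · rw [hF.step k P i h, hF.step k Q i (h.trans hPQ)]
        exact add_le_add (ih P Q i hPQ) (ih P Q (i + 2) hPQ)

theorem m2 : StM2 := by
  intro ι _ _ len F hlen hcard hF
  have hnn := (me ι len F hF).1
  suffices H : ∀ k, ∀ j, j ≤ k → ∀ P i, F j P (i + 2) ≤ F j P i from fun k => H k k le_rfl
  intro k
  induction k with
  | zero =>
    intro j hj P i
    obtain rfl : j = 0 := by omega
    rcases Nat.lt_or_ge (len P) (i + 2) with h | h
    · rw [hF.out 0 P _ h]; exact hnn 0 P i
    · rw [hF.ini P _ h, hF.ini P i (by omega)]
  | succ k ih =>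
    intro j hj P i
    rcases Nat.lt_or_ge j (k + 1) with hjk | hjk
    · exact ih j (by omega) P i
    obtain rfl : j = k + 1 := by omega
    rcases i with _ | i
    · rcases Nat.lt_or_ge (len P) 2 with h | h
      · rw [hF.out _ P _ (by omega)]; exact hnn _ P _
      · rw [hF.zero, show 0 + 2 = 1 + 1 from rfl, hF.step k P 1 (by omega)]
        have hsplit : ∑ Q, F k Q 1 = F k P 1 + ∑ Q ∈ univ.erase P, F k Q 1 :=
          (Finset.add_sum_erase univ _ (mem_univ P)).symm
        rw [hsplit]
        have hc : 2 ≤ (univ.erase P).card := by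
          rw [Finset.card_erase_of_mem (mem_univ P), Finset.card_univ]; omega
        have h5 : (2 : ℤ) ≤ ((univ.erase P).card : ℤ) := by exact_mod_cast hc
        have key : F k P (1 + 2) ≤ ∑ Q ∈ univ.erase P, F k Q 1 := by
          rcases k with _ | k
          · have h1 : ∀ Q ∈ univ.erase P, (1 : ℤ) ≤ F 0 Q 1 := fun Q _ => by
              rw [hF.ini Q 1 (hlen Q)]
            have h2 := Finset.card_nsmul_le_sum (univ.erase P) (fun Q => F 0 Q 1) 1 h1
            have h3 : F 0 P (1 + 2) ≤ 1 := by
              rcases Nat.lt_or_ge (len P) (1 + 2) with h' | h'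
              · rw [hF.out 0 P _ h']; norm_num
              · rw [hF.ini P _ h']
            have h4 : ((univ.erase P).card : ℤ) ≤ ∑ Q ∈ univ.erase P, F 0 Q 1 := by
              simpa using h2
            linarith
          · have h1 : ∀ Q ∈ univ.erase P, F k P 0 ≤ F (k + 1) Q 1 := fun Q _ => by
              have e := hF.step k Q 0 (hlen Q)
              rw [show (1 : ℕ) = 0 + 1 from rfl, e, hF.ctr k P Q]
              linarith [hnn k Q (0 + 2)]
            have h2 := Finset.card_nsmul_le_sum (univ.erase P) (fun Q => F (k + 1) Q 1) _ h1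
            have h4 : ((univ.erase P).card : ℤ) * F k P 0 ≤
                ∑ Q ∈ univ.erase P, F (k + 1) Q 1 := by
              simpa using h2
            have h6 : 2 * F k P 0 ≤ ((univ.erase P).card : ℤ) * F k P 0 :=
              mul_le_mul_of_nonneg_right h5 (hnn k P 0)
            have h7 : F (k + 1) P (1 + 2) ≤ 2 * F k P 0 := by
              rcases Nat.lt_or_ge (len P) (1 + 2) with h' | h'
              · rw [hF.out _ P _ h']
                linarith [hnn k P 0]
              · have e := hF.step k P 2 (by omega)
                rw [show 1 + 2 = 2 + 1 from rfl, e]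
                have a1 : F k P (0 + 2) ≤ F k P 0 := ih k (by omega) P 0
                have a2 : F k P (2 + 2) ≤ F k P 2 := ih k (by omega) P 2
                have a3 : F k P (0 + 2) = F k P 2 := rfl
                linarith
            linarith
        linarith
    · rcases Nat.lt_or_ge (len P) (i + 1 + 2) with h | h
      · rw [hF.out _ P _ h]; exact hnn _ P _
      · have e1 := hF.step k P (i + 2) (by omega)
        have e2 := hF.step k P i (by omega)
        rw [show i + 1 + 2 = (i + 2) + 1 from by ring, e1, e2]
        have b1 := ih k le_rfl P i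
        have b2 := ih k le_rfl P (i + 2)
        linarith

theorem m1 : StM1 := by
  intro ι _ _ len F A K hlen hF hc
  have hnn := (me ι len F hF).1
  have hE := (me ι len F hF).2
  intro k
  induction k with
  | zero =>
    intro _ P i
    rcases Nat.lt_or_ge (len P) (i + 1) with h | h
    · rw [hF.out 0 P _ h]; exact hnn 0 P i
    · rw [hF.ini P _ h, hF.ini P i (by omega)]
  | succ k ih =>
    intro hk P i
    have ih' := ih (by omega)
    rcases i with _ | i
    · have e1 : F (k + 1) A 1 = F k A 0 + F k A (0 + 2) := hF.step k A 0 (hlen A).1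
      have e0 : F (k + 1) A 0 = F k A 1 + ∑ Q ∈ univ.erase A, F k Q 1 := by
        rw [hF.zero]
        exact (Finset.add_sum_erase univ _ (mem_univ A)).symm
      have h1 := hc k (by omega)
      have h2 := ih' A 1
      have h3 : F (k + 1) P (0 + 1) ≤ F (k + 1) A 1 := hE (k + 1) P A 1 (hlen P).2
      rw [hF.ctr (k + 1) P A]
      have h4 : F k A (0 + 2) = F k A (1 + 1) := rfl
      linarith
    · rcases Nat.lt_or_ge (len P) (i + 1 + 1) with h | h
      · rw [hF.out _ P _ h]; exact hnn _ P _
      · have e1 := hF.step k P (i + 1) (by omega)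
        have e2 := hF.step k P i (by omega)
        rw [e1, e2]
        have b1 := ih' P i
        have b2 := ih' P (i + 2)
        have b3 : F k P (i + 1 + 2) = F k P (i + 2 + 1) := by rw [show i + 1 + 2 = i + 2 + 1 from by ring]
        linarith

end SP24
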