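import Pool.Agent.Lib.MP_4e7250_co.SP.StmtB24

/-! Spiders (MP_4e7250_co): the pair sum for all spiders (P2). -/

namespace SP24

open Finset

section Poly

theorem poly0_24 (l : ℝ) (hl : 4 ≤ l) :
    (l - 1) * ((l - 3) * (3 / l ^ 2 + 768 / (25 * l ^ 4))) ≤
      3 * ((1 - 2 / l) * (1 - 4 / l ^ 2)) := by
  have h0 : 0 < l := by linarith
  have e1 : (l - 1) * ((l - 3) * (3 / l ^ 2 + 768 / (25 * l ^ 4))) =
      ((l - 1) * ((l - 3) * (3 * l ^ 2 + 768 / 25))) / l ^ 4 := by
    field_simp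
  have e2 : 3 * ((1 - 2 / l) * (1 - 4 / l ^ 2)) = (3 * (l * ((l - 2) * (l ^ 2 - 4)))) / l ^ 4 := by
    field_simp
  rw [e1, e2]
  apply div_le_div_of_nonneg_right _ (by positivity)
  obtain ⟨x, rfl⟩ : ∃ x, l = x + 4 := ⟨l - 4, by ring⟩
  have hx : 0 ≤ x := by linarith
  nlinarith [mul_nonneg hx (sq_nonneg (x - 1)), pow_nonneg hx 3, pow_nonneg hx 2]

theorem poly1_24 (l : ℝ) (hl : 4 ≤ l) :
    (l - 1) * (256 / (55 * l ^ 2) + (l - 4) * (3 / l ^ 2 + 768 / (25 * l ^ 4))) ≤
      3 * ((1 - 2 / l) * (1 - 4 / l ^ 2)) := by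
  have h0 : 0 < l := by linarith
  have e1 : (l - 1) * (256 / (55 * l ^ 2) + (l - 4) * (3 / l ^ 2 + 768 / (25 * l ^ 4))) =
      ((l - 1) * (256 / 55 * l ^ 2 + (l - 4) * (3 * l ^ 2 + 768 / 25))) / l ^ 4 := by
    field_simp
  have e2 : 3 * ((1 - 2 / l) * (1 - 4 / l ^ 2)) = (3 * (l * ((l - 2) * (l ^ 2 - 4)))) / l ^ 4 := by
    field_simp
  rw [e1, e2]
  apply div_le_div_of_nonneg_right _ (by positivity)
  obtain ⟨x, rfl⟩ : ∃ x, l = x + 4 := ⟨l - 4, by ring⟩
  have hx : 0 ≤ x := by linarith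
  nlinarith [mul_nonneg hx (sq_nonneg (x - 1)), pow_nonneg hx 3, pow_nonneg hx 2]

/-- The final count. -/
theorem count24 (l e s m : ℕ) (hl : 4 ≤ l) (hm : 3 ≤ m) (h : e + s + m = l) (z : ℝ)
    (hz : (e : ℝ) * z ≤ 256 / (55 * (l : ℝ) ^ 2)) :
    ((l : ℝ) - 1) * (e * z + s * (3 / (l : ℝ) ^ 2 + 768 / (25 * (l : ℝ) ^ 4))) ≤
      m * ((1 - 2 / (l : ℝ)) * (1 - 4 / (l : ℝ) ^ 2)) := by
  have hl' : (4 : ℝ) ≤ l := by exact_mod_cast hl
  have hm' : (3 : ℝ) ≤ m := by exact_mod_cast hm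
  have h' : (e : ℝ) + s + m = l := by exact_mod_cast h
  have hc : 0 ≤ 3 / (l : ℝ) ^ 2 + 768 / (25 * (l : ℝ) ^ 4) := by positivity
  have hG : 0 ≤ (1 - 2 / (l : ℝ)) * (1 - 4 / (l : ℝ) ^ 2) := by
    have h1 : 2 / (l : ℝ) ≤ 1 := by
      rw [div_le_one (by linarith)]
      linarith
    have h2 : 4 / (l : ℝ) ^ 2 ≤ 1 := by
      rw [div_le_one (by positivity)]
      nlinarith
    exact mul_nonneg (by linarith) (by linarith)
  have hmG := mul_le_mul_of_nonneg_right hm' hG
  rcases Nat.eq_zero_or_pos e with he | he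
  · subst he
    have hs : (s : ℝ) ≤ l - 3 := by
      push_cast at h'
      linarith
    have h1 := mul_le_mul_of_nonneg_right hs hc
    have h2 := poly0_24 l hl'
    have h3 : ((l : ℝ) - 1) * ((((0 : ℕ) : ℝ)) * z +
        s * (3 / (l : ℝ) ^ 2 + 768 / (25 * (l : ℝ) ^ 4))) ≤
        ((l : ℝ) - 1) * ((l - 3) * (3 / (l : ℝ) ^ 2 + 768 / (25 * (l : ℝ) ^ 4))) := by
      apply mul_le_mul_of_nonneg_left _ (by linarith)
      push_cast
      linarith
    linarith
  · have he' : (1 : ℝ) ≤ e := by exact_mod_cast he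
    have hs : (s : ℝ) ≤ l - 4 := by linarith
    have h1 := mul_le_mul_of_nonneg_right hs hc
    have h2 := poly1_24 l hl'
    have h3 : ((l : ℝ) - 1) * (e * z + s * (3 / (l : ℝ) ^ 2 + 768 / (25 * (l : ℝ) ^ 4))) ≤
        ((l : ℝ) - 1) * (256 / (55 * (l : ℝ) ^ 2) +
          (l - 4) * (3 / (l : ℝ) ^ 2 + 768 / (25 * (l : ℝ) ^ 4))) := by
      apply mul_le_mul_of_nonneg_left _ (by linarith)
      linarith
    linarith

end Poly

section Assembly

variable {ι : Type} [Fintype ι] [DecidableEq ι] {len : ι → ℕ}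

/-- Sums over a leg. -/
theorem sum_leg24 (P : ι) (h : ℕ → ℤ) :
    ∑ i : Fin (len P), h (i.val + 1) = ∑ i ∈ range (len P), h (i + 1) :=
  Fin.sum_univ_eq_sum_range (fun i => h (i + 1)) (len P)

theorem co_at24 (f : Vert len → ℤ) (P : ι) (i : Fin (len P)) :
    f (some ⟨P, i⟩) = co f P (i.val + 1) := by
  simp only [co]
  rw [dif_pos i.isLt]

/-- The contribution of two legs. -/
noncomputable def blk (len : ι → ℕ) (q : ℕ) (f g : Vert len → ℤ) (P Q : ι) : ℤ :=
  ∑ i ∈ range (len P), ∑ j ∈ range (len Q), kk len q P (i + 1) Q (j + 1) *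
    ((co f P (i + 1) - co f Q (j + 1)) * (co g P (i + 1) - co g Q (j + 1)))

/-- The contribution of the centre and a leg. -/
noncomputable def gd (len : ι → ℕ) (q : ℕ) (f g : Vert len → ℤ) (Q : ι) : ℤ :=
  ∑ j ∈ range (len Q), cc len q Q (j + 1) *
    ((f none - co f Q (j + 1)) * (g none - co g Q (j + 1)))

theorem blk_symm24 (q : ℕ) (f g : Vert len → ℤ)
    (hs : ∀ P Q i j, kk len q P i Q j = kk len q Q j P i) (P Q : ι) :
    blk len q f g P Q = blk len q f g Q P := by
  unfold blk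
  rw [Finset.sum_comm]
  refine Finset.sum_congr rfl (fun j _ => Finset.sum_congr rfl (fun i _ => ?_))
  rw [hs P Q]
  ring

/-- The decomposition of the pair sum. -/
theorem decomp24 (hKN : StKN) (q : ℕ) (f g : Vert len → ℤ) :
    ∑ x, ∑ y, N (spider len) q x y * ((f x - f y) * (g x - g y)) =
      2 * ∑ Q, gd len q f g Q + ∑ P, ∑ Q, blk len q f g P Q := by
  have hsym := (hKN (Vert len) (spider len) q).1
  have h1 : ∀ Q, ∑ j : Fin (len Q), N (spider len) q none (some ⟨Q, j⟩) *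
      ((f none - f (some ⟨Q, j⟩)) * (g none - g (some ⟨Q, j⟩))) = gd len q f g Q := by
    intro Q
    unfold gd
    rw [← sum_leg24 Q (fun d => cc len q Q d * ((f none - co f Q d) * (g none - co g Q d)))]
    refine Finset.sum_congr rfl (fun j _ => ?_)
    rw [co_at24 f, co_at24 g, hsym none]
    unfold cc
    rw [← co_at24 (fun x => N (spider len) q x none)]
  have h2 : ∀ P Q, ∑ i : Fin (len P), ∑ j : Fin (len Q),
      N (spider len) q (some ⟨P, i⟩) (some ⟨Q, j⟩) *
      ((f (some ⟨P, i⟩) - f (some ⟨Q, j⟩)) * (g (some ⟨P, i⟩) - g (some ⟨Q, j⟩))) =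
      blk len q f g P Q := by
    intro P Q
    unfold blk
    rw [← sum_leg24 P (fun d => ∑ j ∈ range (len Q), kk len q P d Q (j + 1) *
      ((co f P d - co f Q (j + 1)) * (co g P d - co g Q (j + 1))))]
    refine Finset.sum_congr rfl (fun i _ => ?_)
    rw [← sum_leg24 Q (fun d => kk len q P (i.val + 1) Q d *
      ((co f P (i.val + 1) - co f Q d) * (co g P (i.val + 1) - co g Q d)))]
    refine Finset.sum_congr rfl (fun j _ => ?_)
    rw [co_at24 f, co_at24 g, co_at24 f Q j, co_at24 g Q j]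
    unfold kk
    rw [← co_at24 (fun x => co (fun y => N (spider len) q x y) Q (j.val + 1)),
      ← co_at24 (fun y => N (spider len) q (some ⟨P, i⟩) y)]
  have h3 : ∀ P, ∑ i : Fin (len P), N (spider len) q (some ⟨P, i⟩) none *
      ((f (some ⟨P, i⟩) - f none) * (g (some ⟨P, i⟩) - g none)) = gd len q f g P := by
    intro P
    rw [← h1 P]
    refine Finset.sum_congr rfl (fun i _ => ?_)
    rw [hsym (some ⟨P, i⟩) none]
    ring
  rw [Fintype.sum_option]
  simp only [Fintype.sum_option, Fintype.sum_sigma, sub_self, mul_zero, zero_add]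
  rw [Finset.sum_congr rfl (fun Q _ => h1 Q)]
  have h4 : ∀ P, ∑ i : Fin (len P), (N (spider len) q (some ⟨P, i⟩) none *
      ((f (some ⟨P, i⟩) - f none) * (g (some ⟨P, i⟩) - g none)) +
      ∑ Q, ∑ j : Fin (len Q), N (spider len) q (some ⟨P, i⟩) (some ⟨Q, j⟩) *
      ((f (some ⟨P, i⟩) - f (some ⟨Q, j⟩)) * (g (some ⟨P, i⟩) - g (some ⟨Q, j⟩)))) =
      gd len q f g P + ∑ Q, blk len q f g P Q := by
    intro P
    rw [Finset.sum_add_distrib, h3 P, Finset.sum_comm, Finset.sum_congr rfl (fun Q _ => h2 P Q)]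
  rw [Finset.sum_congr rfl (fun P _ => h4 P), Finset.sum_add_distrib]
  ring

theorem blk_cast24 (q : ℕ) (f g : Vert len → ℤ) (P Q : ι) :
    ((blk len q f g P Q : ℤ) : ℝ) = ∑ i ∈ range (len P), ∑ j ∈ range (len Q),
      (kk len q P (i + 1) Q (j + 1) : ℝ) *
        (((co f P (i + 1) : ℝ) - (co f Q (j + 1) : ℝ)) *
          ((co g P (i + 1) : ℝ) - (co g Q (j + 1) : ℝ))) := by
  unfold blk
  push_cast
  rfl

theorem gd_cast24 (q : ℕ) (f g : Vert len → ℤ) (Q : ι) :
    ((gd len q f g Q : ℤ) : ℝ) = ∑ j ∈ range (len Q), (cc len q Q (j + 1) : ℝ) *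
      (((f none : ℝ) - (co f Q (j + 1) : ℝ)) * ((g none : ℝ) - (co g Q (j + 1) : ℝ))) := by
  unfold gd
  push_cast
  rfl

theorem anti24 {f : Vert len → ℤ} (h : HM 1 f) (P : ι) {i j : ℕ} (hij : i ≤ j) :
    co f P j ≤ co f P i := by
  induction hij with
  | refl => exact le_rfl
  | step _ ih => exact (h P _).trans ih

theorem conn24 {f : Vert len → ℤ} (h : ∀ x, 0 ≤ f x) (P : ι) (i : ℕ) : 0 ≤ co f P i := by
  rcases i with _ | i
  · exact h none
  · simp only [co]
    split_ifs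
    · exact h _
    · exact le_rfl

end Assembly

open Classical in
/-- (P2) -/
theorem p2 (hKN : StKN) (hKC : StKC) (hKV : StKV) (hBB : StBB) (hBN : StBN)
    (hBF : StBF) : StP2 := by
  intro ι _ _ len A q hlen hcard hq hM f g hf hg hfE hgE hfM hgM hfa hga hf3 hg3 hge hgl
  obtain ⟨hC, kP0, ksym, knn, kle, keq, k12, kleaf⟩ := hKV ι len A q hlen hcard (by omega) hM
  obtain ⟨c1, c2, c3, c4, c5, c6⟩ := hKC ι len (cc len) A q hlen hcard hM hC
  obtain ⟨l, hl⟩ : ∃ l : ℝ, l = (Fintype.card ι : ℝ) := ⟨_, rfl⟩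
  have hl4 : (4 : ℝ) ≤ l := by rw [hl]; exact_mod_cast hcard
  have hl0 : 0 < l := by linarith
  obtain ⟨e, he⟩ : ∃ e : ℕ, e = (univ.filter (fun P : ι => len P = 1)).card := ⟨_, rfl⟩
  rw [← he] at hge
  -- casts
  have fnn : ∀ P i, (0 : ℝ) ≤ (co f P i : ℝ) := fun P i => by exact_mod_cast conn24 hf P i
  have gnn : ∀ P i, (0 : ℝ) ≤ (co g P i : ℝ) := fun P i => by exact_mod_cast conn24 hg P i
  have fan : ∀ P i, (co f P (i + 1) : ℝ) ≤ (co f P i : ℝ) := fun P i => by exact_mod_cast hfM P i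
  have gan : ∀ P i, (co g P (i + 1) : ℝ) ≤ (co g P i : ℝ) := fun P i => by exact_mod_cast hgM P i
  have fE : ∀ P Q i, len P ≤ len Q → (co f P i : ℝ) ≤ (co f Q i : ℝ) :=
    fun P Q i h => by exact_mod_cast hfE P Q i h
  have gE : ∀ P Q i, len P ≤ len Q → (co g P i : ℝ) ≤ (co g Q i : ℝ) :=
    fun P Q i h => by exact_mod_cast hgE P Q i h
  have hf0 : (0 : ℝ) ≤ (f none : ℝ) := by exact_mod_cast hf none
  have hg0 : (0 : ℝ) ≤ (g none : ℝ) := by exact_mod_cast hg none
  have fa : ∀ Q, l * (co f Q 2 : ℝ) ≤ 2 * (f none : ℝ) := by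
    intro Q
    have h1 : l * (co f A 2 : ℝ) ≤ 2 * (f none : ℝ) := by rw [hl]; exact_mod_cast hfa
    have h2 := mul_le_mul_of_nonneg_left (fE Q A 2 (hlen Q).2) hl0.le
    linarith
  have ga : ∀ Q, l ^ 2 * (co g Q 2 : ℝ) ≤ 4 * (g none : ℝ) := by
    intro Q
    have h1 : l ^ 2 * (co g A 2 : ℝ) ≤ 4 * (g none : ℝ) := by rw [hl]; exact_mod_cast hga
    have h2 := mul_le_mul_of_nonneg_left (gE Q A 2 (hlen Q).2) (sq_nonneg l)
    linarith
  have νnn : ∀ k d, (0 : ℝ) ≤ (cc len k A d : ℝ) := fun k d => by exact_mod_cast c1 k A d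
  have κν : ∀ k d, k ≤ q → 2 * l * (cc len k A (d + 2) : ℝ) ≤ 3 * (cc len k A d : ℝ) := by
    intro k d hk
    rw [hl]
    exact_mod_cast c6 k d hk
  obtain ⟨E0, hE0⟩ : ∃ E0 : ℝ, E0 = (cc len q A 2 : ℝ) + (cc len q A 3 : ℝ) := ⟨_, rfl⟩
  obtain ⟨F0, hF0⟩ : ∃ F0 : ℝ, F0 = (f none : ℝ) * (g none : ℝ) := ⟨_, rfl⟩
  have hE0n : 0 ≤ E0 := by
    rw [hE0]
    exact add_nonneg (νnn q 2) (νnn q 3)
  have hF0n : 0 ≤ F0 := by
    rw [hF0]
    exact mul_nonneg hf0 hg0
  -- the recursion of the kernel from the centre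
  have hrec : ∀ d, (cc len q A (d + 1) : ℝ) =
      (cc len (q - 1) A d : ℝ) + (cc len (q - 1) A (d + 2) : ℝ) := by
    intro d
    have h := c5 (q - 1) d (by omega)
    rw [Nat.sub_add_cancel (by omega : 1 ≤ q)] at h
    exact_mod_cast h
  -- the costs
  obtain ⟨cl, hcl⟩ : ∃ cl : ℝ, cl = 64 / 55 * (4 / (e * l ^ 2)) := ⟨_, rfl⟩
  obtain ⟨cn, hcn⟩ : ∃ cn : ℝ, cn = 3 / l ^ 2 + 768 / (25 * l ^ 4) := ⟨_, rfl⟩
  have hcl0 : 0 ≤ cl := by rw [hcl]; positivity
  have hcn0 : 0 ≤ cn := by rw [hcn]; positivity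
  let c : ι → ℝ := fun P => if q ≤ len P then 0 else if len P = 1 then cl else cn
  have hc0 : ∀ P, 0 ≤ c P := by
    intro P
    simp only [c]
    split_ifs
    · exact le_rfl
    · exact hcl0
    · exact hcn0
  -- two legs
  have hblk1 : ∀ P Q, P ≠ Q → len P ≤ len Q →
      -(c P * (E0 * F0)) ≤ ((blk len q f g P Q : ℤ) : ℝ) := by
    intro P Q hPQ hle
    rw [blk_cast24]
    by_cases hqP : q ≤ len P
    · have h1 := hBB q (len P) (len Q) (fun i => (co f P i : ℝ)) (fun i => (co f Q i : ℝ))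
        (fun i => (co g P i : ℝ)) (fun i => (co g Q i : ℝ)) (fun d => (cc len q A d : ℝ))
        hqP (hqP.trans hle) (fan P) (fan Q) (gan P) (gan Q) (fun i => fE P Q i hle)
        (fun i => gE P Q i hle) (νnn q) (fun d hd => by exact_mod_cast c4 q d hd)
      have h2 : ∑ i ∈ range (len P), ∑ j ∈ range (len Q),
          (kk len q P (i + 1) Q (j + 1) : ℝ) *
          (((co f P (i + 1) : ℝ) - (co f Q (j + 1) : ℝ)) *
            ((co g P (i + 1) : ℝ) - (co g Q (j + 1) : ℝ))) =
          ∑ i ∈ range (len P), ∑ j ∈ range (len Q), (cc len q A (i + j + 2) : ℝ) *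
          (((co f P (i + 1) : ℝ) - (co f Q (j + 1) : ℝ)) *
            ((co g P (i + 1) : ℝ) - (co g Q (j + 1) : ℝ))) := by
        refine Finset.sum_congr rfl (fun i _ => Finset.sum_congr rfl (fun j _ => ?_))
        rw [keq P Q (i + 1) (j + 1) hPQ hqP (hqP.trans hle),
          show i + 1 + (j + 1) = i + j + 2 from by ring]
      rw [h2]
      have h3 : c P = 0 := by
        simp only [c]
        rw [if_pos hqP]
      rw [h3]
      linarith
    · by_cases hP1 : len P = 1
      · -- a leaf at the centre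
        have h3 : c P = cl := by
          simp only [c]
          rw [if_neg hqP, if_pos hP1]
        have he1 : 1 ≤ e := by
          rw [he]
          exact Finset.card_pos.2 ⟨P, by simp [hP1]⟩
        have he1' : (1 : ℝ) ≤ e := by exact_mod_cast he1
        have hel : 0 < (e : ℝ) * l ^ 2 := by positivity
        have g1 : (e : ℝ) * l ^ 2 * (co g Q 2 : ℝ) ≤ 4 * (g none : ℝ) := by
          have h1 : (e : ℝ) * l ^ 2 * (co g A 2 : ℝ) ≤ 4 * (g none : ℝ) := by
            rw [hl]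
            exact_mod_cast hge
          have h2 := mul_le_mul_of_nonneg_left (gE Q A 2 (hlen Q).2) hel.le
          linarith
        have g2 : (e : ℝ) * l * (co g P 1 : ℝ) ≤ (g none : ℝ) := by
          have h1 := hgl P hP1
          rw [← he] at h1
          rw [hl]
          exact_mod_cast h1
        have h4 := hBF l (len Q) (fun i => (co f Q i : ℝ)) (fun i => (co g Q i : ℝ))
          (fun d => (cc len q A d : ℝ)) (fun d => (cc len (q - 1) A d : ℝ))
          (fun j => (kk len q P 1 Q j : ℝ)) (co f P 1 : ℝ) (co g P 1 : ℝ)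
          (4 / (e * l ^ 2) * F0) hl4 (fnn P 1) (gnn P 1) (fnn Q) (gnn Q) (fan Q) (gan Q)
          (fE P Q 1 hle) (gE P Q 1 hle) ?_ ?_ (fun j => by exact_mod_cast knn P Q 1 j)
          (fun j => ?_) (νnn q) hrec (fun d => κν q d le_rfl)
          (fun d => κν (q - 1) d (Nat.sub_le q 1))
        · rw [hP1]
          simp only [Finset.sum_range_one, zero_add]
          rw [h3, hcl]
          rw [← hE0] at h4
          calc -(64 / 55 * (4 / (↑e * l ^ 2)) * (E0 * F0)) =
              -(64 / 55 * E0 * (4 / (↑e * l ^ 2) * F0)) := by ring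
            _ ≤ _ := h4
        · have h5 : (co f P 1 : ℝ) ≤ (f none : ℝ) := fan P 0
          have h6 : (co g Q 2 : ℝ) ≤ 4 / (e * l ^ 2) * (g none : ℝ) := by
            rw [div_mul_eq_mul_div, le_div_iff₀ hel]
            linarith
          calc (co f P 1 : ℝ) * (co g Q 2 : ℝ) ≤
              (f none : ℝ) * (4 / (e * l ^ 2) * (g none : ℝ)) :=
                mul_le_mul h5 h6 (gnn Q 2) hf0
            _ = 4 / (e * l ^ 2) * F0 := by rw [hF0]; ring
        · have h5 : (co f Q 2 : ℝ) ≤ 2 / l * (f none : ℝ) := by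
            rw [div_mul_eq_mul_div, le_div_iff₀ hl0]
            linarith [fa Q]
          have h6 : (co g P 1 : ℝ) ≤ 1 / (e * l) * (g none : ℝ) := by
            rw [div_mul_eq_mul_div, le_div_iff₀ (by positivity)]
            linarith
          calc (co f Q 2 : ℝ) * (co g P 1 : ℝ) ≤
              (2 / l * (f none : ℝ)) * (1 / (e * l) * (g none : ℝ)) :=
                mul_le_mul h5 h6 (gnn P 1) (by positivity)
            _ = 2 / (e * l ^ 2) * F0 := by rw [hF0]; field_simp
            _ ≤ 4 / (e * l ^ 2) * F0 := by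
                apply mul_le_mul_of_nonneg_right _ hF0n
                apply div_le_div_of_nonneg_right _ hel.le
                norm_num
        · have h5 := kleaf P Q j hPQ hP1
          have h6 := c2 (q - 1) Q j
          rw [h5]
          exact_mod_cast h6
      · -- a short leg with at least two edges
        have h3 : c P = cn := by
          simp only [c]
          rw [if_neg hqP, if_neg hP1]
        have hP2 : 2 ≤ len P := by
          have := (hlen P).1
          omega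
        have h5 : (co f Q 3 : ℝ) ≤ (co f P 1 : ℝ) := by
          have h6 : (co f A 3 : ℝ) ≤ (co f P 1 : ℝ) := by exact_mod_cast hf3 P hP2
          exact (fE Q A 3 (hlen Q).2).trans h6
        have h7 : (co g Q 3 : ℝ) ≤ (co g P 1 : ℝ) := by
          have h6 : (co g A 3 : ℝ) ≤ (co g P 1 : ℝ) := by exact_mod_cast hg3 P hP2
          exact (gE Q A 3 (hlen Q).2).trans h6
        have h4 := hBN l (len P) (len Q) (fun i => (co f P i : ℝ)) (fun i => (co f Q i : ℝ))
          (fun i => (co g P i : ℝ)) (fun i => (co g Q i : ℝ)) (fun d => (cc len q A d : ℝ))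
          (fun i j => (kk len q P i Q j : ℝ)) (cc len (q - 1) A 4 : ℝ) hl4 hP2 (hP2.trans hle)
          (fnn P) (gnn P) (fan P) (fan Q) (gan P) (gan Q) (fun i => fE P Q i hle)
          (fun i => gE P Q i hle) (νnn q) (fa Q) (ga Q) h5 h7
          (fun i j => by exact_mod_cast knn P Q i j)
          (fun i j => by exact_mod_cast kle P Q i j hPQ)
          (by exact_mod_cast k12 P Q hPQ hP2 (hP2.trans hle)) ?_ (fun d => κν q d le_rfl)
        · rw [h3, hcn]
          rw [← hE0] at h4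
          calc -((3 / l ^ 2 + 768 / (25 * l ^ 4)) * (E0 * F0)) =
              -((3 / l ^ 2 + 768 / (25 * l ^ 4)) * E0 * ((co f Q 0 : ℝ) * (co g Q 0 : ℝ))) := by
                rw [hF0]
                show _ = -((3 / l ^ 2 + 768 / (25 * l ^ 4)) * E0 * ((f none : ℝ) * (g none : ℝ)))
                ring
            _ ≤ _ := h4
        · have h8 := κν (q - 1) 2 (Nat.sub_le q 1)
          have h9 := hrec 2
          have h10 := νnn (q - 1) 4
          show 2 * l * (cc len (q - 1) A 4 : ℝ) ≤ 3 * (cc len q A 3 : ℝ)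
          rw [show (3 : ℕ) = 2 + 1 from rfl, h9]
          linarith
  have hblk : ∀ P Q, -((c P + c Q) * (E0 * F0)) + (if P = Q then 2 * c P * (E0 * F0) else 0) ≤
      ((blk len q f g P Q : ℤ) : ℝ) := by
    intro P Q
    have hEF : 0 ≤ E0 * F0 := mul_nonneg hE0n hF0n
    by_cases hPQ : P = Q
    · subst hPQ
      rw [if_pos rfl]
      have h1 : 0 ≤ blk len q f g P P := by
        unfold blk
        refine Finset.sum_nonneg (fun i _ => Finset.sum_nonneg (fun j _ => ?_))
        refine mul_nonneg (knn P P _ _) ?_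
        rcases le_total i j with h | h
        · exact mul_nonneg (sub_nonneg.2 (anti24 hfM P (by omega)))
            (sub_nonneg.2 (anti24 hgM P (by omega)))
        · exact mul_nonneg_of_nonpos_of_nonpos (sub_nonpos.2 (anti24 hfM P (by omega)))
            (sub_nonpos.2 (anti24 hgM P (by omega)))
      have h2 : (0 : ℝ) ≤ ((blk len q f g P P : ℤ) : ℝ) := by exact_mod_cast h1
      linarith
    · rw [if_neg hPQ]
      rcases le_total (len P) (len Q) with h | h
      · have h1 := hblk1 P Q hPQ h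
        have h2 := mul_nonneg (hc0 Q) hEF
        linarith
      · have h1 := hblk1 Q P (Ne.symm hPQ) h
        rw [blk_symm24 q f g ksym Q P] at h1
        have h2 := mul_nonneg (hc0 P) hEF
        linarith
  -- the centre and a leg
  obtain ⟨G, hG⟩ : ∃ G : ℝ, G = (1 - 2 / l) * (1 - 4 / l ^ 2) := ⟨_, rfl⟩
  have hgd : ∀ Q, (if q ≤ len Q then G * (E0 * F0) else 0) ≤ ((gd len q f g Q : ℤ) : ℝ) := by
    intro Q
    have ht : ∀ d, (0 : ℝ) ≤ (cc len q Q d : ℝ) *
        (((f none : ℝ) - (co f Q d : ℝ)) * ((g none : ℝ) - (co g Q d : ℝ))) := by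
      intro d
      have h1 : (co f Q d : ℝ) ≤ (f none : ℝ) := by exact_mod_cast anti24 hfM Q (Nat.zero_le d)
      have h2 : (co g Q d : ℝ) ≤ (g none : ℝ) := by exact_mod_cast anti24 hgM Q (Nat.zero_le d)
      have h3 : (0 : ℝ) ≤ (cc len q Q d : ℝ) := by exact_mod_cast c1 q Q d
      exact mul_nonneg h3 (mul_nonneg (sub_nonneg.2 h1) (sub_nonneg.2 h2))
    rw [gd_cast24]
    by_cases hqQ : q ≤ len Q
    · rw [if_pos hqQ]
      have hsub : ({1, 2} : Finset ℕ) ⊆ range (len Q) := by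
        intro j hj
        rw [Finset.mem_insert, Finset.mem_singleton] at hj
        rw [Finset.mem_range]
        omega
      have h1 := Finset.sum_le_sum_of_subset_of_nonneg hsub
        (fun j _ _ => ht (j + 1))
      rw [Finset.sum_pair (by norm_num : (1 : ℕ) ≠ 2)] at h1
      refine le_trans ?_ h1
      have h2 : (co f Q 2 : ℝ) ≤ 2 / l * (f none : ℝ) := by
        rw [div_mul_eq_mul_div, le_div_iff₀ hl0]
        linarith [fa Q]
      have h3 : (co g Q 2 : ℝ) ≤ 4 / l ^ 2 * (g none : ℝ) := by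
        rw [div_mul_eq_mul_div, le_div_iff₀ (by positivity)]
        linarith [ga Q]
      have h4 := fan Q 2
      have h5 := gan Q 2
      have e1 : (cc len q Q 2 : ℝ) = (cc len q A 2 : ℝ) := by
        exact_mod_cast c3 q Q le_rfl hqQ 2
      have e2 : (cc len q Q 3 : ℝ) = (cc len q A 3 : ℝ) := by
        exact_mod_cast c3 q Q le_rfl hqQ 3
      have hb1 : (1 - 2 / l) * (f none : ℝ) ≤ (f none : ℝ) - (co f Q 2 : ℝ) := by linarith
      have hb2 : (1 - 4 / l ^ 2) * (g none : ℝ) ≤ (g none : ℝ) - (co g Q 2 : ℝ) := by linarith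
      have hb3 : (1 - 2 / l) * (f none : ℝ) ≤ (f none : ℝ) - (co f Q 3 : ℝ) := by linarith
      have hb4 : (1 - 4 / l ^ 2) * (g none : ℝ) ≤ (g none : ℝ) - (co g Q 3 : ℝ) := by linarith
      have hx1 : 0 ≤ (1 - 2 / l) * (f none : ℝ) := by
        apply mul_nonneg _ hf0
        have : 2 / l ≤ 1 := by
          rw [div_le_one hl0]
          linarith
        linarith
      have hx2 : 0 ≤ (1 - 4 / l ^ 2) * (g none : ℝ) := by
        apply mul_nonneg _ hg0
        have : 4 / l ^ 2 ≤ 1 := by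
          rw [div_le_one (by positivity)]
          nlinarith
        linarith
      have hp1 : G * F0 ≤ ((f none : ℝ) - (co f Q 2 : ℝ)) * ((g none : ℝ) - (co g Q 2 : ℝ)) := by
        have := mul_le_mul hb1 hb2 hx2 (hx1.trans hb1)
        rw [hG, hF0]
        linarith
      have hp2 : G * F0 ≤ ((f none : ℝ) - (co f Q 3 : ℝ)) * ((g none : ℝ) - (co g Q 3 : ℝ)) := by
        have := mul_le_mul hb3 hb4 hx2 (hx1.trans hb3)
        rw [hG, hF0]
        linarith
      have hq1 := mul_le_mul_of_nonneg_left hp1 (νnn q 2)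
      have hq2 := mul_le_mul_of_nonneg_left hp2 (νnn q 3)
      show G * (E0 * F0) ≤ (cc len q Q 2 : ℝ) *
        (((f none : ℝ) - (co f Q 2 : ℝ)) * ((g none : ℝ) - (co g Q 2 : ℝ))) +
        (cc len q Q 3 : ℝ) *
        (((f none : ℝ) - (co f Q 3 : ℝ)) * ((g none : ℝ) - (co g Q 3 : ℝ)))
      rw [e1, e2, hE0]
      linarith
    · rw [if_neg hqQ]
      exact Finset.sum_nonneg (fun j _ => ht (j + 1))
  -- the sums
  obtain ⟨X, hX⟩ : ∃ X : ℝ, X = E0 * F0 := ⟨_, rfl⟩
  have hXn : 0 ≤ X := by rw [hX]; exact mul_nonneg hE0n hF0n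
  obtain ⟨m, hm⟩ : ∃ m : ℕ, m = (univ.filter (fun P => q ≤ len P)).card := ⟨_, rfl⟩
  obtain ⟨s, hs⟩ : ∃ s : ℕ, s = (univ.filter (fun P => ¬ q ≤ len P ∧ ¬ len P = 1)).card :=
    ⟨_, rfl⟩
  have hsum1 : (m : ℝ) * (G * X) ≤ ∑ Q, ((gd len q f g Q : ℤ) : ℝ) := by
    refine le_trans (le_of_eq ?_) (Finset.sum_le_sum (fun Q _ => hgd Q))
    rw [← Finset.sum_filter, Finset.sum_const, hm, nsmul_eq_mul, hX]
  have hsumc : ∑ P, c P = e * cl + s * cn := by
    have h1 : ∀ P, c P = (if len P = 1 then cl else 0) +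
        (if ¬ q ≤ len P ∧ ¬ len P = 1 then cn else 0) := by
      intro P
      simp only [c]
      by_cases h1 : q ≤ len P
      · have h2 : ¬ len P = 1 := by omega
        rw [if_pos h1, if_neg h2, if_neg (fun h => h.1 h1), add_zero]
      · by_cases h2 : len P = 1
        · rw [if_neg h1, if_pos h2, if_pos h2, if_neg (fun h => h.2 h2), add_zero]
        · rw [if_neg h1, if_neg h2, if_neg h2, if_pos ⟨h1, h2⟩, zero_add]
    rw [Finset.sum_congr rfl (fun P _ => h1 P), Finset.sum_add_distrib, ← Finset.sum_filter,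
      ← Finset.sum_filter, Finset.sum_const, Finset.sum_const, he, hs, nsmul_eq_mul,
      nsmul_eq_mul]
  have hsum2 : -(2 * (l - 1) * (∑ P, c P) * X) ≤
      ∑ P, ∑ Q, ((blk len q f g P Q : ℤ) : ℝ) := by
    refine le_trans (le_of_eq ?_)
      (Finset.sum_le_sum (fun P _ => Finset.sum_le_sum (fun Q _ => hblk P Q)))
    have h1 : ∀ P : ι, ∑ Q, (-((c P + c Q) * (E0 * F0)) +
        (if P = Q then 2 * c P * (E0 * F0) else 0)) =
        -(l * c P * X) - (∑ Q, c Q) * X + 2 * c P * X := by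
      intro P
      rw [Finset.sum_add_distrib, Finset.sum_ite_eq, if_pos (Finset.mem_univ P),
        Finset.sum_neg_distrib, ← Finset.sum_mul, Finset.sum_add_distrib, Finset.sum_const,
        Finset.card_univ, nsmul_eq_mul, ← hl, ← hX]
      ring
    rw [Finset.sum_congr rfl (fun P _ => h1 P), Finset.sum_add_distrib, Finset.sum_sub_distrib,
      Finset.sum_const, Finset.card_univ, nsmul_eq_mul, ← hl, Finset.sum_neg_distrib,
      ← Finset.sum_mul, ← Finset.sum_mul, ← Finset.mul_sum, ← Finset.mul_sum]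
    ring
  have hpart : e + s + m = Fintype.card ι := by
    have h1 := Finset.card_filter_add_card_filter_not (s := (univ : Finset ι))
      (fun P => q ≤ len P)
    have h2 : (univ.filter (fun P => ¬ q ≤ len P)).card = e + s := by
      have h3 := Finset.card_filter_add_card_filter_not
        (s := univ.filter (fun P : ι => ¬ q ≤ len P)) (fun P => len P = 1)
      rw [Finset.filter_filter, Finset.filter_filter] at h3
      have h4 : univ.filter (fun P : ι => ¬ q ≤ len P ∧ len P = 1) =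
          univ.filter (fun P : ι => len P = 1) := by
        apply Finset.filter_congr
        intro P _
        constructor
        · exact fun h => h.2
        · exact fun h => ⟨by omega, h⟩
      rw [h4, ← he, ← hs] at h3
      exact h3.symm
    rw [Finset.card_univ, h2, ← hm] at h1
    omega
  have hz : (e : ℝ) * cl ≤ 256 / (55 * (Fintype.card ι : ℝ) ^ 2) := by
    rw [← hl, hcl]
    rcases Nat.eq_zero_or_pos e with h0 | h0
    · rw [h0]
      push_cast
      rw [zero_mul]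
      positivity
    · have h1 : (0 : ℝ) < e := by exact_mod_cast h0
      apply le_of_eq
      field_simp
      norm_num
  have hcount := count24 (Fintype.card ι) e s m hcard (by rw [hm]; exact hM) hpart cl hz
  rw [← hl, ← hG, ← hcn, ← hsumc] at hcount
  have hfin := mul_le_mul_of_nonneg_right hcount hXn
  rw [decomp24 hKN q f g]
  have hgoal : (0 : ℝ) ≤ ((2 * ∑ Q, gd len q f g Q + ∑ P, ∑ Q, blk len q f g P Q : ℤ) : ℝ) := by
    push_cast
    linarith
  exact_mod_cast hgoal

end SP24
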