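import Pool.Agent.Lib.MP_4e7250_co.SP.Stmts24

/-! Spiders (MP_4e7250_co): module PS. -/

namespace SP24

open Finset

namespace PS39

variable {ι : Type} [Fintype ι] [DecidableEq ι] {len : ι → ℕ}

/-- exchange of the distances of two vertices on different legs -/
def tau (p : Vert len × Vert len) : Vert len × Vert len :=
  match p with
  | (some ⟨P, i⟩, some ⟨Q, j⟩) =>
    if h : P ≠ Q ∧ i.val < len Q ∧ j.val < len P then
      (some ⟨P, ⟨j.val, h.2.2⟩⟩, some ⟨Q, ⟨i.val, h.2.1⟩⟩)
    else (some ⟨P, i⟩, some ⟨Q, j⟩)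
  | (none, y) => (none, y)
  | (x, none) => (x, none)

lemma tau_pos {P Q : ι} {i : Fin (len P)} {j : Fin (len Q)}
    (h : P ≠ Q ∧ i.val < len Q ∧ j.val < len P) :
    tau ((some ⟨P, i⟩, some ⟨Q, j⟩) : Vert len × Vert len) =
      (some ⟨P, ⟨j.val, h.2.2⟩⟩, some ⟨Q, ⟨i.val, h.2.1⟩⟩) := by
  simp only [tau]
  rw [dif_pos h]

lemma tau_neg {P Q : ι} {i : Fin (len P)} {j : Fin (len Q)}
    (h : ¬ (P ≠ Q ∧ i.val < len Q ∧ j.val < len P)) :
    tau ((some ⟨P, i⟩, some ⟨Q, j⟩) : Vert len × Vert len) = (some ⟨P, i⟩, some ⟨Q, j⟩) := by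
  simp only [tau]
  rw [dif_neg h]

lemma tau_inv : Function.Involutive (tau : Vert len × Vert len → Vert len × Vert len) := by
  rintro ⟨x, y⟩
  rcases x with _ | ⟨P, i⟩
  · simp [tau]
  · rcases y with _ | ⟨Q, j⟩
    · simp [tau]
    · by_cases h : P ≠ Q ∧ i.val < len Q ∧ j.val < len P
      · rw [tau_pos h, tau_pos ⟨h.1, j.isLt, i.isLt⟩]
      · rw [tau_neg h, tau_neg h]

lemma iter {d : ℕ} {f : Vert len → ℤ} (h : HM d f) (P : ι) (a n : ℕ) :
    co f P (a + d * n) ≤ co f P a := by
  induction n with
  | zero => simp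
  | succ n ih =>
    have := h P (a + d * n)
    rw [show a + d * (n + 1) = a + d * n + d by ring]
    linarith

lemma mono {q : ℕ} {f : Vert len → ℤ} (h2 : HM 2 f) (h1 : q % 2 = 1 → HM 1 f) (P : ι)
    {a b : ℕ} (hab : a ≤ b) (hq : (q + a + b) % 2 = 0) : co f P b ≤ co f P a := by
  rcases Nat.mod_two_eq_zero_or_one q with h | h
  · have e : b = a + 2 * ((b - a) / 2) := by omega
    rw [e]
    exact iter h2 P a _
  · have e : b = a + 1 * (b - a) := by omega
    rw [e]
    exact iter (h1 h) P a _

/-- the product of two differences -/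
lemma prod_nonneg {q : ℕ} {f g : Vert len → ℤ} (hf2 : HM 2 f) (hg2 : HM 2 g)
    (h1 : q % 2 = 1 → HM 1 f ∧ HM 1 g) (P : ι) {a b : ℕ} (hq : (q + a + b) % 2 = 0) :
    0 ≤ (co f P a - co f P b) * (co g P a - co g P b) := by
  rcases le_total a b with h | h
  · have e1 := mono hf2 (fun h => (h1 h).1) P h hq
    have e2 := mono hg2 (fun h => (h1 h).2) P h hq
    exact mul_nonneg (by linarith) (by linarith)
  · have e1 := mono (q := q) hf2 (fun h => (h1 h).1) P h (by omega)
    have e2 := mono (q := q) hg2 (fun h => (h1 h).2) P h (by omega)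
    exact mul_nonneg_of_nonpos_of_nonpos (by linarith) (by linarith)

lemma prod_nonneg2 {q : ℕ} {f g : Vert len → ℤ} (hf2 : HM 2 f) (hg2 : HM 2 g)
    (h1 : q % 2 = 1 → HM 1 f ∧ HM 1 g) (P Q : ι) {a b : ℕ} (hq : (q + a + b) % 2 = 0) :
    0 ≤ ((co f P a + co f Q a) - (co f P b + co f Q b)) *
      ((co g P a + co g Q a) - (co g P b + co g Q b)) := by
  rcases le_total a b with h | h
  · have e1 := mono hf2 (fun h => (h1 h).1) P h hq
    have e2 := mono hg2 (fun h => (h1 h).2) P h hq
    have e3 := mono hf2 (fun h => (h1 h).1) Q h hq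
    have e4 := mono hg2 (fun h => (h1 h).2) Q h hq
    exact mul_nonneg (by linarith) (by linarith)
  · have e1 := mono (q := q) hf2 (fun h => (h1 h).1) P h (by omega)
    have e2 := mono (q := q) hg2 (fun h => (h1 h).2) P h (by omega)
    have e3 := mono (q := q) hf2 (fun h => (h1 h).1) Q h (by omega)
    have e4 := mono (q := q) hg2 (fun h => (h1 h).2) Q h (by omega)
    exact mul_nonneg_of_nonpos_of_nonpos (by linarith) (by linarith)

lemma cross {q : ℕ} {f g : Vert len → ℤ} (hf : HE f) (hg : HE g) (hf2 : HM 2 f) (hg2 : HM 2 g)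
    (h1 : q % 2 = 1 → HM 1 f ∧ HM 1 g) (P Q : ι) {a b : ℕ} (hq : (q + a + b) % 2 = 0) :
    0 ≤ (co f P a - co f Q b) * (co g P a - co g Q b) +
      (co f P b - co f Q a) * (co g P b - co g Q a) := by
  have e1 := prod_nonneg2 hf2 hg2 h1 P Q hq
  have e2 : 0 ≤ ((co f Q a - co f P a) + (co f Q b - co f P b)) *
      ((co g Q a - co g P a) + (co g Q b - co g P b)) := by
    rcases le_total (len P) (len Q) with h | h
    · have e3 := hf P Q a h
      have e4 := hf P Q b h
      have e5 := hg P Q a h
      have e6 := hg P Q b h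
      exact mul_nonneg (by linarith) (by linarith)
    · have e3 := hf Q P a h
      have e4 := hf Q P b h
      have e5 := hg Q P a h
      have e6 := hg Q P b h
      exact mul_nonneg_of_nonpos_of_nonpos (by linarith) (by linarith)
  nlinarith

lemma co_some (f : Vert len → ℤ) (P : ι) (i : Fin (len P)) :
    co f P (i.val + 1) = f (some ⟨P, i⟩) := by
  simp only [co]
  rw [dif_pos i.isLt]

lemma co_none (f : Vert len → ℤ) (P : ι) : co f P 0 = f none := rfl

end PS39

open PS39 in
/-- (PS) -/
theorem ps (h1 : StKN) (h2 : StKR) (h3 : StPA) : StPS := by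
  intro ι _ _ len hlen q hq f g hf hg hf2 hg2 hodd
  obtain ⟨T, hT⟩ : ∃ T : Vert len × Vert len → ℤ, T = fun p => N (spider len) q p.1 p.2 *
    ((f p.1 - f p.2) * (g p.1 - g p.2)) := ⟨_, rfl⟩
  have hN : ∀ x y, 0 ≤ N (spider len) q x y := (h1 _ (spider len) q).2.1
  have hsum : ∑ x, ∑ y, N (spider len) q x y * ((f x - f y) * (g x - g y)) = ∑ p, T p := by
    rw [hT, Fintype.sum_prod_type]
  have hsum2 : ∑ p, T p = ∑ p, T (tau p) :=
    (Equiv.sum_comp (Function.Involutive.toPerm tau tau_inv) T).symm
  have hterm : ∀ p, 0 ≤ T p + T (tau p) := by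
    -- pairs in the same leg
    have same : ∀ (P : ι) (a b : ℕ) (x y : Vert len), f x = co f P a → g x = co g P a →
        f y = co f P b → g y = co g P b → dst x = a → dst y = b →
        0 ≤ N (spider len) q x y * ((f x - f y) * (g x - g y)) := by
      intro P a b x y hx1 hx2 hy1 hy2 hdx hdy
      rcases Nat.mod_two_eq_zero_or_one (q + a + b) with h | h
      · rw [hx1, hx2, hy1, hy2]
        exact mul_nonneg (hN x y) (prod_nonneg hf2 hg2 hodd P h)
      · rw [h3 ι len q x y (by rw [hdx, hdy]; exact h), zero_mul]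
    rintro ⟨x, y⟩
    rcases x with _ | ⟨P, i⟩
    · rcases y with _ | ⟨Q, j⟩
      · have e : tau ((none, none) : Vert len × Vert len) = (none, none) := rfl
        rw [e, hT]
        simp
      · have e : tau ((none, some ⟨Q, j⟩) : Vert len × Vert len) = (none, some ⟨Q, j⟩) := rfl
        rw [e, hT]
        have := same Q 0 (j.val + 1) none (some ⟨Q, j⟩) (co_none f Q).symm (co_none g Q).symm
          (co_some f Q j).symm (co_some g Q j).symm rfl rfl
        exact add_nonneg this this
    · rcases y with _ | ⟨Q, j⟩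
      · have e : tau ((some ⟨P, i⟩, none) : Vert len × Vert len) = (some ⟨P, i⟩, none) := rfl
        rw [e, hT]
        have := same P (i.val + 1) 0 (some ⟨P, i⟩) none (co_some f P i).symm (co_some g P i).symm
          (co_none f P).symm (co_none g P).symm rfl rfl
        exact add_nonneg this this
      · by_cases hPQ : P = Q
        · subst hPQ
          rw [tau_neg (fun h => h.1 rfl), hT]
          have := same P (i.val + 1) (j.val + 1) (some ⟨P, i⟩) (some ⟨P, j⟩)
            (co_some f P i).symm (co_some g P i).symm (co_some f P j).symm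
            (co_some g P j).symm rfl rfl
          exact add_nonneg this this
        · have hKR := h2 ι len hlen q hq P Q hPQ i j
          by_cases h : P ≠ Q ∧ i.val < len Q ∧ j.val < len P
          · rw [tau_pos h, hT]
            simp only
            rw [← hKR.2 h.2.1 h.2.2, ← mul_add]
            rcases Nat.mod_two_eq_zero_or_one (q + (i.val + 1) + (j.val + 1)) with hp | hp
            · apply mul_nonneg (hN _ _)
              have hc := cross hf hg hf2 hg2 hodd P Q hp
              rw [co_some f P i, co_some g P i, co_some f Q j, co_some g Q j] at hc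
              have e1 := co_some f P ⟨j.val, h.2.2⟩
              have e2 := co_some g P ⟨j.val, h.2.2⟩
              have e3 := co_some f Q ⟨i.val, h.2.1⟩
              have e4 := co_some g Q ⟨i.val, h.2.1⟩
              simp only at e1 e2 e3 e4
              rw [e1, e2, e3, e4] at hc
              exact hc
            · rw [h3 ι len q (some ⟨P, i⟩) (some ⟨Q, j⟩) hp, zero_mul]
          · rw [tau_neg h, hT]
            simp only
            have hz : N (spider len) q (some ⟨P, i⟩) (some ⟨Q, j⟩) = 0 := by
              apply hKR.1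
              have hl1 := hlen P
              have hl2 := hlen Q
              rcases hq with hq | hq
              · have hq1 := hq P
                have hq2 := hq Q
                by_contra hcon
                apply h
                refine ⟨hPQ, by omega, by omega⟩
              · by_contra hcon
                apply h
                refine ⟨hPQ, by omega, by omega⟩
            rw [hz]
            simp
  have h2S : 0 ≤ ∑ p, (T p + T (tau p)) := Finset.sum_nonneg (fun p _ => hterm p)
  rw [Finset.sum_add_distrib, ← hsum2] at h2S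
  rw [hsum]
  linarith

end SP24
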