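import Pool.Agent.Lib.MP_4e7250_co.SP.Base24

/-! Spiders (MP_4e7250_co): the statements of the modules. -/

namespace SP24

open Finset

/-! ### Homomorphisms -/

/-- (HP) the number of homomorphisms from a path. -/
def StHP : Prop := ∀ (V : Type) [Fintype V] (G : SimpleGraph V) (k : ℕ),
  (Nat.card (SimpleGraph.pathGraph (k + 1) →g G) : ℤ) = ∑ x, W G k x

/-- (HS) the number of homomorphisms from a spider. -/
def StHS : Prop := ∀ (ι : Type) [Fintype ι] [DecidableEq ι] (len : ι → ℕ) (V : Type) [Fintype V]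
    (G : SimpleGraph V),
  (Nat.card (spider len →g G) : ℤ) = ∑ x, ∏ P, W G (len P) x

/-! ### Walks in any graph -/

/-- (SA) the adjacency operator is self-adjoint. -/
def StSA : Prop := ∀ (V : Type) [Fintype V] (G : SimpleGraph V) (f g : V → ℤ) (k : ℕ),
  ∑ x, It G f k x * g x = ∑ x, f x * It G g k x

/-- (KN) the kernel: symmetry, and iterates as sums over the kernel. -/
def StKN : Prop := ∀ (V : Type) [Fintype V] (G : SimpleGraph V) (k : ℕ),
  (∀ x y, N G k x y = N G k y x) ∧ (∀ x y, 0 ≤ N G k x y) ∧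
  ∀ (f : V → ℤ) (x : V), It G f k x = ∑ y, N G k x y * f y

/-- (PF) the pair formula. -/
def StPF : Prop := ∀ (V : Type) [Fintype V] (G : SimpleGraph V) (p q : ℕ) (R : V → ℤ),
  2 * (∑ x, W G p x * W G q x * R x - ∑ x, W G (p + q) x * R x) =
    ∑ x, ∑ y, N G q x y * ((W G p x - W G p y) * (R x - R y))

/-! ### Coordinates on the spider -/

/-- (CO) the iterates form a family. -/
def StCO : Prop := ∀ (ι : Type) [Fintype ι] [DecidableEq ι] (len : ι → ℕ), (∀ P, 1 ≤ len P) →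
  ∀ f : Vert len → ℤ, Fam len (fun k => co (It (spider len) f k))

/-- (KR) the kernel of the spider between two legs: it vanishes for large distances, and it is
symmetric under exchanging the distances, if `q` is at most all the lengths of the legs or `q` is at
most 2; (PA) parity. -/
def StKR : Prop := ∀ (ι : Type) [Fintype ι] [DecidableEq ι] (len : ι → ℕ), (∀ P, 1 ≤ len P) →
  ∀ q : ℕ, ((∀ P, q ≤ len P) ∨ q ≤ 2) → ∀ P Q : ι, P ≠ Q → ∀ (i : Fin (len P)) (j : Fin (len Q)),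
    (q < i.val + j.val + 2 → N (spider len) q (some ⟨P, i⟩) (some ⟨Q, j⟩) = 0) ∧
    ∀ (hi : i.val < len Q) (hj : j.val < len P),
      N (spider len) q (some ⟨P, i⟩) (some ⟨Q, j⟩) =
        N (spider len) q (some ⟨P, ⟨j.val, hj⟩⟩) (some ⟨Q, ⟨i.val, hi⟩⟩)

/-- The distance to the centre. -/
def dst {ι : Type} {len : ι → ℕ} : Vert len → ℕ
  | none => 0
  | some ⟨_, i⟩ => i.val + 1

/-- (PA) walks respect the parity of the distance to the centre. -/
def StPA : Prop := ∀ (ι : Type) [Fintype ι] [DecidableEq ι] (len : ι → ℕ) (q : ℕ)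
    (x y : Vert len), (q + dst x + dst y) % 2 = 1 → N (spider len) q x y = 0

/-- (PS) the pair sum is nonnegative. -/
def StPS : Prop := ∀ (ι : Type) [Fintype ι] [DecidableEq ι] (len : ι → ℕ), (∀ P, 1 ≤ len P) →
  ∀ q : ℕ, ((∀ P, q ≤ len P) ∨ q ≤ 2) → ∀ f g : Vert len → ℤ, HE f → HE g →
    HM 2 f → HM 2 g → (q % 2 = 1 → HM 1 f ∧ HM 1 g) →
    0 ≤ ∑ x, ∑ y, N (spider len) q x y * ((f x - f y) * (g x - g y))

/-! ### Monotonicity of the numbers of walks -/

/-- (ME) longer legs have larger values, all values are nonnegative. -/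
def StME : Prop := ∀ (ι : Type) [Fintype ι] (len : ι → ℕ) (F : ℕ → ι → ℕ → ℤ), WFam len F →
  (∀ k P i, 0 ≤ F k P i) ∧ ∀ k P Q i, len P ≤ len Q → F k P i ≤ F k Q i

/-- (M2) monotonicity in steps of two. -/
def StM2 : Prop := ∀ (ι : Type) [Fintype ι] [DecidableEq ι] (len : ι → ℕ)
    (F : ℕ → ι → ℕ → ℤ), (∀ P, 1 ≤ len P) → 3 ≤ Fintype.card ι → WFam len F →
  ∀ k P i, F k P (i + 2) ≤ F k P i

/-- (M1) monotonicity in steps of one from the inequality at the centre. -/
def StM1 : Prop := ∀ (ι : Type) [Fintype ι] [DecidableEq ι] (len : ι → ℕ)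
    (F : ℕ → ι → ℕ → ℤ) (A : ι) (K : ℕ), (∀ P, 1 ≤ len P ∧ len P ≤ len A) → WFam len F →
  (∀ k, k < K → F k A 0 ≤ ∑ P ∈ univ.erase A, F k P 1) →
  ∀ k, k ≤ K → ∀ P i, F k P (i + 1) ≤ F k P i

/-- (ID) the identity at the centre. -/
def StID : Prop := ∀ (ι : Type) [Fintype ι] [DecidableEq ι] (len : ι → ℕ)
    (F U : ℕ → ι → ℕ → ℤ) (A : ι), (∀ P, 1 ≤ len P) → WFam len F → MFam len A U → ∀ k,
  ∑ P ∈ univ.erase A, F k P 1 - F k A 0 =
    ((Fintype.card ι : ℤ) - 2) * U k A 0 - ∑ P, U k P (len P) + F k A (len A)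

/-- (MU) order properties of the family `U`. -/
def StMU : Prop := ∀ (ι : Type) [Fintype ι] [DecidableEq ι] (len : ι → ℕ)
    (F U : ℕ → ι → ℕ → ℤ) (A : ι), (∀ P, 1 ≤ len P ∧ len P ≤ len A) → WFam len F →
  MFam len A U →
  (∀ k P i, 0 ≤ U k P i) ∧ (∀ k P i, U k P i ≤ U (k + 1) P i) ∧ (∀ k P i, U k P i ≤ F k P i)

/-- (XI) the inequality at the centre if at least two legs besides `A` have length at least two. -/
def StXI : Prop := ∀ (ι : Type) [Fintype ι] [DecidableEq ι] (len : ι → ℕ)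
    (U : ℕ → ι → ℕ → ℤ) (A : ι), (∀ P, 1 ≤ len P ∧ len P ≤ len A) → MFam len A U →
  2 ≤ ((univ.erase A).filter (fun P => 2 ≤ len P)).card → ∀ k,
  ∑ P ∈ univ.erase A, U k P (len P) ≤ ((Fintype.card ι : ℤ) - 2) * U k A 0

/-- (GG) the inequality at the centre for two long legs and at least two leaves at the centre. -/
def StGG : Prop := ∀ (ι : Type) [Fintype ι] [DecidableEq ι] (len : ι → ℕ)
    (F : ℕ → ι → ℕ → ℤ) (A B : ι), A ≠ B → 2 ≤ len B → len B ≤ len A →
  (∀ P, P ≠ A → P ≠ B → len P = 1) → 4 ≤ Fintype.card ι → WFam len F → ∀ k,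
  F k A 0 ≤ ∑ P ∈ univ.erase A, F k P 1

/-- (VV) the inequality at the centre for two long legs and one leaf at the centre, for times at
most the length of the longest leg. -/
def StVV : Prop := ∀ (ι : Type) [Fintype ι] [DecidableEq ι] (len : ι → ℕ)
    (F : ℕ → ι → ℕ → ℤ) (A B : ι), A ≠ B → 2 ≤ len B → len B ≤ len A →
  (∀ P, P ≠ A → P ≠ B → len P = 1) → Fintype.card ι = 3 → WFam len F → ∀ k, k ≤ len A →
  F k A 0 ≤ ∑ P ∈ univ.erase A, F k P 1

/-! ### Trees with three leaves -/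

/-- (TL) a tree with exactly three leaves is a spider with three legs. -/
def StTL : Prop := ∀ (V : Type) [Fintype V] (T : SimpleGraph V), T.IsTree →
  {x : V | ∃ p, ∀ u, T.Adj x u ↔ u = p}.ncard = 3 →
  ∃ a b c : ℕ, 1 ≤ c ∧ c ≤ b ∧ b ≤ a ∧ Nonempty (spider ![a, b, c] ≃g T)

end SP24
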