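import Pool.Agent.Lib.MP_4e7250_co.SP.Stmts24

/-! Spiders (MP_4e7250_co), module TL: a tree with exactly three leaves is a spider. -/

namespace SP24

namespace TL88

open Finset

/-- The parent map of a rooted tree. -/
lemma rooted {V : Type} (T : SimpleGraph V) (hT : T.IsTree) (v : V) :
    ∃ par : V → V, (∀ x, x ≠ v → T.Adj x (par x) ∧ T.dist v (par x) + 1 = T.dist v x) ∧
      ∀ x y, T.Adj x y → T.dist v y + 1 = T.dist v x → y = par x := by
  classical
  have h1 : ∀ x, ∃ p : T.Walk v x, p.IsPath ∧ p.length = T.dist v x :=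
    fun x => hT.connected.exists_path_of_dist v x
  choose p hp hl using h1
  refine ⟨fun x => (p x).penultimate, ?_, ?_⟩
  · intro x hx
    have hnil : ¬ (p x).Nil := SimpleGraph.Walk.not_nil_of_ne (fun h => hx h.symm)
    have hadj : T.Adj (p x).penultimate x := (p x).adj_penultimate hnil
    refine ⟨hadj.symm, ?_⟩
    have h2 : T.dist v (p x).penultimate ≤ (p x).dropLast.length := SimpleGraph.dist_le _
    have h3 : (p x).dropLast.length + 1 = (p x).length :=
      SimpleGraph.Walk.length_dropLast_add_one hnil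
    have h4 := hT.dist_eq_dist_add_one_of_adj v hadj
    have h5 := hl x
    show T.dist v (p x).penultimate + 1 = T.dist v x
    rcases h4 with h4 | h4 <;> omega
  · intro x y hadj hd
    have h2 : ((p y).concat hadj.symm).length = T.dist v x := by
      rw [SimpleGraph.Walk.length_concat, hl y, hd]
    have h3 := ((p y).concat hadj.symm).isPath_of_length_eq_dist h2
    have h4 : (p y).concat hadj.symm = p x := by
      have := (hT.isAcyclic.subsingleton_path v x).elim ⟨_, h3⟩ ⟨p x, hp x⟩
      exact congrArg Subtype.val this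
    have h5 : y ∈ (p x).support := by
      rw [← h4, SimpleGraph.Walk.support_concat]
      simp
    exact hT.isAcyclic.eq_penultimate_of_adj_end (hp x) hadj h5

/-- The parent in the spider. -/
def spar {ι : Type} {len : ι → ℕ} : Vert len → Vert len
  | none => none
  | some ⟨_, ⟨0, _⟩⟩ => none
  | some ⟨P, ⟨i + 1, h⟩⟩ => some ⟨P, ⟨i, Nat.lt_of_succ_lt h⟩⟩

lemma spRel_iff {ι : Type} {len : ι → ℕ} (a b : Vert len) :
    spRel len a b ↔ b ≠ none ∧ spar b = a := by
  rcases b with _ | ⟨Q, ⟨j, hj⟩⟩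
  · rcases a with _ | ⟨P, ⟨i, hi⟩⟩ <;> simp [spRel]
  · rcases j with _ | j
    · rcases a with _ | ⟨P, ⟨i, hi⟩⟩ <;> simp [spRel, spar]
    · rcases a with _ | ⟨P, ⟨i, hi⟩⟩
      · simp [spRel, spar]
      · simp only [spRel, spar, ne_eq, reduceCtorEq, not_false_eq_true, true_and,
          Option.some.injEq]
        constructor
        · rintro ⟨h1, h2⟩
          subst h1
          have h3 : i = j := by omega
          subst h3
          rfl
        · intro h
          have h1 := congrArg Sigma.fst h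
          simp only at h1
          subst h1
          simp only [Sigma.mk.injEq, heq_eq_eq, Fin.mk.injEq, true_and] at h
          exact ⟨rfl, by omega⟩

section core

variable {V : Type} (T : SimpleGraph V) (v : V) (d : V → ℕ) (par : V → V) {ι : Type} (l : ι → V)

/-- The map from the spider. -/
def mp : Vert (fun P => d (l P)) → V
  | none => v
  | some ⟨P, i⟩ => par^[d (l P) - (i.val + 1)] (l P)

lemma d_iter (hpar : ∀ x, x ≠ v → d (par x) + 1 = d x) (hd0 : ∀ x, d x = 0 ↔ x = v)
    (x : V) (m : ℕ) (hm : m ≤ d x) : d (par^[m] x) = d x - m := by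
  induction m with
  | zero => simp
  | succ m ih =>
    have h1 := ih (by omega)
    rw [Function.iterate_succ_apply']
    have h2 : par^[m] x ≠ v := by
      intro h
      have := (hd0 _).2 h
      omega
    have h3 := hpar _ h2
    omega

lemma d_mp (hpar : ∀ x, x ≠ v → d (par x) + 1 = d x) (hd0 : ∀ x, d x = 0 ↔ x = v)
    (P : ι) (i : Fin (d (l P))) : d (mp v d par l (some ⟨P, i⟩)) = i.val + 1 := by
  have := i.2
  rw [mp, d_iter v d par hpar hd0 _ _ (by omega)]
  omega

lemma mp_spar (hpar : ∀ x, x ≠ v → d (par x) + 1 = d x) (hd0 : ∀ x, d x = 0 ↔ x = v)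
    (b : Vert (fun P => d (l P))) (hb : b ≠ none) :
    par (mp v d par l b) = mp v d par l (spar b) := by
  rcases b with _ | ⟨Q, ⟨j, hj⟩⟩
  · exact absurd rfl hb
  · have h0 := d_mp v d par l hpar hd0 Q ⟨j, hj⟩
    have h1 : mp v d par l (some ⟨Q, ⟨j, hj⟩⟩) ≠ v := by
      intro h
      have := (hd0 _).2 h
      omega
    have h2 := hpar _ h1
    rcases j with _ | j
    · rw [spar]
      simp only [mp]
      simp only [mp] at h2 h0
      apply (hd0 _).1
      omega
    · rw [spar]
      simp only [mp]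
      have h5 := Function.iterate_succ_apply' par (d (l Q) - (j + 1 + 1)) (l Q)
      rw [← h5]
      simp only at hj
      have h6 : (d (l Q) - (j + 1 + 1)).succ = d (l Q) - (j + 1) := by omega
      rw [h6]

lemma iter_inj (hd0 : ∀ x, d x = 0 ↔ x = v) (hpar : ∀ x, x ≠ v → d (par x) + 1 = d x)
    (hch : ∀ x y y', x ≠ v → y ≠ v → y' ≠ v → par y = x → par y' = x → y = y')
    (hl : Function.Injective l) (hleaf : ∀ P y, y ≠ v → par y ≠ l P) (P Q : ι) :
    ∀ m m' : ℕ, m < d (l P) → m' < d (l Q) → par^[m] (l P) = par^[m'] (l Q) → P = Q ∧ m = m' := by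
  have hne : ∀ (P : ι) (m : ℕ), m < d (l P) → par^[m] (l P) ≠ v := by
    intro P m hm h
    have := (hd0 _).2 h
    rw [d_iter v d par hpar hd0 _ _ hm.le] at this
    omega
  intro m
  induction m with
  | zero =>
    intro m' hm hm' h
    rcases m' with _ | m'
    · exact ⟨hl h, rfl⟩
    · rw [Function.iterate_succ_apply'] at h
      exact absurd h.symm (hleaf P _ (hne Q m' (by omega)))
  | succ m ih =>
    intro m' hm hm' h
    rcases m' with _ | m'
    · rw [Function.iterate_succ_apply'] at h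
      exact absurd h (hleaf Q _ (hne P m (by omega)))
    · have h1 := ih m' (by omega) (by omega)
        (hch (par^[m+1] (l P)) _ _ (hne P (m+1) hm) (hne P m (by omega)) (hne Q m' (by omega))
          (by rw [Function.iterate_succ_apply']) (by rw [h, Function.iterate_succ_apply']))
      exact ⟨h1.1, by omega⟩

lemma mp_inj (hd0 : ∀ x, d x = 0 ↔ x = v) (hpar : ∀ x, x ≠ v → d (par x) + 1 = d x)
    (hch : ∀ x y y', x ≠ v → y ≠ v → y' ≠ v → par y = x → par y' = x → y = y')
    (hl : Function.Injective l) (hleaf : ∀ P y, y ≠ v → par y ≠ l P) :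
    Function.Injective (mp v d par l) := by
  have hn : ∀ P (i : Fin (d (l P))), mp v d par l (some ⟨P, i⟩) ≠ v := by
    intro P i h
    have := (hd0 _).2 h
    rw [d_mp v d par l hpar hd0] at this
    omega
  intro a b h
  rcases a with _ | ⟨P, ⟨i, hi⟩⟩
  · rcases b with _ | ⟨Q, j⟩
    · rfl
    · exact absurd h.symm (hn Q j)
  · rcases b with _ | ⟨Q, ⟨j, hj⟩⟩
    · exact absurd h (hn P _)
    · simp only [mp] at h
      simp only at hi hj
      obtain ⟨h1, h2⟩ := iter_inj v d par l hd0 hpar hch hl hleaf P Q _ _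
        (by omega) (by omega) h
      subst h1
      have h3 : i = j := by omega
      subst h3
      rfl

lemma mp_surj (hd0 : ∀ x, d x = 0 ↔ x = v) (hpar : ∀ x, x ≠ v → d (par x) + 1 = d x)
    (D : ℕ) (hD : ∀ x, d x ≤ D)
    (hex : ∀ x, x ≠ v → (∃ P, l P = x) ∨ ∃ y, y ≠ v ∧ par y = x) :
    Function.Surjective (mp v d par l) := by
  have key : ∀ k : ℕ, ∀ x, x ≠ v → D - d x ≤ k → ∃ P, ∃ m, m < d (l P) ∧ par^[m] (l P) = x := by
    intro k
    induction k with
    | zero =>
      intro x hx hk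
      have hdx : d x ≠ 0 := fun h => hx ((hd0 x).1 h)
      rcases hex x hx with ⟨P, hP⟩ | ⟨y, hy, hyx⟩
      · exact ⟨P, 0, by rw [hP]; omega, hP⟩
      · exfalso
        have h1 := hpar y hy
        have h2 := hD y
        rw [hyx] at h1
        omega
    | succ k ih =>
      intro x hx hk
      have hdx : d x ≠ 0 := fun h => hx ((hd0 x).1 h)
      rcases hex x hx with ⟨P, hP⟩ | ⟨y, hy, hyx⟩
      · exact ⟨P, 0, by rw [hP]; omega, hP⟩
      · have h1 := hpar y hy
        have h2 := hD y
        rw [hyx] at h1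
        obtain ⟨P, m, hm, hmy⟩ := ih y hy (by omega)
        have h3 := d_iter v d par hpar hd0 (l P) m hm.le
        rw [hmy] at h3
        exact ⟨P, m + 1, by omega, by rw [Function.iterate_succ_apply', hmy, hyx]⟩
  intro x
  by_cases hx : x = v
  · exact ⟨none, hx.symm⟩
  · obtain ⟨P, m, hm, hmx⟩ := key _ x hx le_rfl
    refine ⟨some ⟨P, ⟨d (l P) - 1 - m, by simp only; omega⟩⟩, ?_⟩
    simp only [mp]
    rw [← hmx]
    congr 1
    omega

/-- The abstract isomorphism. -/
lemma core (hd0 : ∀ x, d x = 0 ↔ x = v) (hpar : ∀ x, x ≠ v → d (par x) + 1 = d x)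
    (hadj : ∀ x y, T.Adj x y ↔ (x ≠ v ∧ par x = y) ∨ (y ≠ v ∧ par y = x))
    (hch : ∀ x y y', x ≠ v → y ≠ v → y' ≠ v → par y = x → par y' = x → y = y')
    (hl : Function.Injective l) (hleaf : ∀ P y, y ≠ v → par y ≠ l P)
    (D : ℕ) (hD : ∀ x, d x ≤ D)
    (hex : ∀ x, x ≠ v → (∃ P, l P = x) ∨ ∃ y, y ≠ v ∧ par y = x) :
    Nonempty (spider (fun P => d (l P)) ≃g T) := by
  have hinj := mp_inj v d par l hd0 hpar hch hl hleaf
  have hsurj := mp_surj v d par l hd0 hpar D hD hex
  have hv : ∀ b, mp v d par l b = v ↔ b = none := by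
    intro b
    constructor
    · intro h
      exact hinj (h.trans rfl)
    · rintro rfl
      rfl
  have hrel : ∀ a b, spRel (fun P => d (l P)) a b ↔
      (mp v d par l b ≠ v ∧ par (mp v d par l b) = mp v d par l a) := by
    intro a b
    rw [spRel_iff, Ne, Ne, hv]
    constructor
    · rintro ⟨h1, h2⟩
      exact ⟨h1, by rw [mp_spar v d par l hpar hd0 b h1, h2]⟩
    · rintro ⟨h1, h2⟩
      rw [mp_spar v d par l hpar hd0 b h1] at h2
      exact ⟨h1, hinj h2⟩
  have hbij : Function.Bijective (mp v d par l) := And.intro hinj hsurj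
  refine ⟨⟨Equiv.ofBijective (mp v d par l) hbij, ?_⟩⟩
  intro a b
  show T.Adj (mp v d par l a) (mp v d par l b) ↔ _
  rw [hadj, spider, SimpleGraph.fromRel_adj, hrel, hrel]
  constructor
  · intro h
    refine ⟨?_, h.symm⟩
    rintro rfl
    have : T.Adj (mp v d par l a) (mp v d par l a) := (hadj _ _).2 h
    exact this.ne rfl
  · rintro ⟨_, h⟩
    exact h.symm

end core

end TL88

open TL88 in
theorem tl : StTL := by
  classical
  intro V _ T hT hL
  set L : Set V := {x : V | ∃ p, ∀ u, T.Adj x u ↔ u = p} with hLdef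
  have hnt : Nontrivial V := by
    have h1 : 1 < L.ncard := by omega
    rw [Set.one_lt_ncard_iff] at h1
    obtain ⟨a, b, _, _, hab⟩ := h1
    exact ⟨a, b, hab⟩
  have hdeg1 : ∀ x, x ∈ L ↔ T.degree x = 1 := by
    intro x
    rw [SimpleGraph.degree_eq_one_iff_existsUnique_adj]
    constructor
    · rintro ⟨p, hp⟩
      exact ⟨p, (hp p).2 rfl, fun y hy => (hp y).1 hy⟩
    · rintro ⟨p, hp, hp2⟩
      exact ⟨p, fun u => ⟨fun h => hp2 u h, fun h => h ▸ hp⟩⟩
  have hpos : ∀ x, 1 ≤ T.degree x := by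
    intro x
    exact hT.connected.preconnected.degree_pos_of_nontrivial x
  have hsum : ∑ x, (T.degree x : ℤ) = 2 * (Fintype.card V : ℤ) - 2 := by
    have h1 := T.sum_degrees_eq_twice_card_edges
    have h2 := hT.card_edgeFinset
    have h3 : (∑ x, (T.degree x : ℤ)) = ((∑ x, T.degree x : ℕ) : ℤ) := by push_cast; rfl
    rw [h3, h1]
    push_cast
    have h4 : ((T.edgeFinset.card : ℤ) + 1) = (Fintype.card V : ℤ) := by exact_mod_cast h2
    linarith
  have hLf : ((Finset.univ : Finset V).filter (fun x => x ∈ L)).card = 3 := by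
    rw [← hL, Set.ncard_eq_toFinset_card']
    congr 1
    ext x
    simp
  -- sum over the vertices which are not leaves
  have hs2 : ∑ x ∈ (Finset.univ : Finset V).filter (fun x => x ∉ L), ((T.degree x : ℤ) - 2) = 1 := by
    have h1 : ∑ x, ((T.degree x : ℤ) - 2) = -2 := by
      rw [Finset.sum_sub_distrib, hsum]
      simp
      ring
    rw [← Finset.sum_filter_add_sum_filter_not Finset.univ (fun x => x ∈ L)] at h1
    have h2 : ∑ x ∈ (Finset.univ : Finset V).filter (fun x => x ∈ L), ((T.degree x : ℤ) - 2) = -3 := by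
      rw [Finset.sum_congr rfl (g := fun _ => (-1 : ℤ))]
      · rw [Finset.sum_const, hLf]
        rfl
      · intro x hx
        rw [Finset.mem_filter, hdeg1] at hx
        rw [hx.2]
        rfl
    linarith
  have hge : ∀ x, x ∉ L → (0 : ℤ) ≤ (T.degree x : ℤ) - 2 := by
    intro x hx
    rw [hdeg1] at hx
    have := hpos x
    have h2 : 2 ≤ T.degree x := by omega
    have h3 : (2 : ℤ) ≤ (T.degree x : ℤ) := by exact_mod_cast h2
    linarith
  obtain ⟨v, hvL, hv3, hoth⟩ : ∃ v, v ∉ L ∧ T.degree v = 3 ∧ ∀ x, x ≠ v → x ∉ L →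
      T.degree x = 2 := by
    have h1 : ∃ v ∈ (Finset.univ : Finset V).filter (fun x => x ∉ L),
        ((T.degree v : ℤ) - 2) ≠ 0 := by
      by_contra hcon
      push Not at hcon
      rw [Finset.sum_eq_zero hcon] at hs2
      norm_num at hs2
    obtain ⟨v, hv, hv0⟩ := h1
    rw [← Finset.add_sum_erase _ _ hv] at hs2
    have hvL : v ∉ L := (Finset.mem_filter.1 hv).2
    have h2 : ∀ x ∈ ((Finset.univ : Finset V).filter (fun x => x ∉ L)).erase v,
        (0 : ℤ) ≤ (T.degree x : ℤ) - 2 := by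
      intro x hx
      rw [Finset.mem_erase, Finset.mem_filter] at hx
      exact hge x hx.2.2
    have h3 := Finset.sum_nonneg h2
    have h4 := hge v hvL
    have h5 : (T.degree v : ℤ) = 3 := by omega
    have h6 : ∑ x ∈ ((Finset.univ : Finset V).filter (fun x => x ∉ L)).erase v,
        ((T.degree x : ℤ) - 2) = 0 := by omega
    rw [Finset.sum_eq_zero_iff_of_nonneg h2] at h6
    refine ⟨v, hvL, by exact_mod_cast h5, ?_⟩
    intro x hx hxL
    have h7 := h6 x (by
      rw [Finset.mem_erase, Finset.mem_filter]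
      exact ⟨hx, Finset.mem_univ _, hxL⟩)
    have h8 : (T.degree x : ℤ) = 2 := by linarith
    exact_mod_cast h8
  obtain ⟨par, hpar, hparu⟩ := rooted T hT v
  have hd0 : ∀ x, T.dist v x = 0 ↔ x = v := by
    intro x
    rw [hT.connected.dist_eq_zero_iff]
    exact eq_comm
  have hadj : ∀ x y, T.Adj x y ↔ (x ≠ v ∧ par x = y) ∨ (y ≠ v ∧ par y = x) := by
    intro x y
    constructor
    · intro h
      rcases hT.dist_eq_dist_add_one_of_adj v h with h1 | h1
      · left
        refine ⟨?_, (hparu x y h h1.symm).symm⟩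
        intro hx
        rw [(hd0 x).2 hx] at h1
        omega
      · right
        refine ⟨?_, (hparu y x h.symm h1.symm).symm⟩
        intro hx
        rw [(hd0 y).2 hx] at h1
        omega
    · rintro (⟨h1, h2⟩ | ⟨h1, h2⟩)
      · rw [← h2]
        exact (hpar x h1).1
      · rw [← h2]
        exact (hpar y h1).1.symm
  have hpn : ∀ x y, x ≠ v → y ≠ v → par y = x → y ≠ par x := by
    intro x y hx hy h1 h2
    have h3 := (hpar x hx).2
    have h4 := (hpar y hy).2
    rw [h1] at h4
    rw [← h2] at h3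
    omega
  have hch : ∀ x y y', x ≠ v → y ≠ v → y' ≠ v → par y = x → par y' = x → y = y' := by
    intro x y y' hx hy hy' h1 h2
    by_contra hne
    have h3 : T.degree x ≤ 2 := by
      by_cases hxL : x ∈ L
      · have := (hdeg1 x).1 hxL
        omega
      · exact (hoth x hx hxL).le
    have h4 : ({par x, y, y'} : Finset V) ⊆ T.neighborFinset x := by
      intro z hz
      rw [SimpleGraph.mem_neighborFinset]
      simp only [Finset.mem_insert, Finset.mem_singleton] at hz
      rcases hz with rfl | rfl | rfl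
      · exact (hpar x hx).1
      · exact (hadj _ _).2 (Or.inr ⟨hy, h1⟩)
      · exact (hadj _ _).2 (Or.inr ⟨hy', h2⟩)
    have h5 := Finset.card_le_card h4
    have h6 : ({par x, y, y'} : Finset V).card = 3 := by
      rw [Finset.card_eq_three]
      exact ⟨par x, y, y', fun h => hpn x y hx hy h1 h.symm, fun h => hpn x y' hx hy' h2 h.symm,
        hne, rfl⟩
    rw [h6, SimpleGraph.card_neighborFinset_eq_degree] at h5
    omega
  have hex : ∀ x, x ≠ v → x ∈ L ∨ ∃ y, y ≠ v ∧ par y = x := by
    intro x hx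
    by_cases hxL : x ∈ L
    · exact Or.inl hxL
    · right
      have h1 := hoth x hx hxL
      have h2 : 1 < (T.neighborFinset x).card := by
        rw [SimpleGraph.card_neighborFinset_eq_degree]
        omega
      obtain ⟨y, hy, hyp⟩ := Finset.exists_mem_ne h2 (par x)
      rw [SimpleGraph.mem_neighborFinset] at hy
      rcases (hadj _ _).1 hy with h3 | h3
      · exact absurd h3.2.symm hyp
      · exact ⟨y, h3⟩
  have hLv : ∀ x ∈ L, x ≠ v := fun x hx h => hvL (h ▸ hx)
  have hleaf : ∀ x ∈ L, ∀ y, y ≠ v → par y ≠ x := by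
    intro x hx y hy h
    obtain ⟨p, hp⟩ := hx
    have h1 := (hp y).1 ((hadj x y).2 (Or.inr ⟨hy, h⟩))
    have hxv : x ≠ v := hLv x ⟨p, hp⟩
    have h2 := (hp (par x)).1 (hpar x hxv).1
    exact hpn x y hxv hy h (h1.trans h2.symm)
  -- sorted leaves
  obtain ⟨x, y, z, hxy, hxz, hyz, hLeq⟩ := Set.ncard_eq_three.1 hL
  obtain ⟨l0, l1, l2, h01, h02, h12, hl, ho1, ho2⟩ : ∃ a b c : V, a ≠ b ∧ a ≠ c ∧ b ≠ c ∧
      L = {a, b, c} ∧ T.dist v b ≤ T.dist v a ∧ T.dist v c ≤ T.dist v b := by
    rcases le_total (T.dist v x) (T.dist v y) with h1 | h1 <;>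
    rcases le_total (T.dist v y) (T.dist v z) with h2 | h2 <;>
    rcases le_total (T.dist v x) (T.dist v z) with h3 | h3
    · exact ⟨z, y, x, hyz.symm, hxz.symm, hxy.symm, by rw [hLeq]; ext; simp; tauto, h2, h1⟩
    · exact ⟨z, y, x, hyz.symm, hxz.symm, hxy.symm, by rw [hLeq]; ext; simp; tauto, h2, h1⟩
    · exact ⟨y, z, x, hyz, hxy.symm, hxz.symm, by rw [hLeq]; ext; simp; tauto, h2, h3⟩
    · exact ⟨y, x, z, hxy.symm, hyz, hxz, by rw [hLeq]; ext; simp; tauto, h1, h3⟩
    · exact ⟨z, x, y, hxz.symm, hyz.symm, hxy, by rw [hLeq]; ext; simp; tauto, h3, h1⟩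
    · exact ⟨x, z, y, hxz, hxy, hyz.symm, by rw [hLeq]; ext; simp; tauto, h3, h2⟩
    · exact ⟨x, y, z, hxy, hxz, hyz, hLeq, h1, h2⟩
    · exact ⟨x, y, z, hxy, hxz, hyz, hLeq, h1, h2⟩
  have hml : ∀ x, x ∈ L ↔ (x = l0 ∨ x = l1 ∨ x = l2) := by
    intro x
    rw [hl]
    simp
  let l : Fin 3 → V := ![l0, l1, l2]
  have hlinj : Function.Injective l := by
    intro i j h
    fin_cases i <;> fin_cases j <;> simp [l] at h ⊢
    · exact h01 h
    · exact h02 h
    · exact h01 h.symm
    · exact h12 h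
    · exact h02 h.symm
    · exact h12 h.symm
  have hlL : ∀ P, l P ∈ L := by
    intro P
    rw [hml]
    fin_cases P <;> simp [l]
  have hbd : ∃ D, ∀ x, T.dist v x ≤ D := by
    refine ⟨∑ x, T.dist v x, fun x => ?_⟩
    exact Finset.single_le_sum (f := fun x => T.dist v x) (fun _ _ => Nat.zero_le _)
      (Finset.mem_univ x)
  obtain ⟨D, hD⟩ := hbd
  have hcore := core T v (fun x => T.dist v x) par l hd0 (fun x hx => (hpar x hx).2) hadj hch hlinj
    (fun P y hy => hleaf (l P) (hlL P) y hy) D hD (by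
      intro x hx
      rcases hex x hx with h | h
      · left
        rw [hml] at h
        rcases h with h | h | h
        · exact ⟨0, h.symm⟩
        · exact ⟨1, h.symm⟩
        · exact ⟨2, h.symm⟩
      · exact Or.inr h)
  refine ⟨T.dist v l0, T.dist v l1, T.dist v l2, ?_, ho2, ho1, ?_⟩
  · have h1 : T.dist v l2 ≠ 0 := fun h => hLv l2 ((hml _).2 (by simp)) ((hd0 _).1 h)
    omega
  · have h1 : (fun P => T.dist v (l P)) = ![T.dist v l0, T.dist v l1, T.dist v l2] := by
      funext P
      fin_cases P <;> rfl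
    rw [← h1]
    exact hcore

end SP24
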