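import Pool.Agent.Lib.MP_4e7250_co.SP.TL_88
import Pool.Agent.Lib.MP_4e7250_co.SP.StmtB24

/-! Spiders (MP_4e7250_co), module TS: a tree with at most one vertex with at least three
neighbours is a spider. -/

namespace SP24

open TL88 in
theorem ts : StTS := by
  classical
  intro V _ T hT hone
  obtain ⟨v, hv⟩ : ∃ v : V, ∀ x, x ≠ v → {z | T.Adj x z}.ncard ≤ 2 := by
    by_cases h : ∃ u : V, 3 ≤ {z | T.Adj u z}.ncard
    · obtain ⟨u, hu⟩ := h
      refine ⟨u, fun x hx => ?_⟩
      by_contra hcon
      exact hx (hone x u (by omega) hu)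
    · push Not at h
      obtain ⟨u⟩ := hT.connected.nonempty
      exact ⟨u, fun x _ => Nat.le_of_lt_succ (h x)⟩
  obtain ⟨par, hpar, hparu⟩ := rooted T hT v
  have hd0 : ∀ x, T.dist v x = 0 ↔ x = v := by
    intro x
    rw [hT.connected.dist_eq_zero_iff]
    exact eq_comm
  have hadj : ∀ x y, T.Adj x y ↔ (x ≠ v ∧ par x = y) ∨ (y ≠ v ∧ par y = x) := by
    intro x y
    constructor
    · intro h
      rcases hT.dist_eq_dist_add_one_of_adj v h with h1 | h1
      · left
        refine ⟨?_, (hparu x y h h1.symm).symm⟩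
        intro hx
        rw [(hd0 x).2 hx] at h1
        omega
      · right
        refine ⟨?_, (hparu y x h.symm h1.symm).symm⟩
        intro hx
        rw [(hd0 y).2 hx] at h1
        omega
    · rintro (⟨h1, h2⟩ | ⟨h1, h2⟩)
      · rw [← h2]
        exact (hpar x h1).1
      · rw [← h2]
        exact (hpar y h1).1.symm
  have hpn : ∀ x y, x ≠ v → y ≠ v → par y = x → y ≠ par x := by
    intro x y hx hy h1 h2
    have h3 := (hpar x hx).2
    have h4 := (hpar y hy).2
    rw [h1] at h4
    rw [← h2] at h3
    omega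
  have hch : ∀ x y y', x ≠ v → y ≠ v → y' ≠ v → par y = x → par y' = x → y = y' := by
    intro x y y' hx hy hy' h1 h2
    by_contra hne
    have h3 := hv x hx
    have h4 : ({par x, y, y'} : Set V) ⊆ {z | T.Adj x z} := by
      intro z hz
      simp only [Set.mem_insert_iff, Set.mem_singleton_iff] at hz
      rcases hz with rfl | rfl | rfl
      · exact (hpar x hx).1
      · exact (hadj _ _).2 (Or.inr ⟨hy, h1⟩)
      · exact (hadj _ _).2 (Or.inr ⟨hy', h2⟩)
    have h5 := Set.ncard_le_ncard h4 (Set.toFinite _)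
    have h6 : ({par x, y, y'} : Set V).ncard = 3 := by
      rw [Set.ncard_eq_three]
      exact ⟨par x, y, y', fun h => hpn x y hx hy h1 h.symm, fun h => hpn x y' hx hy' h2 h.symm,
        hne, rfl⟩
    omega
  let L := {x : V // x ≠ v ∧ ∀ y, y ≠ v → par y ≠ x}
  let e : Fin (Fintype.card L) ≃ L := (Fintype.equivFin L).symm
  let l : Fin (Fintype.card L) → V := fun P => (e P).1
  have hl : Function.Injective l := Subtype.val_injective.comp e.injective
  have hcore := core T v (fun x => T.dist v x) par l hd0 (fun x hx => (hpar x hx).2) hadj hch hl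
    (fun P y hy => (e P).2.2 y hy) (∑ x, T.dist v x)
    (fun x => Finset.single_le_sum (f := fun x => T.dist v x) (fun _ _ => Nat.zero_le _)
      (Finset.mem_univ x)) (by
      intro x hx
      by_cases h : ∀ y, y ≠ v → par y ≠ x
      · left
        exact ⟨e.symm ⟨x, hx, h⟩, by
          show (e (e.symm ⟨x, hx, h⟩)).1 = x
          rw [Equiv.apply_symm_apply]⟩
      · right
        push Not at h
        exact h)
  refine ⟨Fintype.card L, fun P => T.dist v (l P), fun P => ?_, hcore⟩
  have h1 : T.dist v (l P) ≠ 0 := fun h => (e P).2.1 ((hd0 _).1 h)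
  exact Nat.one_le_iff_ne_zero.mpr h1

end SP24
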