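import Pool.Agent.Lib.MP_4e7250_co.SP.XI_90

/-! Spiders (MP_4e7250_co): the inequality at the centre for two long legs and one leaf at the
centre, for times at most the length of the longest leg. -/

namespace SP24.V90

open Finset

variable {ι : Type} [Fintype ι]

/-- The family with given initial function. -/
noncomputable def mk (len : ι → ℕ) (f : ι → ℕ → ℤ) : ℕ → ι → ℕ → ℤ
  | 0 => f
  | k + 1 => fun P i => match i with
    | 0 => ∑ Q, mk len f k Q 1
    | i + 1 => if i + 1 ≤ len P then mk len f k P i + mk len f k P (i + 2) else 0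

theorem mk_fam (len : ι → ℕ) (f : ι → ℕ → ℤ) (hc : ∀ P Q, f P 0 = f Q 0)
    (ho : ∀ P i, len P < i → f P i = 0) : Fam len (mk len f) where
  ctr := by
    intro k P Q
    rcases k with _ | k
    · exact hc P Q
    · rfl
  out := by
    intro k P i hi
    rcases k with _ | k
    · exact ho P i hi
    · rcases i with _ | i
      · omega
      · show (if i + 1 ≤ len P then _ else (0 : ℤ)) = 0
        rw [if_neg (by omega)]
  zero := fun k P => rfl
  step := by
    intro k P i hi
    show (if i + 1 ≤ len P then _ else (0 : ℤ)) = _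
    rw [if_pos hi]

/-- The pairing of two functions in coordinates. -/
noncomputable def pr (len : ι → ℕ) (A : ι) (f g : ι → ℕ → ℤ) : ℤ :=
  f A 0 * g A 0 + ∑ P, ∑ i ∈ range (len P), f P (i + 1) * g P (i + 1)

theorem leg_aux (f g : ℕ → ℤ) (L : ℕ) :
    ∑ i ∈ range L, (f i + f (i + 2)) * g (i + 1) - ∑ i ∈ range L, f (i + 1) * (g i + g (i + 2)) =
      (f 0 * g 1 - f 1 * g 0) - (f L * g (L + 1) - f (L + 1) * g L) := by
  induction L with
  | zero => simp
  | succ L ih =>
    rw [Finset.sum_range_succ, Finset.sum_range_succ]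
    have : ∀ a b c d : ℤ, a + b - (c + d) = (a - c) + (b - d) := by intros; ring
    rw [this, ih]
    ring

theorem pr_step {len : ι → ℕ} {F G : ℕ → ι → ℕ → ℤ} (hF : Fam len F) (hG : Fam len G) (A : ι)
    (k l : ℕ) : pr len A (F (k + 1)) (G l) = pr len A (F k) (G (l + 1)) := by
  unfold pr
  rw [hF.zero k A, hG.zero l A]
  have e1 : ∀ P, ∑ i ∈ range (len P), F (k + 1) P (i + 1) * G l P (i + 1) =
      ∑ i ∈ range (len P), (F k P i + F k P (i + 2)) * G l P (i + 1) := by
    intro P
    refine Finset.sum_congr rfl fun i hi => ?_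
    rw [hF.step k P i (by have := Finset.mem_range.mp hi; omega)]
  have e2 : ∀ P, ∑ i ∈ range (len P), F k P (i + 1) * G (l + 1) P (i + 1) =
      ∑ i ∈ range (len P), F k P (i + 1) * (G l P i + G l P (i + 2)) := by
    intro P
    refine Finset.sum_congr rfl fun i hi => ?_
    rw [hG.step l P i (by have := Finset.mem_range.mp hi; omega)]
  rw [Finset.sum_congr rfl fun P _ => e1 P, Finset.sum_congr rfl fun P _ => e2 P]
  have e3 : ∀ P, ∑ i ∈ range (len P), (F k P i + F k P (i + 2)) * G l P (i + 1) -
      ∑ i ∈ range (len P), F k P (i + 1) * (G l P i + G l P (i + 2)) =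
      F k A 0 * G l P 1 - F k P 1 * G l A 0 := by
    intro P
    rw [leg_aux, hG.out l P (len P + 1) (by omega), hF.out k P (len P + 1) (by omega),
      hF.ctr k P A, hG.ctr l P A]
    ring
  have e4 : ∑ P, ∑ i ∈ range (len P), (F k P i + F k P (i + 2)) * G l P (i + 1) -
      ∑ P, ∑ i ∈ range (len P), F k P (i + 1) * (G l P i + G l P (i + 2)) =
      F k A 0 * ∑ P, G l P 1 - (∑ P, F k P 1) * G l A 0 := by
    rw [← Finset.sum_sub_distrib, Finset.sum_congr rfl fun P _ => e3 P, Finset.sum_sub_distrib,
      Finset.mul_sum, Finset.sum_mul]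
  linarith

theorem pr_swap {len : ι → ℕ} {F G : ℕ → ι → ℕ → ℤ} (hF : Fam len F) (hG : Fam len G) (A : ι)
    (k l : ℕ) : pr len A (F k) (G l) = pr len A (F 0) (G (k + l)) := by
  induction k generalizing l with
  | zero => rw [Nat.zero_add]
  | succ k ih => rw [pr_step hF hG A k l, ih (l + 1), show k + (l + 1) = k + 1 + l by ring]

/-- Speed: a family started at the centre reaches distance `i` only after `i` steps. -/
theorem speed {len : ι → ℕ} {n : ℕ → ι → ℕ → ℤ} (hn : Fam len n)
    (h0 : ∀ P i, n 0 P (i + 1) = 0) : ∀ j P i, j < i → n j P i = 0 := by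
  intro j
  induction j with
  | zero =>
    intro P i hi
    obtain ⟨i, rfl⟩ : ∃ i', i = i' + 1 := ⟨i - 1, by omega⟩
    exact h0 P i
  | succ j ih =>
    intro P i hi
    obtain ⟨i, rfl⟩ : ∃ i', i = i' + 1 := ⟨i - 1, by omega⟩
    by_cases h : i + 1 ≤ len P
    · rw [hn.step j P i h, ih P i (by omega), ih P (i + 2) (by omega), add_zero]
    · exact hn.out _ _ _ (by omega)

/-- The tail sums on the leg `A`. -/
noncomputable def S (len : ι → ℕ) (A : ι) (n : ℕ → ι → ℕ → ℤ) (j i : ℕ) : ℤ :=
  ∑ t ∈ Ico i (len A + 1), n j A t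

omit [Fintype ι] in
theorem S_nonneg {len : ι → ℕ} {A : ι} {n : ℕ → ι → ℕ → ℤ} (h : ∀ k P i, 0 ≤ n k P i) (j i : ℕ) :
    0 ≤ S len A n j i := Finset.sum_nonneg fun t _ => h j A t

omit [Fintype ι] in
theorem S_anti {len : ι → ℕ} {A : ι} {n : ℕ → ι → ℕ → ℤ} (h : ∀ k P i, 0 ≤ n k P i) (j : ℕ)
    {i i' : ℕ} (hi : i ≤ i') : S len A n j i' ≤ S len A n j i := by
  unfold S
  refine Finset.sum_le_sum_of_subset_of_nonneg ?_ fun t _ _ => h j A t
  intro t ht
  rw [Finset.mem_Ico] at ht ⊢
  omega

omit [Fintype ι] in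
theorem S_head {len : ι → ℕ} {A : ι} {n : ℕ → ι → ℕ → ℤ} (j i : ℕ) (hi : i ≤ len A) :
    S len A n j i = n j A i + S len A n j (i + 1) := by
  unfold S
  rw [Finset.sum_eq_sum_Ico_succ_bot (by omega)]

theorem S_step {len : ι → ℕ} {A : ι} {n : ℕ → ι → ℕ → ℤ} (hn : Fam len n) (j i : ℕ)
    (hi : i + 1 ≤ len A) (hj : n j A (len A) = 0) :
    S len A n (j + 1) (i + 1) = S len A n j i + S len A n j (i + 2) := by
  unfold S
  have e1 : ∑ t ∈ Ico (i + 1) (len A + 1), n (j + 1) A t =
      ∑ t ∈ Ico i (len A), (n j A t + n j A (t + 2)) := by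
    rw [← Finset.sum_Ico_add' (fun t => n (j + 1) A t) i (len A) 1]
    refine Finset.sum_congr rfl fun t ht => ?_
    have := Finset.mem_Ico.mp ht
    exact hn.step j A t (by omega)
  rw [e1, Finset.sum_add_distrib, Finset.sum_Ico_succ_top (by omega) (fun t => n j A t), hj,
    add_zero]
  congr 1
  rw [Finset.sum_Ico_add' (fun t => n j A t) i (len A) 2,
    Finset.sum_Ico_succ_top (by omega) (fun t => n j A t), hn.out j A (len A + 1) (by omega),
    add_zero]

end SP24.V90

namespace SP24

open Finset

theorem vv (h1 : StID) (h2 : StMU) : StVV := by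
  intro ι _ _ len F A B hAB hB2 hBA hone hcard hF k hkA
  have hlen : ∀ P, 1 ≤ len P ∧ len P ≤ len A := by
    intro P
    by_cases hPA : P = A
    · subst hPA; omega
    · by_cases hPB : P = B
      · subst hPB; omega
      · rw [hone P hPA hPB]; omega
  -- the third leg
  obtain ⟨C, hCA, hCB, hcover⟩ : ∃ C, C ≠ A ∧ C ≠ B ∧ univ.erase A = {B, C} := by
    have hc : (univ.erase A).card = 2 := by
      rw [Finset.card_erase_of_mem (Finset.mem_univ A), Finset.card_univ, hcard]
    have hBm : B ∈ univ.erase A := Finset.mem_erase.mpr ⟨hAB.symm, Finset.mem_univ B⟩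
    have hc1 : ((univ.erase A).erase B).card = 1 := by
      rw [Finset.card_erase_of_mem hBm, hc]
    obtain ⟨C, hC⟩ := Finset.card_eq_one.mp hc1
    have hCm : C ∈ (univ.erase A).erase B := by rw [hC]; exact Finset.mem_singleton_self C
    have hCB := Finset.ne_of_mem_erase hCm
    have hCA := Finset.ne_of_mem_erase (Finset.mem_of_mem_erase hCm)
    refine ⟨C, hCA, hCB, ?_⟩
    rw [← Finset.insert_erase hBm, hC]
  have hsum2 : ∀ f : ι → ℤ, ∑ P ∈ univ.erase A, f P = f B + f C := by
    intro f
    rw [hcover, Finset.sum_pair hCB.symm]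
  have hsum3 : ∀ f : ι → ℤ, ∑ P, f P = f A + (f B + f C) := by
    intro f
    rw [← hsum2 f]
    exact (Finset.add_sum_erase univ f (Finset.mem_univ A)).symm
  have hC1 : len C = 1 := hone C hCA hCB
  rcases k with _ | k
  · rw [hsum2, hF.ini A 0 (by omega), hF.ini B 1 (by omega), hF.ini C 1 (by omega)]
    norm_num
  -- the two auxiliary families
  classical
  set U := V90.mk len (fun P i => if P = A then (if i ≤ len A then 1 else 0)
    else (if i = 0 then 1 else 0)) with hUdef
  have hUfam : Fam len U := by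
    refine V90.mk_fam len _ ?_ ?_
    · intro P Q
      by_cases hP : P = A <;> by_cases hQ : Q = A <;> simp [hP, hQ]
    · intro P i hi
      by_cases hP : P = A
      · subst hP
        simp only [if_true]
        rw [if_neg (by omega)]
      · simp only [if_neg hP]
        rw [if_neg (by omega)]
  have hU : MFam len A U := by
    refine { hUfam with ini0 := ?_, iniA := ?_, iniP := ?_ }
    · intro P
      show (if P = A then (if 0 ≤ len A then (1 : ℤ) else 0) else (if (0 : ℕ) = 0 then 1 else 0)) = 1
      by_cases hP : P = A <;> simp [hP]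
    · intro i hi
      show (if A = A then (if i ≤ len A then (1 : ℤ) else 0) else (if i = 0 then 1 else 0)) = 1
      simp [hi]
    · intro P i hP
      show (if P = A then (if i + 1 ≤ len A then (1 : ℤ) else 0)
        else (if i + 1 = 0 then 1 else 0)) = 0
      simp [hP]
  set n := V90.mk len (fun _ i => if i = 0 then 1 else 0) with hndef
  have hn : Fam len n := by
    refine V90.mk_fam len _ ?_ ?_
    · intro P Q; rfl
    · intro P i hi
      show (if i = 0 then (1 : ℤ) else 0) = 0
      rw [if_neg (by omega)]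
  have hn00 : ∀ P, n 0 P 0 = 1 := by
    intro P
    show (if (0 : ℕ) = 0 then (1 : ℤ) else 0) = 1
    simp
  have hn01 : ∀ P i, n 0 P (i + 1) = 0 := by
    intro P i
    show (if i + 1 = 0 then (1 : ℤ) else 0) = 0
    simp
  have hnn : ∀ k P i, 0 ≤ n k P i := by
    refine X90.nonneg_of hn ?_
    intro P i
    rcases i with _ | i
    · rw [hn00]; norm_num
    · rw [hn01]
  have hspeed := V90.speed hn hn01
  -- symmetry
  have hsym : ∀ j, U j A 0 = V90.S len A n j 0 := by
    intro j
    have e1 := V90.pr_swap hn hUfam A j 0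
    rw [add_zero] at e1
    have e2 : V90.pr len A (n 0) (U j) = U j A 0 := by
      unfold V90.pr
      rw [hn00, one_mul, Finset.sum_eq_zero, add_zero]
      intro P _
      refine Finset.sum_eq_zero fun i _ => ?_
      rw [hn01, zero_mul]
    have e3 : V90.pr len A (n j) (U 0) = V90.S len A n j 0 := by
      unfold V90.pr
      rw [hU.ini0, mul_one, V90.S_head j 0 (by omega)]
      congr 1
      rw [hsum3, show ∑ i ∈ range (len B), n j B (i + 1) * U 0 B (i + 1) = 0 from
        Finset.sum_eq_zero fun i _ => by rw [hU.iniP B i hAB.symm, mul_zero],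
        show ∑ i ∈ range (len C), n j C (i + 1) * U 0 C (i + 1) = 0 from
        Finset.sum_eq_zero fun i _ => by rw [hU.iniP C i hCA, mul_zero]]
      unfold V90.S
      rw [add_zero, add_zero, Finset.range_eq_Ico,
        ← Finset.sum_Ico_add' (fun t => n j A t) 0 (len A) 1]
      refine Finset.sum_congr rfl fun i hi => ?_
      rw [hU.iniA (i + 1) (by have := Finset.mem_Ico.mp hi; omega), mul_one]
    rw [← e2, ← e1, e3]
  -- domination on the leg B
  have hdom : ∀ j, j ≤ len A → ∀ i, U j B i ≤ V90.S len A n j i := by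
    intro j
    induction j with
    | zero =>
      intro _ i
      rcases i with _ | i
      · rw [hUfam.ctr 0 B A, hsym 0]
      · rw [hU.iniP B i hAB.symm]
        exact V90.S_nonneg hnn 0 (i + 1)
    | succ j ih =>
      intro hj i
      rcases i with _ | i
      · rw [hUfam.ctr (j + 1) B A, hsym (j + 1)]
      · by_cases hi : i + 1 ≤ len B
        · rw [hUfam.step j B i hi, V90.S_step hn j i (by omega) (hspeed j A (len A) (by omega))]
          exact add_le_add (ih (by omega) i) (ih (by omega) (i + 2))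
        · rw [hUfam.out (j + 1) B (i + 1) (by omega)]
          exact V90.S_nonneg hnn _ _
  have hid := h1 ι len F U A (fun P => (hlen P).1) hF hU (k + 1)
  have hmu := h2 ι len F U A hlen hF hU
  rw [hsum3 (fun P => U (k + 1) P (len P)), hcard] at hid
  have g1 := hmu.2.2 (k + 1) A (len A)
  -- the leaf C
  have g2 : U (k + 1) C (len C) = U k A 0 := by
    have e1 := hUfam.step k C 0 (by omega)
    have e2 := hUfam.out k C (0 + 2) (by omega)
    simp only [zero_add] at e1 e2
    rw [hC1, e1, e2, hUfam.ctr k C A, add_zero]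
  -- the leaf B
  have g3 : U (k + 1) B (len B) ≤ V90.S len A n k 1 := by
    obtain ⟨b, hb⟩ : ∃ b, len B = b + 2 := ⟨len B - 2, by omega⟩
    have e1 := hUfam.step k B (b + 1) (by omega)
    have e2 := hUfam.out k B (b + 1 + 2) (by omega)
    rw [hb, e1, e2, add_zero]
    exact (hdom k (by omega) (b + 1)).trans (V90.S_anti hnn k (by omega))
  have g4 : U (k + 1) A 0 = n (k + 1) A 0 + (V90.S len A n k 0 + V90.S len A n k 2) := by
    rw [hsym (k + 1), V90.S_head (k + 1) 0 (by omega),
      V90.S_step hn k 0 (by omega) (hspeed k A (len A) (by omega))]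
  have g5 : U k A 0 = V90.S len A n k 0 := hsym k
  have g6 : V90.S len A n k 1 = n k A 1 + V90.S len A n k 2 := V90.S_head k 1 (by omega)
  have g7 : n k A 1 ≤ n (k + 1) A 0 := by
    rw [hn.zero k A]
    exact Finset.single_le_sum (f := fun Q => n k Q 1) (fun Q _ => hnn k Q 1) (Finset.mem_univ A)
  push_cast at hid
  rw [g2] at hid
  linarith

end SP24
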