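import Pool.Agent.Lib.MP_4e7250_co.SP.Stmts24

/-! Spiders (MP_4e7250_co): order properties of the family `U`, and the inequality at the centre if
at least two legs besides `A` have length at least two. -/

namespace SP24.X90

open Finset

variable {ι : Type} [Fintype ι]

theorem nonneg_of {len : ι → ℕ} {U : ℕ → ι → ℕ → ℤ} (h : Fam len U)
    (h0 : ∀ P i, 0 ≤ U 0 P i) : ∀ k P i, 0 ≤ U k P i := by
  intro k
  induction k with
  | zero => exact h0
  | succ k ih =>
    intro P i
    rcases i with _ | i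
    · rw [h.zero]
      exact Finset.sum_nonneg fun Q _ => ih Q 1
    · by_cases hi : i + 1 ≤ len P
      · rw [h.step k P i hi]
        exact add_nonneg (ih P i) (ih P (i + 2))
      · rw [h.out (k + 1) P (i + 1) (by omega)]

/-- Comparison of two families at shifted times. -/
theorem le_of {len : ι → ℕ} {U V : ℕ → ι → ℕ → ℤ} (hU : Fam len U) (hV : Fam len V)
    (h0 : ∀ P i, U 0 P i ≤ V 0 P i) : ∀ k P i, U k P i ≤ V k P i := by
  intro k
  induction k with
  | zero => exact h0
  | succ k ih =>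
    intro P i
    rcases i with _ | i
    · rw [hU.zero, hV.zero]
      exact Finset.sum_le_sum fun Q _ => ih Q 1
    · by_cases hi : i + 1 ≤ len P
      · rw [hU.step k P i hi, hV.step k P i hi]
        exact add_le_add (ih P i) (ih P (i + 2))
      · rw [hU.out (k + 1) P (i + 1) (by omega), hV.out (k + 1) P (i + 1) (by omega)]

theorem shift {len : ι → ℕ} {U : ℕ → ι → ℕ → ℤ} (hU : Fam len U) :
    Fam len (fun k => U (k + 1)) where
  ctr := fun k P Q => hU.ctr (k + 1) P Q
  out := fun k P i h => hU.out (k + 1) P i h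
  zero := fun k P => hU.zero (k + 1) P
  step := fun k P i h => hU.step (k + 1) P i h

theorem m_zero_nonneg {len : ι → ℕ} {U : ℕ → ι → ℕ → ℤ} {A : ι} (h : MFam len A U) :
    ∀ P i, 0 ≤ U 0 P i := by
  intro P i
  rcases i with _ | i
  · rw [h.ini0]; norm_num
  · by_cases hP : P = A
    · subst hP
      by_cases hi : i + 1 ≤ len P
      · rw [h.iniA _ hi]; norm_num
      · rw [h.out 0 P (i + 1) (by omega)]
    · rw [h.iniP P i hP]

theorem m_nonneg {len : ι → ℕ} {U : ℕ → ι → ℕ → ℤ} {A : ι} (h : MFam len A U) :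
    ∀ k P i, 0 ≤ U k P i := nonneg_of h.toFam (m_zero_nonneg h)

theorem m_time {len : ι → ℕ} {U : ℕ → ι → ℕ → ℤ} {A : ι} (hA : 1 ≤ len A) (h : MFam len A U) :
    ∀ k P i, U k P i ≤ U (k + 1) P i := by
  refine le_of h.toFam (shift h.toFam) ?_
  intro P i
  show U 0 P i ≤ U (0 + 1) P i
  rcases i with _ | i
  · rw [h.ini0, h.zero]
    have h1 := Finset.single_le_sum (f := fun Q => U 0 Q 1) (fun Q _ => m_nonneg h 0 Q 1)
      (Finset.mem_univ A)
    have h2 := h.iniA 1 hA
    linarith
  · by_cases hi : i + 1 ≤ len P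
    · rw [h.step 0 P i hi]
      by_cases hP : P = A
      · subst hP
        rw [h.iniA _ hi, h.iniA i (by omega)]
        have := m_nonneg h 0 P (i + 2)
        linarith
      · rw [h.iniP P i hP]
        exact add_nonneg (m_nonneg h 0 P i) (m_nonneg h 0 P (i + 2))
    · rw [h.out 0 P (i + 1) (by omega), h.out (0 + 1) P (i + 1) (by omega)]

end SP24.X90

namespace SP24

open Finset

theorem mu24 : StMU := by
  intro ι _ _ len F U A hlen hF hU
  refine ⟨X90.m_nonneg hU, X90.m_time (hlen A).1 hU, ?_⟩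
  refine X90.le_of hU.toFam hF.toFam ?_
  intro P i
  by_cases hi : i ≤ len P
  · rw [hF.ini P i hi]
    rcases i with _ | i
    · rw [hU.ini0]
    · by_cases hP : P = A
      · subst hP
        rw [hU.iniA _ hi]
      · rw [hU.iniP P i hP]; norm_num
  · rw [hU.out 0 P i (by omega), hF.out 0 P i (by omega)]

end SP24

namespace SP24.X90

open Finset

variable {ι : Type} [Fintype ι] [DecidableEq ι]

/-- The legs besides `A` of length at least two. -/
abbrev L2 (len : ι → ℕ) (A : ι) : Finset ι := (univ.erase A).filter (fun P => 2 ≤ len P)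

theorem xi_aux {len : ι → ℕ} {U : ℕ → ι → ℕ → ℤ} {A : ι}
    (hlen : ∀ P, 1 ≤ len P ∧ len P ≤ len A) (h : MFam len A U) :
    ∀ k i, ∑ P ∈ L2 len A, U k P (i + 2) ≤ U k A i := by
  have hn := m_nonneg h
  intro k
  induction k with
  | zero =>
    intro i
    have : ∑ P ∈ L2 len A, U 0 P (i + 2) = 0 := by
      refine Finset.sum_eq_zero fun P hP => ?_
      exact h.iniP P (i + 1) (Finset.ne_of_mem_erase (Finset.mem_filter.mp hP).1)
    rw [this]
    exact hn 0 A i
  | succ k ih =>
    intro i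
    rcases i with _ | i
    · have e1 : ∑ P ∈ L2 len A, U (k + 1) P (0 + 2) =
          ∑ P ∈ L2 len A, U k P 1 + ∑ P ∈ L2 len A, U k P (1 + 2) := by
        rw [← Finset.sum_add_distrib]
        refine Finset.sum_congr rfl fun P hP => ?_
        exact h.step k P 1 (Finset.mem_filter.mp hP).2
      rw [e1, h.zero]
      have e2 : ∑ Q, U k Q 1 = U k A 1 + ∑ Q ∈ univ.erase A, U k Q 1 :=
        (Finset.add_sum_erase univ (fun Q => U k Q 1) (Finset.mem_univ A)).symm
      have e3 : ∑ P ∈ L2 len A, U k P 1 ≤ ∑ Q ∈ univ.erase A, U k Q 1 :=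
        Finset.sum_le_sum_of_subset_of_nonneg (Finset.filter_subset _ _) fun P _ _ => hn k P 1
      have e4 := ih 1
      linarith
    · by_cases hi : i + 1 ≤ len A
      · rw [h.step k A i hi]
        have e1 : ∑ P ∈ L2 len A, U (k + 1) P (i + 1 + 2) ≤
            ∑ P ∈ L2 len A, U k P (i + 2) + ∑ P ∈ L2 len A, U k P (i + 2 + 2) := by
          rw [← Finset.sum_add_distrib]
          refine Finset.sum_le_sum fun P _ => ?_
          by_cases hj : i + 2 + 1 ≤ len P
          · have := h.step k P (i + 2) hj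
            rw [show i + 1 + 2 = i + 2 + 1 by ring, this]
          · rw [h.out (k + 1) P (i + 1 + 2) (by omega)]
            exact add_nonneg (hn k P (i + 2)) (hn k P (i + 2 + 2))
        have e2 := ih i
        have e3 := ih (i + 2)
        linarith
      · rw [h.out (k + 1) A (i + 1) (by omega)]
        refine le_of_eq (Finset.sum_eq_zero fun P _ => ?_)
        have := (hlen P).2
        exact h.out (k + 1) P (i + 1 + 2) (by omega)

theorem m2_aux {len : ι → ℕ} {U : ℕ → ι → ℕ → ℤ} {A : ι}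
    (hlen : ∀ P, 1 ≤ len P ∧ len P ≤ len A) (h : MFam len A U) :
    ∀ k, ∀ P ∈ L2 len A, ∀ i, U k P (i + 2) ≤ U k P i := by
  have hn := m_nonneg h
  intro k
  induction k with
  | zero =>
    intro P hP i
    rw [h.iniP P (i + 1) (Finset.ne_of_mem_erase (Finset.mem_filter.mp hP).1)]
    exact hn 0 P i
  | succ k ih =>
    intro P hP i
    rcases i with _ | i
    · have e1 := xi_aux hlen h (k + 1) 0
      have e2 := Finset.single_le_sum (f := fun Q => U (k + 1) Q (0 + 2))
        (fun Q _ => hn (k + 1) Q (0 + 2)) hP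
      rw [h.ctr (k + 1) P A]
      linarith
    · by_cases hi : i + 1 ≤ len P
      · rw [h.step k P i hi]
        have e2 := ih P hP i
        have e3 := ih P hP (i + 2)
        by_cases hj : i + 2 + 1 ≤ len P
        · have := h.step k P (i + 2) hj
          rw [show i + 1 + 2 = i + 2 + 1 by ring, this]
          linarith
        · rw [h.out (k + 1) P (i + 1 + 2) (by omega)]
          exact add_nonneg (hn k P i) (hn k P (i + 2))
      · rw [h.out (k + 1) P (i + 1 + 2) (by omega), h.out (k + 1) P (i + 1) (by omega)]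

theorem m2_even {len : ι → ℕ} {U : ℕ → ι → ℕ → ℤ} {A : ι}
    (hlen : ∀ P, 1 ≤ len P ∧ len P ≤ len A) (h : MFam len A U) (k : ℕ) (P : ι)
    (hP : P ∈ L2 len A) (j : ℕ) : U k P (2 + 2 * j) ≤ U k P 2 := by
  induction j with
  | zero => exact le_refl _
  | succ j ih =>
    have := m2_aux hlen h k P hP (2 + 2 * j)
    rw [show 2 + 2 * (j + 1) = 2 + 2 * j + 2 by ring]
    exact this.trans ih

theorem leaf2 {len : ι → ℕ} {U : ℕ → ι → ℕ → ℤ} {A : ι}
    (hlen : ∀ P, 1 ≤ len P ∧ len P ≤ len A) (h : MFam len A U) (k : ℕ) (P : ι)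
    (hP : P ∈ L2 len A) : U k P (len P) ≤ U k P 2 := by
  have h2 : 2 ≤ len P := (Finset.mem_filter.mp hP).2
  have hPA : P ≠ A := Finset.ne_of_mem_erase (Finset.mem_filter.mp hP).1
  rcases Nat.even_or_odd' (len P) with ⟨c, hc | hc⟩
  · obtain ⟨j, hj⟩ : ∃ j, len P = 2 + 2 * j := ⟨c - 1, by omega⟩
    rw [hj]
    exact m2_even hlen h k P hP j
  · obtain ⟨j, hj⟩ : ∃ j, len P = 2 + 2 * j + 1 := ⟨c - 1, by omega⟩
    rcases k with _ | k
    · rw [hj, h.iniP P (2 + 2 * j) hPA]
      exact m_nonneg h 0 P 2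
    · have e1 := h.step k P (2 + 2 * j) (by omega)
      have e2 := h.out k P (2 + 2 * j + 2) (by omega)
      have e3 := m_time (hlen A).1 h k P (2 + 2 * j)
      have e4 := m2_even hlen h (k + 1) P hP j
      rw [hj, e1, e2]
      linarith

omit [DecidableEq ι] in
theorem leaf1 {len : ι → ℕ} {U : ℕ → ι → ℕ → ℤ} {A : ι}
    (hA : 1 ≤ len A) (h : MFam len A U) (k : ℕ) (P : ι) (hPA : P ≠ A)
    (hP : len P = 1) : U k P (len P) ≤ U k A 0 := by
  rw [hP]
  rcases k with _ | k
  · rw [h.iniP P 0 hPA]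
    exact m_nonneg h 0 A 0
  · have e1 := h.step k P 0 (by omega)
    have e2 := h.out k P (0 + 2) (by omega)
    have e3 := m_time hA h k P 0
    have e4 := h.ctr (k + 1) P A
    simp only [zero_add] at e1 e2
    rw [e1, e2]
    linarith

end SP24.X90

namespace SP24

open Finset

theorem xi24 (_h : StMU) : StXI := by
  intro ι _ _ len U A hlen hU hc k
  have hn := X90.m_nonneg hU
  rw [← Finset.sum_filter_add_sum_filter_not (univ.erase A) (fun P => 2 ≤ len P)]
  have e1 : ∑ P ∈ (univ.erase A).filter (fun P => 2 ≤ len P), U k P (len P) ≤ U k A 0 := by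
    refine le_trans (Finset.sum_le_sum fun P hP => X90.leaf2 hlen hU k P hP) ?_
    exact X90.xi_aux hlen hU k 0
  have e2 : ∑ P ∈ (univ.erase A).filter (fun P => ¬ 2 ≤ len P), U k P (len P) ≤
      (((univ.erase A).filter (fun P => ¬ 2 ≤ len P)).card : ℤ) * U k A 0 := by
    rw [← nsmul_eq_mul]
    refine Finset.sum_le_card_nsmul _ _ _ fun P hP => ?_
    have h1 := (Finset.mem_filter.mp hP)
    have h2 := (hlen P).1
    exact X90.leaf1 (hlen A).1 hU k P (Finset.ne_of_mem_erase h1.1) (by have := h1.2; omega)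
  have e3 : ((univ.erase A).filter (fun P => 2 ≤ len P)).card +
      ((univ.erase A).filter (fun P => ¬ 2 ≤ len P)).card = Fintype.card ι - 1 := by
    rw [Finset.card_filter_add_card_filter_not, Finset.card_erase_of_mem (Finset.mem_univ A),
      Finset.card_univ]
  have e4 : 1 ≤ Fintype.card ι := Fintype.card_pos_iff.mpr ⟨A⟩
  have e5 : (((univ.erase A).filter (fun P => 2 ≤ len P)).card : ℤ) +
      (((univ.erase A).filter (fun P => ¬ 2 ≤ len P)).card : ℤ) = (Fintype.card ι : ℤ) - 1 := by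
    have : (((((univ.erase A).filter (fun P => 2 ≤ len P)).card +
      ((univ.erase A).filter (fun P => ¬ 2 ≤ len P)).card : ℕ)) : ℤ) = ((Fintype.card ι - 1 : ℕ) : ℤ) := by
      rw [e3]
    rw [Nat.cast_sub e4] at this
    push_cast at this
    exact this
  have e6 : (2 : ℤ) ≤ (((univ.erase A).filter (fun P => 2 ≤ len P)).card : ℤ) := by
    exact_mod_cast hc
  have e7 : (((univ.erase A).filter (fun P => ¬ 2 ≤ len P)).card : ℤ) + 1 ≤
      (Fintype.card ι : ℤ) - 2 := by linarith
  have e8 := hn k A 0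
  calc _ ≤ U k A 0 + (((univ.erase A).filter (fun P => ¬ 2 ≤ len P)).card : ℤ) * U k A 0 :=
        add_le_add e1 e2
    _ = ((((univ.erase A).filter (fun P => ¬ 2 ≤ len P)).card : ℤ) + 1) * U k A 0 := by ring
    _ ≤ _ := mul_le_mul_of_nonneg_right e7 e8

end SP24
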