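import Pool.Agent.Lib.MP_4e7250_co.SP.StmtB24
import Pool.Agent.Lib.MP_4e7250_co.SP.M_24

/-! Spiders (MP_4e7250_co): the values at distance two from the centre (YY). -/

set_option autoImplicit false
set_option linter.unusedSectionVars false

namespace SP24

open Finset

namespace Y52

variable {ι : Type} [Fintype ι] [DecidableEq ι] {len : ι → ℕ} {F : ℕ → ι → ℕ → ℤ} {A : ι}

lemma s1 (hlen : ∀ P, 1 ≤ len P ∧ len P ≤ len A) (hF : WFam len F) (k : ℕ) (P : ι) :
    F (k + 1) P 1 = F k A 0 + F k P 2 := by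
  have h1 : F (k + 1) P (0 + 1) = F k P 0 + F k P (0 + 2) := hF.step k P 0 (hlen P).1
  have h2 := hF.ctr k P A
  rw [h2] at h1
  exact h1

lemma s2 (hF : WFam len F) (k : ℕ) {P : ι} (hP : 2 ≤ len P) :
    F (k + 1) P 2 = F k P 1 + F k P 3 := by
  have h1 : F (k + 1) P (1 + 1) = F k P 1 + F k P (1 + 2) := hF.step k P 1 hP
  exact h1

lemma s3 (hF : WFam len F) (k : ℕ) {P : ι} (hP : 3 ≤ len P) :
    F (k + 1) P 3 = F k P 2 + F k P 4 := by
  have h1 : F (k + 1) P (2 + 1) = F k P 2 + F k P (2 + 2) := hF.step k P 2 hP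
  exact h1

lemma long2 (hlen : ∀ P, 1 ≤ len P ∧ len P ≤ len A) (hF : WFam len F) (k : ℕ) {P : ι}
    (hP : 3 ≤ len P) : F (k + 2) P 2 = F k A 0 + 2 * F k P 2 + F k P 4 := by
  have h1 : F (k + 2) P 2 = F (k + 1) P 1 + F (k + 1) P 3 := s2 hF (k + 1) (by omega)
  rw [h1, s1 hlen hF k P, s3 hF k hP]
  ring

lemma cen1 (hF : WFam len F) (k : ℕ) : F (k + 1) A 0 = ∑ Q, F k Q 1 := hF.zero k A

lemma cen (hlen : ∀ P, 1 ≤ len P ∧ len P ≤ len A) (hF : WFam len F) (k : ℕ) :
    F (k + 2) A 0 = (Fintype.card ι : ℤ) * F k A 0 + ∑ P, F k P 2 := by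
  have h1 : F (k + 2) A 0 = ∑ Q, F (k + 1) Q 1 := hF.zero (k + 1) A
  rw [h1, Finset.sum_congr rfl fun Q _ => s1 hlen hF k Q, Finset.sum_add_distrib,
    Finset.sum_const, Finset.card_univ, nsmul_eq_mul]

lemma three {g : ι → ℤ} (hg : ∀ P, 0 ≤ g P) {P Q : ι} (hPA : P ≠ A) (hQA : Q ≠ A)
    (hPQ : P ≠ Q) : g A + g P + g Q ≤ ∑ R, g R := by
  have h1 : ∑ R ∈ ({A, P, Q} : Finset ι), g R = g A + (g P + g Q) := by
    rw [Finset.sum_insert, Finset.sum_insert, Finset.sum_singleton]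
    · rw [Finset.mem_singleton]
      exact hPQ
    · rw [Finset.mem_insert, Finset.mem_singleton]
      rintro (h | h)
      · exact hPA h.symm
      · exact hQA h.symm
  have h2 : ∑ R ∈ ({A, P, Q} : Finset ι), g R ≤ ∑ R, g R :=
    Finset.sum_le_sum_of_subset_of_nonneg (Finset.subset_univ _) fun R _ _ => hg R
  linarith

lemma sum_le_card {g : ι → ℤ} {c : ℤ} (hg : ∀ P, g P ≤ c) :
    ∑ R, g R ≤ (Fintype.card ι : ℤ) * c := by
  have h1 : ∑ R, g R ≤ ∑ _R : ι, c := Finset.sum_le_sum fun R _ => hg R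
  rw [Finset.sum_const, Finset.card_univ, nsmul_eq_mul] at h1
  exact h1

end Y52

open Y52

theorem yy : StYY := by
  intro ι _ _ len F A hlen hcard hthree hF
  have hnn := (me ι len F hF).1
  have hme := (me ι len F hF).2
  have hm2 := m2 ι len F (fun P => (hlen P).1) (by omega) hF
  obtain ⟨l, hl⟩ : ∃ l : ℤ, l = (Fintype.card ι : ℤ) := ⟨_, rfl⟩
  have hl4 : 4 ≤ l := by rw [hl]; exact_mod_cast hcard
  have hcen : ∀ k, F (k + 2) A 0 = l * F k A 0 + ∑ P, F k P 2 := fun k => by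
    rw [hl]
    exact cen hlen hF k
  -- the long legs
  obtain ⟨R, hR⟩ : (univ.filter (fun P => 3 ≤ len P)).Nonempty := by
    rw [← Finset.card_pos]
    omega
  have hA3 : 3 ≤ len A := ((Finset.mem_filter.1 hR).2).trans (hlen R).2
  have hAmem : A ∈ univ.filter (fun P => 3 ≤ len P) := by
    rw [Finset.mem_filter]
    exact ⟨mem_univ _, hA3⟩
  have hcer : 1 < ((univ.filter (fun P => 3 ≤ len P)).erase A).card := by
    rw [Finset.card_erase_of_mem hAmem]
    omega
  obtain ⟨B, hB, C, hC, hBC⟩ := Finset.one_lt_card.1 hcer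
  rw [Finset.mem_erase, Finset.mem_filter] at hB hC
  obtain ⟨hBA, -, hB3⟩ := hB
  obtain ⟨hCA, -, hC3⟩ := hC
  -- time zero
  have z0 : F 0 A 0 = 1 := hF.ini A 0 (Nat.zero_le _)
  have z2 : ∀ P, 2 ≤ len P → F 0 P 2 = 1 := fun P hP => hF.ini P 2 hP
  have z2' : ∀ P, len P < 2 → F 0 P 2 = 0 := fun P hP => hF.out 0 P 2 hP
  have z1 : ∀ P, F 0 P 1 = 1 := fun P => hF.ini P 1 (hlen P).1
  have z4 : F 0 A 4 ≤ 1 := by
    rcases Nat.lt_or_ge (len A) 4 with h | h
    · rw [hF.out 0 A 4 h]; norm_num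
    · rw [hF.ini A 4 h]
  -- time one
  have o0 : F 1 A 0 = l := by
    have h1 : F (0 + 1) A 0 = ∑ Q, F 0 Q 1 := hF.zero 0 A
    have h2 : ∑ Q, F 0 Q 1 = ∑ _Q : ι, (1 : ℤ) := Finset.sum_congr rfl fun Q _ => z1 Q
    rw [h2, Finset.sum_const, Finset.card_univ, nsmul_eq_mul, mul_one, ← hl] at h1
    exact h1
  have o2 : ∀ P, 3 ≤ len P → F 1 P 2 = 2 := by
    intro P hP
    have h1 : F (0 + 1) P 2 = F 0 P 1 + F 0 P 3 := s2 hF 0 (by omega)
    rw [z1 P, hF.ini P 3 hP] at h1
    exact h1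
  have o1 : ∀ P, 2 ≤ len P → F 1 P 1 = 2 := by
    intro P hP
    have h1 : F (0 + 1) P 1 = F 0 A 0 + F 0 P 2 := s1 hlen hF 0 P
    rw [z0, z2 P hP] at h1
    exact h1
  -- time two
  obtain ⟨n, hn⟩ : ∃ n : ℤ, n = ∑ P, F 0 P 2 := ⟨_, rfl⟩
  have hn3 : 3 ≤ n := by
    have h1 := three (A := A) (g := fun P => F 0 P 2) (fun P => hnn 0 P 2) hBA hCA hBC
    rw [z2 A (by omega), z2 B (by omega), z2 C (by omega), ← hn] at h1
    linarith
  have t0 : F 2 A 0 = l + n := by
    have h1 := hcen 0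
    rw [z0, ← hn, mul_one] at h1
    exact h1
  have t2 : ∀ P, 3 ≤ len P → F 2 P 2 = 3 + F 0 P 4 := by
    intro P hP
    have h1 : F (0 + 2) P 2 = F 0 A 0 + 2 * F 0 P 2 + F 0 P 4 := long2 hlen hF 0 hP
    rw [z0, z2 P (by omega)] at h1
    have h2 : F 2 P 2 = F (0 + 2) P 2 := rfl
    rw [h2, h1]
    ring
  have t2A : F 2 A 2 ≤ 4 := by
    rw [t2 A hA3]
    linarith
  have t2P : ∀ P, 2 ≤ len P → 2 ≤ F 2 P 2 := by
    intro P hP
    have h1 : F (1 + 1) P 2 = F 1 P 1 + F 1 P 3 := s2 hF 1 hP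
    rw [o1 P hP] at h1
    have h2 := hnn 1 P 3
    have h3 : F 2 P 2 = F (1 + 1) P 2 := rfl
    rw [h3, h1]
    linarith
  have t4A : F 2 A 4 ≤ F 2 A 2 := hm2 2 A 2
  -- the sum at time two
  have hsum2 : 2 * n + F 2 A 2 ≤ ∑ P, F 2 P 2 := by
    have hpt : ∀ P, 2 * F 0 P 2 + (if P = B then 1 else 0) + (if P = C then 1 else 0) +
        (if P = A then F 2 A 2 - 2 else 0) ≤ F 2 P 2 := by
      intro P
      by_cases hPA : P = A
      · subst hPA
        rw [if_neg (fun h => hBA h.symm), if_neg (fun h => hCA h.symm), if_pos rfl,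
          z2 P (by omega)]
        linarith
      · rw [if_neg hPA]
        by_cases hPB : P = B
        · subst hPB
          rw [if_pos rfl, if_neg hBC, z2 P (by omega), t2 P hB3]
          have := hnn 0 P 4
          linarith
        · rw [if_neg hPB]
          by_cases hPC : P = C
          · subst hPC
            rw [if_pos rfl, z2 P (by omega), t2 P hC3]
            have := hnn 0 P 4
            linarith
          · rw [if_neg hPC]
            rcases Nat.lt_or_ge (len P) 2 with h | h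
            · rw [z2' P h]
              have := hnn 2 P 2
              linarith
            · rw [z2 P h]
              have := t2P P h
              linarith
    have h1 := Finset.sum_le_sum fun P (_ : P ∈ (univ : Finset ι)) => hpt P
    rw [Finset.sum_add_distrib, Finset.sum_add_distrib, Finset.sum_add_distrib,
      ← Finset.mul_sum, ← hn, Finset.sum_ite_eq', Finset.sum_ite_eq', Finset.sum_ite_eq',
      if_pos (mem_univ _), if_pos (mem_univ _), if_pos (mem_univ _)] at h1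
    linarith
  -- the invariants
  have hstep : ∀ k, (l * F k A 2 ≤ 2 * F k A 0 ∧ ∀ P, 3 ≤ len P → F k A 0 ≤ l * F k P 2) →
      (l * F (k + 2) A 2 ≤ 2 * F (k + 2) A 0 ∧
        ∀ P, 3 ≤ len P → F (k + 2) A 0 ≤ l * F (k + 2) P 2) := by
    rintro k ⟨ha, hb⟩
    have hy := hnn k A 0
    have hx := hnn k A 2
    constructor
    · have h1 := long2 hlen hF k hA3
      have h2 : F k A 4 ≤ F k A 2 := hm2 k A 2
      have h3 := three (A := A) (g := fun P => F k P 2) (fun P => hnn k P 2) hBA hCA hBC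
      have h4 := hb B hB3
      have h5 := hb C hC3
      rw [h1, hcen k]
      have h6 : l * (F k A 0 + 2 * F k A 2 + F k A 4) ≤ l * F k A 0 + 3 * (l * F k A 2) := by
        nlinarith
      -- multiply by `l`
      have h7 : l * (l * F k A 0 + 3 * (l * F k A 2)) ≤
          l * (2 * (l * F k A 0 + ∑ P, F k P 2)) := by
        have h8 : l * (F k A 2 + F k B 2 + F k C 2) ≤ l * ∑ P, F k P 2 :=
          mul_le_mul_of_nonneg_left h3 (by linarith)
        have h9 : 0 ≤ (l - 2) * (l - 4) * F k A 0 :=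
          mul_nonneg (mul_nonneg (by linarith) (by linarith)) hy
        have h10 : (3 * l - 2) * (l * F k A 2) ≤ (3 * l - 2) * (2 * F k A 0) :=
          mul_le_mul_of_nonneg_left ha (by linarith)
        nlinarith
      have h8 := le_of_mul_le_mul_left h7 (by linarith)
      linarith
    · intro P hP
      have h1 := long2 hlen hF k hP
      have h2 := hnn k P 4
      have h3 := hb P hP
      have h4 : ∑ Q, F k Q 2 ≤ l * F k A 2 := by
        rw [hl]
        exact sum_le_card fun Q => hme k Q A 2 (hlen Q).2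
      rw [h1, hcen k]
      nlinarith
  have hone : l * F 1 A 2 ≤ 2 * F 1 A 0 ∧ ∀ P, 3 ≤ len P → F 1 A 0 ≤ l * F 1 P 2 := by
    rw [o0, o2 A hA3]
    refine ⟨by linarith, fun P hP => ?_⟩
    rw [o2 P hP]
    linarith
  have hfour : l * F 4 A 2 ≤ 2 * F 4 A 0 ∧ ∀ P, 3 ≤ len P → F 4 A 0 ≤ l * F 4 P 2 := by
    have hc := hcen 2
    constructor
    · have h1 : F 4 A 2 = F 2 A 0 + 2 * F 2 A 2 + F 2 A 4 := long2 hlen hF 2 hA3
      have h2 : F 4 A 0 = l * F 2 A 0 + ∑ P, F 2 P 2 := hc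
      rw [h1, h2, t0]
      rcases Nat.lt_or_ge (len A) 4 with h | h
      · have h3 : F 2 A 4 = 0 := hF.out 2 A 4 h
        have h4 : F 2 A 2 = 3 := by
          rw [t2 A hA3, hF.out 0 A 4 h]
          norm_num
        rw [h3, h4]
        rw [h4] at hsum2
        nlinarith
      · have h4 : F 2 A 2 = 4 := by
          rw [t2 A hA3, hF.ini A 4 h]
          norm_num
        rw [h4]
        rw [h4] at hsum2 t4A
        have h5 : l * F 2 A 4 ≤ l * 4 := mul_le_mul_of_nonneg_left t4A (by linarith)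
        have h6 : 0 ≤ (l - 4) * (l - 5) := by
          rcases lt_or_ge l 5 with h7 | h7
          · have : l = 4 := by omega
            rw [this]
            norm_num
          · exact mul_nonneg (by linarith) (by linarith)
        have h7 : 0 ≤ (n - 3) * (l + 4) := mul_nonneg (by linarith) (by linarith)
        nlinarith
    · intro P hP
      have h1 : F 4 P 2 = F 2 A 0 + 2 * F 2 P 2 + F 2 P 4 := long2 hlen hF 2 hP
      have h2 : F 4 A 0 = l * F 2 A 0 + ∑ P, F 2 P 2 := hc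
      have h3 := hnn 2 P 4
      have h4 := t2 P hP
      have h5 := hnn 0 P 4
      have h6 : ∑ Q, F 2 Q 2 ≤ l * 4 := by
        rw [hl]
        exact sum_le_card fun Q => (hme 2 Q A 2 (hlen Q).2).trans t2A
      rw [h1, h2]
      nlinarith
  have hinv : ∀ k, k = 1 ∨ 3 ≤ k →
      (l * F k A 2 ≤ 2 * F k A 0 ∧ ∀ P, 3 ≤ len P → F k A 0 ≤ l * F k P 2) := by
    intro k
    induction k using Nat.strong_induction_on with
    | _ k ih =>
      intro hk
      rcases Nat.lt_or_ge k 5 with h | h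
      · have hk' : k = 1 ∨ k = 3 ∨ k = 4 := by omega
        rcases hk' with rfl | rfl | rfl
        · exact hone
        · exact hstep 1 hone
        · exact hfour
      · obtain ⟨j, rfl⟩ : ∃ j, k = j + 2 := ⟨k - 2, by omega⟩
        exact hstep j (ih j (by omega) (by omega))
  refine ⟨fun k hk => ?_, fun k P Q hk hP => ?_⟩
  · rw [← hl]
    exact (hinv k hk).1
  · refine (hme k Q A 3 (hlen Q).2).trans ?_
    obtain ⟨j, rfl⟩ : ∃ j, k = j + 1 := ⟨k - 1, by omega⟩
    rw [s3 hF j hA3, s1 hlen hF j P]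
    have h1 : F j A 4 ≤ F j A 2 := hm2 j A 2
    have h2 := hnn j P 2
    rcases Nat.lt_or_ge j 3 with h | h
    · have hj : j = 0 ∨ j = 1 ∨ j = 2 := by omega
      rcases hj with rfl | rfl | rfl
      · rw [z0, z2 A (by omega), z2 P hP]
        linarith
      · rw [o2 A hA3] at h1 ⊢
        rw [o0]
        linarith
      · rw [t0]
        have h3 := t2P P hP
        linarith
    · have h3 := (hinv j (Or.inr h)).1
      have h4 := hnn j A 2
      have h5 : 4 * F j A 2 ≤ l * F j A 2 := mul_le_mul_of_nonneg_right hl4 h4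
      linarith

end SP24
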